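import Pool.Agent.Helper82.CF.Sym

/-!
Condition (1) for every irreducible constituent.
-/

namespace Pool.Agent.Helper82.CF

open Module

universe u v w

variable {F : Type u} [Field F] {V : Type v} [AddCommGroup V] [Module F V]
  {C : Type w} [AddCommGroup C] [Module F C] {n : ℕ}

/-- If `C` occurs in `U1 + U2` it occurs in `U1` or in `U2`. -/
theorem occ_sum [FiniteDimensional F V] [FiniteDimensional F C] {A B : V ≃ₗ[F] V}
    {A' B' : C ≃ₗ[F] C} (hirr : Irr A' B') {Γ : Submodule F (V × C)} (hΓ : Occ A B A' B' Γ)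
    {U1 U2 : Submodule F V} (a1 : ∀ u ∈ U1, A u ∈ U1) (b1 : ∀ u ∈ U1, B u ∈ U1)
    (a2 : ∀ u ∈ U2, A u ∈ U2) (b2 : ∀ u ∈ U2, B u ∈ U2)
    (hU : ∀ y ∈ Γ, y.1 ∈ U1 ⊔ U2) :
    (∃ Γ' : Submodule F (V × C), Occ A B A' B' Γ' ∧ ∀ y ∈ Γ', y.1 ∈ U1) ∨
    (∃ Γ' : Submodule F (V × C), Occ A B A' B' Γ' ∧ ∀ y ∈ Γ', y.1 ∈ U2) := by
  rcases hirr.over (A := A) (B := B) hΓ.ia hΓ.ib a1 b1 with h | h
  · right
    have hocc := Occ.add (A := A) (B := B) hΓ.ia hΓ.ib hΓ.on a1 b1 h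
    set G := Γ ⊔ U1.prod (⊥ : Submodule F C) with hG
    refine ⟨G ⊓ U2.comap (LinearMap.fst F V C), ⟨?_, ?_, ?_, ?_⟩, fun y hy => hy.2⟩
    · intro y hy; exact ⟨hocc.ia y hy.1, a2 _ hy.2⟩
    · intro y hy; exact ⟨hocc.ib y hy.1, b2 _ hy.2⟩
    · intro c hc; exact hocc.fn c hc.1
    · intro c
      obtain ⟨v, hv⟩ := hΓ.on c
      obtain ⟨p, hp, q, hq, hpq⟩ := Submodule.mem_sup.1 (hU _ hv)
      refine ⟨q, ?_, hq⟩
      have h1 : (q, c) = (v, c) + (-p, (0 : C)) := by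
        ext
        · simp only [Prod.fst_add]
          have : v = p + q := hpq.symm
          rw [this]; abel
        · simp
      have h2 : (v, c) ∈ G := Submodule.mem_sup_left hv
      have h3 : (-p, (0 : C)) ∈ G :=
        Submodule.mem_sup_right ⟨U1.neg_mem hp, Submodule.zero_mem _⟩
      show (q, c) ∈ G
      rw [h1]; exact G.add_mem h2 h3
  · left
    refine ⟨Γ ⊓ U1.comap (LinearMap.fst F V C), ⟨?_, ?_, ?_, ?_⟩, fun y hy => hy.2⟩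
    · intro y hy; exact ⟨hΓ.ia y hy.1, a1 _ hy.2⟩
    · intro y hy; exact ⟨hΓ.ib y hy.1, b1 _ hy.2⟩
    · intro c hc; exact hΓ.fn c hc.1
    · intro c
      obtain ⟨v, hv, hvc⟩ := h c
      exact ⟨v, hvc, hv⟩

/-- The dual occurrence. -/
theorem occ_dual [FiniteDimensional F V] [FiniteDimensional F C] {A B : V ≃ₗ[F] V}
    {A' B' : C ≃ₗ[F] C} {e x : Basis (Fin n) F V} {θ lam : Fin n → F}
    (h : EX A B e x θ lam) {s t i1 i2 : Fin n}
    {Γ : Submodule F (V × C)} (hΓ : Occ A B A' B' Γ)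
    (hΓ1 : ∀ y ∈ Γ, y.1 ∈ sp e {i | (s : ℕ) ≤ i ∧ (i : ℕ) ≤ t})
    (hΓ0 : ∀ v ∈ sp e {i | ((s : ℕ) ≤ i ∧ (i : ℕ) < i1) ∨ ((i2 : ℕ) < i ∧ (i : ℕ) ≤ t)},
      (v, (0 : C)) ∈ Γ)
    (hinv : ∀ v ∈ sp e {i | ¬ ((i1 : ℕ) ≤ i ∧ (i : ℕ) ≤ i2)},
      A v ∈ sp e {i | ¬ ((i1 : ℕ) ≤ i ∧ (i : ℕ) ≤ i2)}) :
    ∃ Γ' : Submodule F (Dual F V × Dual F C), Occ A.dualMap B.dualMap A'.dualMap B'.dualMap Γ' ∧
      (∀ y ∈ Γ', ∀ i : Fin n, ¬ ((i1 : ℕ) ≤ i ∧ (i : ℕ) ≤ i2) → y.1 (e i) = 0) := by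
  set Eo : Set (Fin n) := {i | ¬ ((i1 : ℕ) ≤ i ∧ (i : ℕ) ≤ i2)} with hEo
  let Γ' : Submodule F (Dual F V × Dual F C) :=
    { carrier := {y | (∀ v ∈ sp e Eo, y.1 v = 0) ∧ ∀ v c, (v, c) ∈ Γ → y.1 v = y.2 c}
      add_mem' := by
        rintro y z ⟨h1, h2⟩ ⟨h3, h4⟩
        refine ⟨fun v hv => ?_, fun v c hvc => ?_⟩
        · simp [h1 v hv, h3 v hv]
        · simp [h2 v c hvc, h4 v c hvc]
      zero_mem' := by simp
      smul_mem' := by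
        rintro r y ⟨h1, h2⟩
        refine ⟨fun v hv => ?_, fun v c hvc => ?_⟩
        · simp [h1 v hv]
        · simp [h2 v c hvc] }
  have hΓ'm : ∀ y, y ∈ Γ' ↔ (∀ v ∈ sp e Eo, y.1 v = 0) ∧ ∀ v c, (v, c) ∈ Γ → y.1 v = y.2 c :=
    fun y => Iff.rfl
  refine ⟨Γ', ⟨?_, ?_, ?_, ?_⟩, ?_⟩
  · rintro y hy
    obtain ⟨h1, h2⟩ := (hΓ'm y).1 hy
    refine (hΓ'm _).2 ⟨fun v hv => ?_, fun v c hvc => ?_⟩
    · exact h1 _ (hinv v hv)
    · exact h2 _ _ (hΓ.ia _ hvc)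
  · rintro y hy
    obtain ⟨h1, h2⟩ := (hΓ'm y).1 hy
    refine (hΓ'm _).2 ⟨fun v hv => ?_, fun v c hvc => ?_⟩
    · exact h1 _ (sp_diag (B : V →ₗ[F] V) e θ h.he hv)
    · exact h2 _ _ (hΓ.ib _ hvc)
  · intro g hg
    obtain ⟨_, h2⟩ := (hΓ'm _).1 hg
    ext c
    obtain ⟨v, hv⟩ := hΓ.on c
    exact (h2 v c hv).symm
  · intro g
    obtain ⟨δ, hδ⟩ := extend_rel (Γ ⊔ (sp e Eo).prod (⊥ : Submodule F C)) (by
      intro c hc
      obtain ⟨⟨y1, y2⟩, hy, ⟨z1, z2⟩, hz, hyz⟩ := Submodule.mem_sup.1 hc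
      have hz' : z1 ∈ sp e Eo ∧ z2 = 0 := by simpa [Submodule.mem_prod] using hz
      simp only [Prod.mk_add_mk, Prod.mk.injEq] at hyz
      have e1 : y1 = -z1 := eq_neg_of_add_eq_zero_left hyz.1
      have e2 : c = y2 := by rw [← hyz.2, hz'.2, add_zero]
      have h3 : y1 ∈ sp e Eo := by rw [e1]; exact (sp e Eo).neg_mem hz'.1
      have h4 := sp_inter e h3 (hΓ1 _ hy)
      have h5 : (y1, (0 : C)) ∈ Γ := by
        refine hΓ0 _ (sp_mono e ?_ h4)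
        rintro i ⟨hi1, hi2, hi3⟩
        have hi1' : ¬ ((i1 : ℕ) ≤ i ∧ (i : ℕ) ≤ i2) := hi1
        by_cases h6 : (i : ℕ) < i1
        · exact Or.inl ⟨hi2, h6⟩
        · exact Or.inr ⟨by omega, hi3⟩
      rw [e2]
      exact hΓ.uniq hy h5)
    refine ⟨g ∘ₗ δ, (hΓ'm _).2 ⟨fun v hv => ?_, fun v c hvc => ?_⟩⟩
    · have := hδ v 0 (Submodule.mem_sup_right ⟨hv, Submodule.zero_mem _⟩)
      simp [this]
    · have := hδ v c (Submodule.mem_sup_left hvc)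
      simp [this]
  · intro y hy i hi
    exact ((hΓ'm y).1 hy).1 (e i) ((basis_mem_sp e).2 hi)

theorem cond1 [FiniteDimensional F V] [FiniteDimensional F C]
    {A B : V ≃ₗ[F] V} {A' B' : C ≃ₗ[F] C} {e x : Basis (Fin n) F V} {θ lam : Fin n → F}
    (h : EX A B e x θ lam) (hirr : Irr A' B')
    (hocc : ∃ Γ : Submodule F (V × C), Occ A B A' B' Γ) : C1 A' B' := by
  classical
  -- n > 0
  have hn : 0 < n := by
    rcases Nat.eq_zero_or_pos n with hn | hn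
    · exfalso
      subst hn
      obtain ⟨Γ, hΓ⟩ := hocc
      obtain ⟨c, hc⟩ := hirr.1
      obtain ⟨v, hv⟩ := hΓ.on c
      have : v = 0 := sp_empty e (fun i => i.elim0)
      rw [this] at hv
      exact hc (hΓ.fn c hv)
    · exact hn
  -- the minimal interval
  have hex : ∃ N : ℕ, ∃ s t : Fin n, (s : ℕ) ≤ t ∧ (t : ℕ) - s = N ∧
      (∀ v ∈ sp e {i | (s : ℕ) ≤ i ∧ (i : ℕ) ≤ t}, A v ∈ sp e {i | (s : ℕ) ≤ i ∧ (i : ℕ) ≤ t}) ∧
      ∃ Γ : Submodule F (V × C), Occ A B A' B' Γ ∧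
        ∀ y ∈ Γ, y.1 ∈ sp e {i | (s : ℕ) ≤ i ∧ (i : ℕ) ≤ t} := by
    obtain ⟨Γ, hΓ⟩ := hocc
    refine ⟨_, ⟨0, hn⟩, ⟨n - 1, by omega⟩, by simp, rfl, ?_, Γ, hΓ, ?_⟩
    · intro v _ i hi
      exfalso
      have hi2 := i.2
      apply hi
      constructor
      · exact Nat.zero_le _
      · show (i : ℕ) ≤ n - 1
        omega
    · intro y _ i hi
      exfalso
      have hi2 := i.2
      apply hi
      constructor
      · exact Nat.zero_le _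
      · show (i : ℕ) ≤ n - 1
        omega
  obtain ⟨s, t, hst, hN, hH0, Γ, hΓ, hΓ1⟩ := Nat.find_spec hex
  have hmin : ∀ s' t' : Fin n, (s' : ℕ) ≤ t' → (t' : ℕ) - s' < t - s →
      (∀ v ∈ sp e {i | (s' : ℕ) ≤ i ∧ (i : ℕ) ≤ t'},
        A v ∈ sp e {i | (s' : ℕ) ≤ i ∧ (i : ℕ) ≤ t'}) →
      ∀ Γ' : Submodule F (V × C), Occ A B A' B' Γ' →
        ¬ ∀ y ∈ Γ', y.1 ∈ sp e {i | (s' : ℕ) ≤ i ∧ (i : ℕ) ≤ t'} := by
    intro s' t' h1 h2 h3 Γ' h4 h5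
    have := Nat.find_min' hex ⟨s', t', h1, rfl, h3, Γ', h4, h5⟩
    omega
  -- i1
  let Q1 : Finset (Fin n) := Finset.univ.filter (fun i => (s : ℕ) ≤ i ∧ (i : ℕ) ≤ t ∧
    ∀ l k : Fin n, (k : ℕ) = l + 1 → (i : ℕ) ≤ l → (k : ℕ) ≤ t → e.repr (A (e l)) k ≠ 0)
  have hQ1 : Q1.Nonempty := ⟨t, Finset.mem_filter.2 ⟨Finset.mem_univ _, hst, le_refl _,
    fun l k h1 h2 h3 => by omega⟩⟩
  obtain ⟨_, hsi1, hi1t, hai1⟩ := Finset.mem_filter.1 (Q1.min'_mem hQ1)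
  set i1 := Q1.min' hQ1 with hi1
  have hmin1 : ∀ i ∈ Q1, (i1 : ℕ) ≤ i := fun i hi => Q1.min'_le i hi
  have hz1 : ∀ l : Fin n, (i1 : ℕ) = l + 1 → (s : ℕ) ≤ l → e.repr (A (e l)) i1 = 0 := by
    intro l hl hsl
    by_contra hcon
    have h1 : l ∈ Q1 := by
      refine Finset.mem_filter.2 ⟨Finset.mem_univ _, hsl, by omega, ?_⟩
      intro l' k' h2 h3 h4
      by_cases h5 : (l' : ℕ) = l
      · have e1 : l' = l := Fin.ext h5
        have e2 : k' = i1 := Fin.ext (by omega)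
        rw [e1, e2]; exact hcon
      · exact hai1 l' k' h2 (by omega) h4
    have := hmin1 l h1
    omega
  -- i2
  let Q2 : Finset (Fin n) := Finset.univ.filter (fun i => (s : ℕ) ≤ i ∧ (i : ℕ) ≤ t ∧
    ∀ l k : Fin n, (k : ℕ) = l + 1 → (s : ℕ) ≤ l → (k : ℕ) ≤ i → e.repr (A.symm (e k)) l ≠ 0)
  have hQ2 : Q2.Nonempty := ⟨s, Finset.mem_filter.2 ⟨Finset.mem_univ _, le_refl _, hst,
    fun l k h1 h2 h3 => by omega⟩⟩
  obtain ⟨_, hsi2, hi2t, hai2⟩ := Finset.mem_filter.1 (Q2.max'_mem hQ2)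
  set i2 := Q2.max' hQ2 with hi2
  have hmax2 : ∀ i ∈ Q2, (i : ℕ) ≤ i2 := fun i hi => Q2.le_max' i hi
  have hz2 : ∀ k : Fin n, (k : ℕ) = i2 + 1 → (k : ℕ) ≤ t → e.repr (A.symm (e k)) i2 = 0 := by
    intro k hk hkt
    by_contra hcon
    have h1 : k ∈ Q2 := by
      refine Finset.mem_filter.2 ⟨Finset.mem_univ _, by omega, hkt, ?_⟩
      intro l' k' h2 h3 h4
      by_cases h5 : (k' : ℕ) = k
      · have e1 : k' = k := Fin.ext h5
        have e2 : l' = i2 := Fin.ext (by omega)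
        rw [e1, e2]; exact hcon
      · exact hai2 l' k' h2 h3 (by omega)
    have := hmax2 k h1
    omega
  -- invariance of the initial and final parts
  have hinvL : (s : ℕ) < i1 → ∀ v ∈ sp e {i | (i : ℕ) < i1}, A v ∈ sp e {i | (i : ℕ) < i1} := by
    intro hs1 v hv
    refine sp_map e (A : V →ₗ[F] V) ?_ hv
    intro j hj i hi
    have hj' : (j : ℕ) < i1 := hj
    have hi' : ¬ (i : ℕ) < i1 := hi
    by_cases h1 : (j : ℕ) + 1 < i
    · exact h.hA i j h1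
    · have e1 : i = i1 := Fin.ext (by omega)
      rw [e1]
      exact hz1 j (by omega) (by omega)
  have hinvR : (i2 : ℕ) < t → ∀ v ∈ sp e {i | (i2 : ℕ) < i}, A v ∈ sp e {i | (i2 : ℕ) < i} := by
    intro hs1 v hv
    refine mem_of_symm A (U := sp e {i | (i2 : ℕ) < i}) ?_ hv
    intro w hw
    refine sp_map e (A.symm : V →ₗ[F] V) ?_ hw
    intro j hj i hi
    have hj' : (i2 : ℕ) < j := hj
    have hi' : ¬ (i2 : ℕ) < i := hi
    by_cases h1 : (i : ℕ) + 1 < j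
    · exact h.hAi i j h1
    · have e1 : i = i2 := Fin.ext (by omega)
      rw [e1]
      exact hz2 j (by omega) (by omega)
  have hdiag : ∀ S : Set (Fin n), ∀ v ∈ sp e S, B v ∈ sp e S := fun S v hv =>
    sp_diag (B : V →ₗ[F] V) e θ h.he hv
  have hWL : ∀ v ∈ sp e {i | (s : ℕ) ≤ i ∧ (i : ℕ) < i1}, A v ∈ sp e {i | (s : ℕ) ≤ i ∧ (i : ℕ) < i1} := by
    intro v hv
    by_cases hs1 : (s : ℕ) < i1
    · have h1 := hinvL hs1 v (sp_mono e (fun i hi => hi.2) hv)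
      have h2 := hH0 v (sp_mono e (S := {i | (s : ℕ) ≤ i ∧ (i : ℕ) < i1})
        (T := {i | (s : ℕ) ≤ i ∧ (i : ℕ) ≤ t}) (fun i hi => ⟨hi.1, by have := hi.2; omega⟩) hv)
      exact sp_mono e (T := {i : Fin n | (s : ℕ) ≤ i ∧ (i : ℕ) < i1})
        (fun i hi => ⟨hi.2.1, hi.1⟩) (sp_inter e h1 h2)
    · have h1 : v = 0 := sp_empty e (sp_mono e (by
        rintro i ⟨hi1, hi2⟩; omega) hv)
      rw [h1, map_zero]; exact Submodule.zero_mem _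
  have hWR : ∀ v ∈ sp e {i | (i2 : ℕ) < i ∧ (i : ℕ) ≤ t}, A v ∈ sp e {i | (i2 : ℕ) < i ∧ (i : ℕ) ≤ t} := by
    intro v hv
    by_cases hs1 : (i2 : ℕ) < t
    · have h1 := hinvR hs1 v (sp_mono e (fun i hi => hi.1) hv)
      have h2 := hH0 v (sp_mono e (S := {i | (i2 : ℕ) < i ∧ (i : ℕ) ≤ t})
        (T := {i | (s : ℕ) ≤ i ∧ (i : ℕ) ≤ t}) (fun i hi => ⟨by have := hi.1; omega, hi.2⟩) hv)
      exact sp_mono e (T := {i : Fin n | (i2 : ℕ) < i ∧ (i : ℕ) ≤ t})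
        (fun i hi => ⟨hi.1, hi.2.2⟩) (sp_inter e h1 h2)
    · have h1 : v = 0 := sp_empty e (sp_mono e (by
        rintro i ⟨hi1, hi2⟩; omega) hv)
      rw [h1, map_zero]; exact Submodule.zero_mem _
  -- no occurrence in the parts
  have hnoL : ∀ Γ' : Submodule F (V × C), Occ A B A' B' Γ' →
      ¬ ∀ y ∈ Γ', y.1 ∈ sp e {i | (s : ℕ) ≤ i ∧ (i : ℕ) < i1} := by
    intro Γ' hΓ' hy
    by_cases hs1 : (s : ℕ) < i1
    · have hin := i1.2
      set j : Fin n := ⟨i1 - 1, by omega⟩ with hj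
      have hjv : (j : ℕ) = i1 - 1 := rfl
      have hset : {i : Fin n | (s : ℕ) ≤ i ∧ (i : ℕ) ≤ j} =
          {i : Fin n | (s : ℕ) ≤ i ∧ (i : ℕ) < i1} := by
        ext i
        constructor
        · rintro ⟨h1, h2⟩; exact ⟨h1, by omega⟩
        · rintro ⟨h1, h2⟩; exact ⟨h1, by omega⟩
      refine hmin s j (by omega) (by omega) ?_ Γ' hΓ' ?_
      · rw [hset]; exact hWL
      · rw [hset]; exact hy
    · obtain ⟨c, hc⟩ := hirr.1
      obtain ⟨v, hv⟩ := hΓ'.on c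
      have h1 : v = 0 := sp_empty e (sp_mono e (by
        rintro i ⟨hi1, hi2⟩; omega) (hy _ hv))
      rw [h1] at hv
      exact hc (hΓ'.fn c hv)
  have hnoR : ∀ Γ' : Submodule F (V × C), Occ A B A' B' Γ' →
      ¬ ∀ y ∈ Γ', y.1 ∈ sp e {i | (i2 : ℕ) < i ∧ (i : ℕ) ≤ t} := by
    intro Γ' hΓ' hy
    by_cases hs1 : (i2 : ℕ) < t
    · have htn := t.2
      set j : Fin n := ⟨i2 + 1, by omega⟩ with hj
      have hjv : (j : ℕ) = i2 + 1 := rfl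
      have hset : {i : Fin n | (j : ℕ) ≤ i ∧ (i : ℕ) ≤ t} =
          {i : Fin n | (i2 : ℕ) < i ∧ (i : ℕ) ≤ t} := by
        ext i
        constructor
        · rintro ⟨h1, h2⟩; exact ⟨by omega, h2⟩
        · rintro ⟨h1, h2⟩; exact ⟨by omega, h2⟩
      refine hmin j t (by omega) (by omega) ?_ Γ' hΓ' ?_
      · rw [hset]; exact hWR
      · rw [hset]; exact hy
    · obtain ⟨c, hc⟩ := hirr.1
      obtain ⟨v, hv⟩ := hΓ'.on c
      have h1 : v = 0 := sp_empty e (sp_mono e (by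
        rintro i ⟨hi1, hi2⟩; omega) (hy _ hv))
      rw [h1] at hv
      exact hc (hΓ'.fn c hv)
  -- the sum
  set SW : Set (Fin n) := {i | ((s : ℕ) ≤ i ∧ (i : ℕ) < i1) ∨ ((i2 : ℕ) < i ∧ (i : ℕ) ≤ t)} with hSW
  have hWsum : ∀ v ∈ sp e SW, v ∈ sp e {i | (s : ℕ) ≤ i ∧ (i : ℕ) < i1} ⊔
      sp e {i | (i2 : ℕ) < i ∧ (i : ℕ) ≤ t} := by
    intro v hv
    obtain ⟨p, hp, q, hq, rfl⟩ := sp_union e (S := {i : Fin n | (s : ℕ) ≤ i ∧ (i : ℕ) < i1})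
      (T := {i : Fin n | (i2 : ℕ) < i ∧ (i : ℕ) ≤ t}) (fun i hi => hi) hv
    exact Submodule.add_mem _ (Submodule.mem_sup_left hp) (Submodule.mem_sup_right hq)
  have hWA : ∀ v ∈ sp e SW, A v ∈ sp e SW := by
    intro v hv
    obtain ⟨p, hp, q, hq, rfl⟩ := sp_union e (S := {i : Fin n | (s : ℕ) ≤ i ∧ (i : ℕ) < i1})
      (T := {i : Fin n | (i2 : ℕ) < i ∧ (i : ℕ) ≤ t}) (fun i hi => hi) hv
    rw [map_add]
    exact Submodule.add_mem _ (sp_mono e (fun i hi => Or.inl hi) (hWL p hp))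
      (sp_mono e (fun i hi => Or.inr hi) (hWR q hq))
  have hnoW : ∀ Γ' : Submodule F (V × C), Occ A B A' B' Γ' → ¬ ∀ y ∈ Γ', y.1 ∈ sp e SW := by
    intro Γ' hΓ' hy
    rcases occ_sum hirr hΓ' hWL (hdiag _) hWR (hdiag _) (fun y hy' => hWsum _ (hy y hy')) with
      ⟨G, hG, hG'⟩ | ⟨G, hG, hG'⟩
    · exact hnoL G hG hG'
    · exact hnoR G hG hG'
  have hi12 : (i1 : ℕ) ≤ i2 := by
    by_contra hcon
    refine hnoW Γ hΓ (fun y hy => sp_mono e ?_ (hΓ1 y hy))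
    rintro i ⟨h1, h2⟩
    by_cases h3 : (i : ℕ) < i1
    · exact Or.inl ⟨h1, h3⟩
    · exact Or.inr ⟨by omega, h2⟩
  -- the occurrence over W
  rcases hirr.over (A := A) (B := B) hΓ.ia hΓ.ib hWA (hdiag SW) with hW | hW
  swap
  · exfalso
    refine hnoW (Γ ⊓ (sp e SW).comap (LinearMap.fst F V C)) ⟨?_, ?_, ?_, ?_⟩ (fun y hy => hy.2)
    · intro y hy; exact ⟨hΓ.ia y hy.1, hWA _ hy.2⟩
    · intro y hy; exact ⟨hΓ.ib y hy.1, hdiag _ _ hy.2⟩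
    · intro c hc; exact hΓ.fn c hc.1
    · intro c
      obtain ⟨v, hv, hvc⟩ := hW c
      exact ⟨v, hvc, hv⟩
  have hocc' := Occ.add (A := A) (B := B) hΓ.ia hΓ.ib hΓ.on hWA (hdiag SW) hW
  set G := Γ ⊔ (sp e SW).prod (⊥ : Submodule F C) with hG
  have hGS : ∀ y ∈ G, y.1 ∈ sp e {i | (s : ℕ) ≤ i ∧ (i : ℕ) ≤ t} := by
    intro y hy
    obtain ⟨p, hp, q, hq, rfl⟩ := Submodule.mem_sup.1 hy
    refine Submodule.add_mem _ (hΓ1 p hp) (sp_mono e ?_ hq.1)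
    rintro i (⟨h1, h2⟩ | ⟨h1, h2⟩)
    · exact ⟨h1, by omega⟩
    · exact ⟨by omega, h2⟩
  have hG0 : ∀ v ∈ sp e SW, (v, (0 : C)) ∈ G := fun v hv =>
    Submodule.mem_sup_right ⟨hv, Submodule.zero_mem _⟩
  by_cases hc1 : (i1 : ℕ) = s
  · -- L = 0
    refine t1i h (s := s) (r := i2) (t := t) hsi2 hi2t hH0 hWR ?_ hai2 hirr ⟨G, hocc', hGS, ?_⟩
    · intro l k h1 h2 h3; exact hai1 l k h1 (by omega) h3
    · intro v hv; exact hG0 v (sp_mono e (fun i hi => Or.inr hi) hv)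
  by_cases hc2 : (i2 : ℕ) = t
  · -- R = 0, mirror
    apply C1.mirror
    have hrs : (t.rev : ℕ) = n - (t + 1) := Fin.val_rev t
    have hrt : (s.rev : ℕ) = n - (s + 1) := Fin.val_rev s
    have hr1 : (i1.rev : ℕ) = n - (i1 + 1) := Fin.val_rev i1
    have hsn := s.2
    have htn := t.2
    have hin := i1.2
    have hset0 : {i : Fin n | i.rev ∈ {i : Fin n | (t.rev : ℕ) ≤ i ∧ (i : ℕ) ≤ s.rev}} =
        {i : Fin n | (s : ℕ) ≤ i ∧ (i : ℕ) ≤ t} := by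
      ext i
      have h1 : (i.rev : ℕ) = n - (i + 1) := Fin.val_rev i
      have h2 := i.2
      constructor
      · rintro ⟨h3, h4⟩; exact ⟨by omega, by omega⟩
      · rintro ⟨h3, h4⟩; exact ⟨by omega, by omega⟩
    have hsetR : {i : Fin n | i.rev ∈ {i : Fin n | (i1.rev : ℕ) < i ∧ (i : ℕ) ≤ s.rev}} =
        {i : Fin n | (s : ℕ) ≤ i ∧ (i : ℕ) < i1} := by
      ext i
      have h1 : (i.rev : ℕ) = n - (i + 1) := Fin.val_rev i
      have h2 := i.2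
      constructor
      · rintro ⟨h3, h4⟩; exact ⟨by omega, by omega⟩
      · rintro ⟨h3, h4⟩; exact ⟨by omega, by omega⟩
    refine t1i h.mirror (s := t.rev) (r := i1.rev) (t := s.rev) (by omega) (by omega) ?_ ?_ ?_ ?_
      hirr.mirror ⟨G, hocc'.mirror, ?_, ?_⟩
    · intro v hv
      rw [sp_rv, hset0] at hv ⊢
      exact symm_mem A hH0 hv
    · intro v hv
      rw [sp_rv, hsetR] at hv ⊢
      exact symm_mem A hWL hv
    · intro l k h1 h2 h3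
      rw [rv_apply, rv_repr]
      have e1 : (l.rev : ℕ) = n - (l + 1) := Fin.val_rev l
      have e2 : (k.rev : ℕ) = n - (k + 1) := Fin.val_rev k
      have e3 := k.2
      exact hai2 k.rev l.rev (by omega) (by omega) (by omega)
    · intro l k h1 h2 h3
      rw [rv_apply, rv_repr]
      have e1 : (l.rev : ℕ) = n - (l + 1) := Fin.val_rev l
      have e2 : (k.rev : ℕ) = n - (k + 1) := Fin.val_rev k
      have e3 := k.2
      exact hai1 k.rev l.rev (by omega) (by omega) (by omega)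
    · intro y hy
      rw [sp_rv, hset0]
      exact hGS y hy
    · intro v hv
      rw [sp_rv, hsetR] at hv
      exact hG0 v (sp_mono e (fun i hi => Or.inl hi) hv)
  -- the dual case
  have hs1 : (s : ℕ) < i1 := by omega
  have h2t : (i2 : ℕ) < t := by omega
  have hEo : ∀ v ∈ sp e {i | ¬ ((i1 : ℕ) ≤ i ∧ (i : ℕ) ≤ i2)},
      A v ∈ sp e {i | ¬ ((i1 : ℕ) ≤ i ∧ (i : ℕ) ≤ i2)} := by
    intro v hv
    obtain ⟨p, hp, q, hq, rfl⟩ := sp_union e (S := {i : Fin n | (i : ℕ) < i1})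
      (T := {i : Fin n | (i2 : ℕ) < i}) (by
        intro i hi
        have hi' : ¬ ((i1 : ℕ) ≤ i ∧ (i : ℕ) ≤ i2) := hi
        by_cases h3 : (i : ℕ) < i1
        · exact Or.inl h3
        · exact Or.inr (show (i2 : ℕ) < i by omega)) hv
    rw [map_add]
    refine Submodule.add_mem _ (sp_mono e ?_ (hinvL hs1 p hp)) (sp_mono e ?_ (hinvR h2t q hq))
    · intro i hi
      have hi' : (i : ℕ) < i1 := hi
      show ¬ ((i1 : ℕ) ≤ i ∧ (i : ℕ) ≤ i2)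
      omega
    · intro i hi
      have hi' : (i2 : ℕ) < i := hi
      show ¬ ((i1 : ℕ) ≤ i ∧ (i : ℕ) ≤ i2)
      omega
  obtain ⟨Γd, hΓd, hΓd0⟩ := occ_dual h (i1 := i1) (i2 := i2) hocc' hGS hG0 hEo
  apply C1.dual
  have hr1 : (i1.rev : ℕ) = n - (i1 + 1) := Fin.val_rev i1
  have hr2 : (i2.rev : ℕ) = n - (i2 + 1) := Fin.val_rev i2
  have hin1 := i1.2
  have hin2 := i2.2
  have hmem : ∀ φ : Dual F V, φ ∈ sp (dv e) {i | (i2.rev : ℕ) ≤ i ∧ (i : ℕ) ≤ i1.rev} ↔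
      ∀ v ∈ sp e {i | ¬ ((i1 : ℕ) ≤ i ∧ (i : ℕ) ≤ i2)}, φ v = 0 := by
    intro φ
    constructor
    · intro hφ v hv
      have : v ∈ LinearMap.ker φ := by
        refine sp_le e ?_ hv
        intro i hi
        have hi' : ¬ ((i1 : ℕ) ≤ i ∧ (i : ℕ) ≤ i2) := hi
        rw [LinearMap.mem_ker]
        have h3 := hφ i.rev (by
          rintro ⟨h4, h5⟩
          have e1 : (i.rev : ℕ) = n - (i + 1) := Fin.val_rev i
          have e2 := i.2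
          omega)
        rwa [dv_repr, Fin.rev_rev] at h3
      exact this
    · intro hφ i hi
      rw [dv_repr]
      refine hφ _ ((basis_mem_sp e).2 ?_)
      show ¬ ((i1 : ℕ) ≤ i.rev ∧ (i.rev : ℕ) ≤ i2)
      rintro ⟨h4, h5⟩
      have e1 : (i.rev : ℕ) = n - (i + 1) := Fin.val_rev i
      have e2 := i.2
      exact hi ⟨by omega, by omega⟩
  refine t1i h.dual (s := i2.rev) (r := i1.rev) (t := i1.rev) (by omega) (le_refl _) ?_ ?_ ?_ ?_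
    hirr.dual ⟨Γd, hΓd, ?_, ?_⟩
  · intro φ hφ
    rw [hmem] at hφ ⊢
    intro v hv
    exact hφ _ (hEo v hv)
  · intro φ hφ
    have h1 : φ = 0 := sp_empty (dv e) (sp_mono (dv e) (by
      rintro i ⟨h3, h4⟩; omega) hφ)
    rw [h1, map_zero]; exact Submodule.zero_mem _
  · intro l k h1 h2 h3
    rw [dv_repr, LinearEquiv.dualMap_apply, dv_apply]
    have e1 : (l.rev : ℕ) = n - (l + 1) := Fin.val_rev l
    have e2 : (k.rev : ℕ) = n - (k + 1) := Fin.val_rev k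
    have e3 := k.2
    exact hai1 k.rev l.rev (by omega) (by omega) (by omega)
  · intro l k h1 h2 h3
    rw [dv_repr, LinearEquiv.dualMap_symm, LinearEquiv.dualMap_apply, dv_apply]
    have e1 : (l.rev : ℕ) = n - (l + 1) := Fin.val_rev l
    have e2 : (k.rev : ℕ) = n - (k + 1) := Fin.val_rev k
    have e3 := k.2
    exact hai2 k.rev l.rev (by omega) (by omega) (by omega)
  · intro y hy
    rw [hmem]
    intro v hv
    have : v ∈ LinearMap.ker y.1 := by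
      refine sp_le e ?_ hv
      intro i hi
      exact hΓd0 y hy i hi
    exact this
  · intro φ hφ
    have h1 : φ = 0 := sp_empty (dv e) (sp_mono (dv e) (by
      rintro i ⟨h3, h4⟩; omega) hφ)
    rw [h1]; exact Γd.zero_mem

end Pool.Agent.Helper82.CF
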