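import Pool.Agent.Helper82.CF.Sp

/-!
The core of Lemma X: a partial map from an interval piece of the `x`-structure extends.
-/

namespace Pool.Agent.Helper82.CF

open Module

universe u v w

variable {F : Type u} [Field F] {V : Type v} [AddCommGroup V] [Module F V]
  {C : Type w} [AddCommGroup C] [Module F C] {n : ℕ}

/-- `Γ` is (the graph of) a surjective partial map from `(V, A, B)` to `(C, A', B')`. -/
structure Occ (A B : V ≃ₗ[F] V) (A' B' : C ≃ₗ[F] C) (Γ : Submodule F (V × C)) : Prop where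
  ia : ∀ x ∈ Γ, (A x.1, A' x.2) ∈ Γ
  ib : ∀ x ∈ Γ, (B x.1, B' x.2) ∈ Γ
  fn : ∀ c : C, ((0 : V), c) ∈ Γ → c = 0
  on : ∀ c : C, ∃ v : V, (v, c) ∈ Γ

/-- the pair is irreducible -/
def Irr (A' B' : C ≃ₗ[F] C) : Prop :=
  (∃ c : C, c ≠ 0) ∧ ∀ U : Submodule F C, (∀ u ∈ U, A' u ∈ U) → (∀ u ∈ U, B' u ∈ U) →
    U = ⊥ ∨ U = ⊤

theorem Occ.isymm [FiniteDimensional F V] [FiniteDimensional F C] {A B : V ≃ₗ[F] V}
    {A' B' : C ≃ₗ[F] C} {Γ : Submodule F (V × C)} (h : Occ A B A' B' Γ) {v : V} {c : C}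
    (hx : (v, c) ∈ Γ) : (B.symm v, B'.symm c) ∈ Γ := by
  have := symm_mem (B.prodCongr B') (U := Γ) (fun x hx => h.ib x hx) hx
  simpa using this

theorem Occ.iasymm [FiniteDimensional F V] [FiniteDimensional F C] {A B : V ≃ₗ[F] V}
    {A' B' : C ≃ₗ[F] C} {Γ : Submodule F (V × C)} (h : Occ A B A' B' Γ) {v : V} {c : C}
    (hx : (v, c) ∈ Γ) : (A.symm v, A'.symm c) ∈ Γ := by
  have := symm_mem (A.prodCongr A') (U := Γ) (fun x hx => h.ia x hx) hx
  simpa using this

theorem Occ.uniq {A B : V ≃ₗ[F] V} {A' B' : C ≃ₗ[F] C} {Γ : Submodule F (V × C)}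
    (h : Occ A B A' B' Γ) {v : V} {c d : C} (h1 : (v, c) ∈ Γ) (h2 : (v, d) ∈ Γ) : c = d := by
  have := Γ.sub_mem h1 h2
  rw [Prod.mk_sub_mk, sub_self] at this
  exact sub_eq_zero.1 (h.fn _ this)

theorem exists_linearMap (G : Submodule F (V × C)) (hf : ∀ c : C, ((0 : V), c) ∈ G → c = 0)
    (ht : ∀ v : V, ∃ c : C, (v, c) ∈ G) : ∃ δ : V →ₗ[F] C, ∀ v c, (v, c) ∈ G ↔ δ v = c := by
  choose f hfv using ht
  have hu : ∀ v c, (v, c) ∈ G → f v = c := by
    intro v c h
    have h1 := G.sub_mem (hfv v) h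
    rw [Prod.mk_sub_mk, sub_self] at h1
    exact sub_eq_zero.1 (hf _ h1)
  refine ⟨{ toFun := f, map_add' := ?_, map_smul' := ?_ }, ?_⟩
  · intro v w
    exact hu _ _ (by simpa using G.add_mem (hfv v) (hfv w))
  · intro r v
    exact hu _ _ (by simpa using G.smul_mem r (hfv v))
  · intro v c
    refine ⟨hu v c, ?_⟩
    rintro rfl
    exact hfv v

theorem sp_diag (T : V →ₗ[F] V) (x : Basis (Fin n) F V) (lam : Fin n → F)
    (hx : ∀ i, T (x i) = lam i • x i) {S : Set (Fin n)} {v : V} (hv : v ∈ sp x S) :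
    T v ∈ sp x S :=
  sp_map x T (fun i hi => by rw [hx]; exact (sp x S).smul_mem _ ((basis_mem_sp x).2 hi)) hv

/-- The `x`-structure of `V` together with an interval `[a, b] = J1 \ J0`. -/
structure XS (A B : V ≃ₗ[F] V) (x : Basis (Fin n) F V) (lam : Fin n → F) (J0 J1 : Set (Fin n))
    (a b : Fin n) : Prop where
  hx : ∀ i, A (x i) = lam i • x i
  hB : ∀ i j : Fin n, (i : ℕ) + 1 < j → x.repr (B (x j)) i = 0
  hBi : ∀ i j : Fin n, (j : ℕ) + 1 < i → x.repr (B.symm (x j)) i = 0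
  hab : (a : ℕ) ≤ b
  hJ : ∀ i : Fin n, i ∈ J1 ↔ (i ∈ J0 ∨ ((a : ℕ) ≤ i ∧ (i : ℕ) ≤ b))
  hd : ∀ i : Fin n, (a : ℕ) ≤ i → (i : ℕ) ≤ b → i ∉ J0
  hI0 : ∀ v ∈ sp x J0, B v ∈ sp x J0
  hI1 : ∀ v ∈ sp x J1, B v ∈ sp x J1
  hc : ∀ l k : Fin n, (k : ℕ) = l + 1 → (a : ℕ) ≤ l → (k : ℕ) ≤ b → x.repr (B.symm (x l)) k ≠ 0
  hb : ∀ l k : Fin n, (k : ℕ) = l + 1 → (a : ℕ) ≤ l → (k : ℕ) ≤ b → x.repr (B (x k)) l ≠ 0

/-- `D l` = the span of `x i`, `i ∈ J0` or `a ≤ i < l`. -/
def DS (J0 : Set (Fin n)) (a : Fin n) (l : ℕ) : Set (Fin n) :=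
  {i | i ∈ J0 ∨ ((a : ℕ) ≤ i ∧ (i : ℕ) < l)}

section core

variable [FiniteDimensional F V] [FiniteDimensional F C]
  {A B : V ≃ₗ[F] V} {A' B' : C ≃ₗ[F] C} {x : Basis (Fin n) F V} {lam : Fin n → F}
  {J0 J1 : Set (Fin n)} {a b : Fin n}

theorem XS.i0 (h : XS A B x lam J0 J1 a b) {v : V} (hv : v ∈ sp x J0) : B.symm v ∈ sp x J0 :=
  symm_mem B h.hI0 hv

theorem XS.i1 (h : XS A B x lam J0 J1 a b) {v : V} (hv : v ∈ sp x J1) : B.symm v ∈ sp x J1 :=
  symm_mem B h.hI1 hv

/-- `B⁻¹` raises `D l`. -/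
theorem XS.up_D (h : XS A B x lam J0 J1 a b) {l : ℕ} (hl : l ≤ (b : ℕ) + 1) {v : V}
    (hv : v ∈ sp x (DS J0 a l)) : B.symm v ∈ sp x (DS J0 a (l + 1)) := by
  refine sp_map x (B.symm : V →ₗ[F] V) ?_ hv
  rintro i (hi | ⟨hi1, hi2⟩)
  · exact sp_mono x (fun j hj => Or.inl hj) (h.i0 ((basis_mem_sp x).2 hi))
  · intro k hk
    have hi3 : i ∈ J1 := (h.hJ i).2 (Or.inr ⟨hi1, by omega⟩)
    have h1 := h.i1 ((basis_mem_sp x).2 hi3)
    by_cases hk1 : k ∈ J1
    · rcases (h.hJ k).1 hk1 with h' | ⟨h', h''⟩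
      · exact absurd (Or.inl h') hk
      · apply h.hBi
        by_contra hcon
        apply hk
        right
        refine ⟨h', ?_⟩
        omega
    · exact h1 k hk1

/-- leading coefficients are raised -/
theorem XS.up_lead (h : XS A B x lam J0 J1 a b) {l k : Fin n} (hk : (k : ℕ) = l + 1)
    (hal : (a : ℕ) ≤ l) (hkb : (k : ℕ) ≤ b) {v : V}
    (hv : v ∈ sp x (DS J0 a k)) (hv0 : x.repr v l ≠ 0) : x.repr (B.symm v) k ≠ 0 := by
  have h1 := repr_map_single x (B.symm : V →ₗ[F] V) hv (k := k) l (by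
    rintro i (hi | ⟨hi1, hi2⟩) hil
    · exact h.i0 ((basis_mem_sp x).2 hi) k (h.hd k (by omega) hkb)
    · apply h.hBi
      have : (i : ℕ) ≠ l := fun h => hil (Fin.ext h)
      omega)
  simp only [LinearEquiv.coe_coe] at h1
  rw [h1]
  exact mul_ne_zero hv0 (h.hc l k hk hal hkb)

omit [FiniteDimensional F V] in
/-- a vector of `sp J1` outside `sp J0` has a leading coordinate -/
theorem XS.lead_of (h : XS A B x lam J0 J1 a b) {v : V} (h1 : v ∈ sp x J1) (h0 : v ∉ sp x J0) :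
    ∃ l : Fin n, (a : ℕ) ≤ l ∧ (l : ℕ) ≤ b ∧ v ∈ sp x (DS J0 a (l + 1)) ∧ x.repr v l ≠ 0 := by
  classical
  have hne : ∃ i, i ∉ J0 ∧ x.repr v i ≠ 0 := by
    by_contra hcon
    push Not at hcon
    exact h0 (fun i hi => hcon i hi)
  let S : Finset (Fin n) := Finset.univ.filter (fun i => i ∉ J0 ∧ x.repr v i ≠ 0)
  have hS : S.Nonempty := by
    obtain ⟨i, hi⟩ := hne
    exact ⟨i, by simp [S, hi.1, hi.2]⟩
  have hm := S.max'_mem hS
  set l := S.max' hS with hl
  have hm' : l ∉ J0 ∧ x.repr v l ≠ 0 := by simpa [S] using hm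
  have hJ1 : ∀ i, x.repr v i ≠ 0 → i ∈ J1 := by
    intro i hi
    by_contra hcon
    exact hi (h1 i hcon)
  have hl1 := (h.hJ l).1 (hJ1 l hm'.2)
  have hl2 : (a : ℕ) ≤ l ∧ (l : ℕ) ≤ b := by
    rcases hl1 with h | h
    · exact absurd h hm'.1
    · exact h
  refine ⟨l, hl2.1, hl2.2, ?_, hm'.2⟩
  intro i hi
  by_contra hcon
  have hi0 : i ∉ J0 := fun h => hi (Or.inl h)
  have hi1 : i ∈ S := by simp [S, hi0, hcon]
  have hi2 : i ≤ l := S.le_max' i hi1
  apply hi
  right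
  rcases (h.hJ i).1 (hJ1 i hcon) with h | h
  · exact absurd h hi0
  · refine ⟨h.1, ?_⟩
    have : (i : ℕ) ≤ l := hi2
    omega

omit [FiniteDimensional F V] in
theorem XS.j1_eq (h : XS A B x lam J0 J1 a b) {v : V} (h1 : v ∈ sp x J1) :
    v ∈ sp x (DS J0 a ((b : ℕ) + 1)) := by
  refine sp_mono x (fun i hi => ?_) h1
  rcases (h.hJ i).1 hi with h | h
  · exact Or.inl h
  · exact Or.inr ⟨h.1, by omega⟩

omit [FiniteDimensional F V] in
theorem XS.d_le (h : XS A B x lam J0 J1 a b) {l : ℕ} (hl : l ≤ (b : ℕ) + 1) {v : V}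
    (h1 : v ∈ sp x (DS J0 a l)) : v ∈ sp x J1 := by
  refine sp_mono x (fun i hi => ?_) h1
  rcases hi with hi | hi
  · exact (h.hJ i).2 (Or.inl hi)
  · exact (h.hJ i).2 (Or.inr ⟨hi.1, by omega⟩)

/-- the elements `u_l` -/
theorem XS.exists_u (h : XS A B x lam J0 J1 a b) {l0 : Fin n} (ha : (a : ℕ) ≤ l0)
    {m1 : V} (hm1 : m1 ∈ sp x (DS J0 a (l0 + 1))) (hm1' : x.repr m1 l0 ≠ 0)
    {U : Submodule F V} (hU : ∀ u ∈ U, B.symm u ∈ U) (hmU : m1 ∈ U) :
    ∀ l : Fin n, (l0 : ℕ) ≤ l → (l : ℕ) ≤ b →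
      ∃ u ∈ U, u ∈ sp x (DS J0 a ((l : ℕ) + 1)) ∧ x.repr u l ≠ 0 := by
  have key : ∀ k : ℕ, ∀ l : Fin n, (l : ℕ) = l0 + k → (l : ℕ) ≤ b →
      ∃ u ∈ U, u ∈ sp x (DS J0 a ((l : ℕ) + 1)) ∧ x.repr u l ≠ 0 := by
    intro k
    induction k with
    | zero =>
      intro l hl _
      have : l = l0 := Fin.ext (by simpa using hl)
      subst this
      exact ⟨m1, hmU, hm1, hm1'⟩
    | succ k ih =>
      intro l hl hlb
      have hb' := l.2
      obtain ⟨u, hu, hu1, hu2⟩ := ih ⟨l0 + k, by omega⟩ rfl (by simp; omega)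
      refine ⟨B.symm u, hU u hu, ?_, ?_⟩
      · have := h.up_D (l := (l0 : ℕ) + k + 1) (by omega) hu1
        rw [hl]; exact this
      · refine h.up_lead (l := ⟨l0 + k, by omega⟩) (by simp; omega) (by simp; omega) hlb ?_ hu2
        rw [hl]; exact hu1
  intro l h1 h2
  exact key (l - l0) l (by omega) h2

/-- elimination -/
theorem XS.elim (h : XS A B x lam J0 J1 a b) {l0 : Fin n} (ha : (a : ℕ) ≤ l0)
    (hl0b : (l0 : ℕ) ≤ b)
    {m1 : V} (hm1 : m1 ∈ sp x (DS J0 a (l0 + 1))) (hm1' : x.repr m1 l0 ≠ 0)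
    {U : Submodule F V} (hU : ∀ u ∈ U, B.symm u ∈ U) (hmU : m1 ∈ U) {v : V}
    (hv : v ∈ sp x J1) : ∃ m ∈ U, v - m ∈ sp x (DS J0 a l0) := by
  have key : ∀ k : ℕ, (l0 : ℕ) + k ≤ (b : ℕ) + 1 → ∀ v ∈ sp x (DS J0 a (l0 + k)),
      ∃ m ∈ U, v - m ∈ sp x (DS J0 a l0) := by
    intro k
    induction k with
    | zero => intro _ v hv; exact ⟨0, U.zero_mem, by simpa using hv⟩
    | succ k ih =>
      intro hk v hv
      have hb' := b.2
      obtain ⟨u, hu, hu1, hu2⟩ := h.exists_u ha hm1 hm1' hU hmU ⟨l0 + k, by omega⟩ (by simp)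
        (by simp; omega)
      set l : Fin n := ⟨l0 + k, by omega⟩ with hl
      have hv' : v - (x.repr v l / x.repr u l) • u ∈ sp x (DS J0 a (l0 + k)) := by
        intro i hi
        rw [map_sub, map_smul, Finsupp.sub_apply, Finsupp.smul_apply, smul_eq_mul]
        by_cases hil : i = l
        · subst hil; field_simp; ring
        · have hi' : i ∉ DS J0 a ((l : ℕ) + 1) := by
            rintro (h' | ⟨h', h''⟩)
            · exact hi (Or.inl h')
            · apply hi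
              right
              refine ⟨h', ?_⟩
              have : (i : ℕ) ≠ l := fun h => hil (Fin.ext h)
              have h3 : (l : ℕ) = l0 + k := rfl
              omega
          rw [hu1 i hi', hv i (by
            have h3 : (l : ℕ) + 1 = l0 + (k + 1) := by rw [hl]; simp; omega
            rw [← h3]; exact hi')]
          ring
      obtain ⟨m, hm, hm2⟩ := ih (by omega) _ hv'
      refine ⟨m + (x.repr v l / x.repr u l) • u, U.add_mem hm (U.smul_mem _ hu), ?_⟩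
      have : v - (m + (x.repr v l / x.repr u l) • u) =
          v - (x.repr v l / x.repr u l) • u - m := by abel
      rw [this]; exact hm2
  have := key ((b : ℕ) + 1 - l0) (by omega) v (by
    have h3 : (l0 : ℕ) + ((b : ℕ) + 1 - l0) = b + 1 := by omega
    rw [h3]; exact h.j1_eq hv)
  exact this

omit [FiniteDimensional F V] in
/-- the analogous descending statement: `x b` generates `sp J1` over `sp J0` under `B` -/
theorem XS.gen_down (h : XS A B x lam J0 J1 a b) {U : Submodule F V} (hU : ∀ u ∈ U, B u ∈ U)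
    (h0 : sp x J0 ≤ U) (hb : x b ∈ U) : sp x J1 ≤ U := by
  have key : ∀ k : ℕ, ∀ l : Fin n, (a : ℕ) ≤ l → (l : ℕ) + k = b → x l ∈ U := by
    intro k
    induction k using Nat.strong_induction_on with
    | _ k ih =>
      intro l hal hl
      rcases Nat.eq_zero_or_pos k with hk | hk
      · have : l = b := Fin.ext (by omega)
        rw [this]; exact hb
      · have hb' := b.2
        set k' : Fin n := ⟨l + 1, by omega⟩ with hk'
        have h1 : x k' ∈ U := ih (k - 1) (by omega) k' (by simp [hk']; omega) (by simp [hk']; omega)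
        have h2 := hU _ h1
        have hk1 : k' ∈ J1 := (h.hJ k').2 (Or.inr ⟨by simp [hk']; omega, by simp [hk']; omega⟩)
        have h3 : B (x k') ∈ sp x ({l} ∪ {i | i ∈ J1 ∧ (i ∈ J0 ∨ (l : ℕ) < i)}) := by
          intro i hi
          by_cases hi1 : i ∈ J1
          · apply h.hB
            by_contra hcon
            apply hi
            by_cases hil : i = l
            · left; exact hil
            · right
              refine ⟨hi1, ?_⟩
              right
              have : (i : ℕ) ≠ l := fun h => hil (Fin.ext h)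
              have h5 : (k' : ℕ) = l + 1 := rfl
              omega
          · exact h.hI1 _ ((basis_mem_sp x).2 hk1) i hi1
        obtain ⟨p, hp, q, hq, hpq⟩ := sp_union x (Set.Subset.refl _) h3
        have hq' : q ∈ U := by
          refine sp_le x ?_ hq
          rintro i ⟨hi1, hi2⟩
          rcases hi2 with hi2 | hi2
          · exact h0 ((basis_mem_sp x).2 hi2)
          · rcases (h.hJ i).1 hi1 with hi3 | hi3
            · exact h0 ((basis_mem_sp x).2 hi3)
            · exact ih (b - i) (by omega) i (by omega) (by omega)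
        have hp' : p = x.repr p l • x l := by
          apply x.repr.injective
          ext i
          by_cases hil : i = l
          · subst hil; simp
          · rw [hp i (by simpa using hil)]
            simp [Ne.symm hil]
        have hp2 : p ∈ U := by
          have : p = B (x k') - q := by rw [hpq]; abel
          rw [this]; exact U.sub_mem h2 hq'
        have hc : x.repr p l ≠ 0 := by
          have h4 := h.hb l k' rfl hal (by simp [hk']; omega)
          rw [hpq, map_add, Finsupp.add_apply, hq l (by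
            rintro ⟨_, h6 | h6⟩
            · exact h.hd l hal (by omega) h6
            · exact lt_irrefl _ h6), add_zero] at h4
          exact h4
        rw [hp'] at hp2
        have := U.smul_mem (x.repr p l)⁻¹ hp2
        rwa [smul_smul, inv_mul_cancel₀ hc, one_smul] at this
  refine sp_le x fun i hi => ?_
  rcases (h.hJ i).1 hi with h1 | h1
  · exact h0 ((basis_mem_sp x).2 h1)
  · exact key (b - i) i h1.1 (by omega)

end core

end Pool.Agent.Helper82.CF
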