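import Pool.Agent.Helper82.CF.CoreX

/-!
Lemma X, core: the extension `δ` of a partial map living on an interval piece.
-/

namespace Pool.Agent.Helper82.CF

open Module

universe u v w

variable {F : Type u} [Field F] {V : Type v} [AddCommGroup V] [Module F V]
  {C : Type w} [AddCommGroup C] [Module F C] {n : ℕ}

theorem core [FiniteDimensional F V] [FiniteDimensional F C]
    {A B : V ≃ₗ[F] V} {A' B' : C ≃ₗ[F] C} {x : Basis (Fin n) F V} {lam : Fin n → F}
    {J0 J1 : Set (Fin n)} {a b : Fin n} (h : XS A B x lam J0 J1 a b)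
    {Γ : Submodule F (V × C)} (hΓ : Occ A B A' B' Γ) (hC : ∃ c : C, c ≠ 0)
    (hΓ1 : ∀ y ∈ Γ, y.1 ∈ sp x J1) (hΓ0 : ∀ w ∈ sp x J0, (w, (0 : C)) ∈ Γ)
    (hP : ∀ μ, ∃ P, IsProj (B : V →ₗ[F] V) μ P)
    (hPs : ∀ μ, ∃ P, IsProj (B.symm : V →ₗ[F] V) μ P) :
    ∃ (δ : V →ₗ[F] C) (H : Submodule F V),
      (∀ v, δ (A v) = A' (δ v)) ∧ (∀ v ∈ H, A v ∈ H) ∧
      (∀ (μ : F) (c : C), c ≠ 0 → B' c = μ • c → ∀ v, B v = μ • v → v ∈ H) ∧
      (∀ v ∈ H, B v ∈ H → δ (B v) = B' (δ v)) ∧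
      (∀ v c, (v, c) ∈ Γ → δ v = c) ∧
      (∃ c0 : C, ∀ U : Submodule F C, c0 ∈ U → (∀ u ∈ U, B'.symm u ∈ U) → U = ⊤) := by
  classical
  set M : Submodule F V := Γ.map (LinearMap.fst F V C) with hMdef
  have hM : ∀ v, v ∈ M ↔ ∃ c, (v, c) ∈ Γ := by
    intro v
    constructor
    · rintro ⟨⟨v', c⟩, hy, rfl⟩; exact ⟨c, hy⟩
    · rintro ⟨c, hc⟩; exact ⟨(v, c), hc, rfl⟩
  have hMA : ∀ v ∈ M, A v ∈ M := by
    intro v hv; obtain ⟨c, hc⟩ := (hM v).1 hv; exact (hM _).2 ⟨A' c, hΓ.ia _ hc⟩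
  have hMB : ∀ v ∈ M, B v ∈ M := by
    intro v hv; obtain ⟨c, hc⟩ := (hM v).1 hv; exact (hM _).2 ⟨B' c, hΓ.ib _ hc⟩
  have hMBi : ∀ v ∈ M, B.symm v ∈ M := fun v hv => symm_mem B hMB hv
  have hM0 : sp x J0 ≤ M := fun v hv => (hM v).2 ⟨0, hΓ0 v hv⟩
  have hM1 : M ≤ sp x J1 := by
    intro v hv; obtain ⟨c, hc⟩ := (hM v).1 hv; exact hΓ1 _ hc
  have hker : ∀ v c, (v, c) ∈ Γ → v ∈ sp x J0 → c = 0 := by
    intro v c hvc hv; exact hΓ.uniq hvc (hΓ0 v hv)
  -- the minimal leading index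
  have hLne : ∃ l : Fin n, ((a : ℕ) ≤ l ∧ (l : ℕ) ≤ b) ∧
      ∃ v ∈ M, v ∈ sp x (DS J0 a (l + 1)) ∧ x.repr v l ≠ 0 := by
    obtain ⟨c, hc⟩ := hC
    obtain ⟨v, hv⟩ := hΓ.on c
    obtain ⟨l, h1, h2, h3, h4⟩ := h.lead_of (hΓ1 _ hv) (fun h0 => hc (hker v c hv h0))
    exact ⟨l, ⟨h1, h2⟩, v, (hM v).2 ⟨c, hv⟩, h3, h4⟩
  obtain ⟨l0, ⟨⟨hal0, hl0b⟩, m1, hm1M, hm1, hm1'⟩, hmin⟩ :=
    WellFounded.has_min (wellFounded_lt : WellFounded ((· < ·) : Fin n → Fin n → Prop))
      {l : Fin n | ((a : ℕ) ≤ l ∧ (l : ℕ) ≤ b) ∧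
        ∃ v ∈ M, v ∈ sp x (DS J0 a (l + 1)) ∧ x.repr v l ≠ 0} hLne
  have hMD : ∀ v ∈ M, v ∈ sp x (DS J0 a l0) → v ∈ sp x J0 := by
    intro v hv hvd
    by_contra hcon
    obtain ⟨l, h1, h2, h3, h4⟩ := h.lead_of (hM1 hv) hcon
    have hl : l ∈ DS J0 a l0 := by
      by_contra h5; exact h4 (hvd l h5)
    rcases hl with h5 | ⟨_, h5⟩
    · exact h.hd l h1 h2 h5
    · exact hmin l ⟨⟨h1, h2⟩, v, hv, h3, h4⟩ h5
  have hgenM : ∀ U : Submodule F V, sp x J0 ≤ U → m1 ∈ U → (∀ u ∈ U, B.symm u ∈ U) → M ≤ U := by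
    intro U hU0 hmU hU v hv
    obtain ⟨m, hm, hm2⟩ := h.elim hal0 hl0b hm1 hm1' (U := U ⊓ M)
      (fun u hu => ⟨hU u hu.1, hMBi u hu.2⟩) ⟨hmU, hm1M⟩ (hM1 hv)
    have h1 : v - m ∈ sp x J0 := hMD _ (M.sub_mem hv hm.2) hm2
    have : v = (v - m) + m := by abel
    rw [this]; exact U.add_mem (hU0 h1) hm.1
  -- the complement
  set Zs : Set (Fin n) := {i | i ∉ J1 ∨ ((a : ℕ) ≤ i ∧ (i : ℕ) < l0)} with hZs
  have hZ0 : ∀ i, i ∈ J0 → i ∉ Zs := by
    rintro i hi (h1 | h1)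
    · exact h1 ((h.hJ i).2 (Or.inl hi))
    · exact h.hd i h1.1 (by omega) hi
  have hZM : ∀ v ∈ sp x Zs, v ∈ M → v = 0 := by
    intro v hv hvM
    have h1 : v ∈ sp x (DS J0 a l0) := by
      refine sp_mono x ?_ (sp_inter x hv (hM1 hvM))
      rintro i ⟨hi1, hi2⟩
      rcases hi1 with hi1 | hi1
      · exact absurd hi2 hi1
      · exact Or.inr hi1
    have h2 := hMD v hvM h1
    refine sp_empty x (sp_mono x ?_ (sp_inter x hv h2))
    rintro i ⟨hi1, hi2⟩
    exact (hZ0 i hi2 hi1).elim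
  have hdec : ∀ v, ∃ z ∈ sp x Zs, ∃ m ∈ M, v = z + m := by
    intro v
    have h1 : v - tr x J1ᶜ v ∈ sp x J1 := by
      have := sub_tr_mem x J1ᶜ v
      rwa [compl_compl] at this
    obtain ⟨m, hm, hm2⟩ := h.elim hal0 hl0b hm1 hm1' (U := M) hMBi hm1M h1
    obtain ⟨d0, hd0, d1, hd1, hd⟩ := sp_union x (S := J0)
      (T := {i : Fin n | (a : ℕ) ≤ i ∧ (i : ℕ) < l0}) (fun i hi => hi) hm2
    refine ⟨tr x J1ᶜ v + d1, ?_, d0 + m, M.add_mem (hM0 hd0) hm, ?_⟩
    · exact (sp x Zs).add_mem (sp_mono x (fun i hi => Or.inl hi) (tr_mem x J1ᶜ v))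
        (sp_mono x (fun i hi => Or.inr hi) hd1)
    · calc v = tr x J1ᶜ v + (v - tr x J1ᶜ v - m) + m := by abel
        _ = tr x J1ᶜ v + (d0 + d1) + m := by rw [hd]
        _ = tr x J1ᶜ v + d1 + (d0 + m) := by abel
  -- the extension
  have hG : ∀ v c, (v, c) ∈ Γ ⊔ (sp x Zs).prod (⊥ : Submodule F C) ↔
      ∃ z ∈ sp x Zs, (v - z, c) ∈ Γ := by
    intro v c
    rw [Submodule.mem_sup]
    constructor
    · rintro ⟨⟨y1, y2⟩, hy, ⟨z1, z2⟩, hz, hyz⟩
      have hz' : z1 ∈ sp x Zs ∧ z2 = 0 := by simpa [Submodule.mem_prod] using hz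
      simp only [Prod.mk_add_mk, Prod.mk.injEq] at hyz
      refine ⟨z1, hz'.1, ?_⟩
      have e1 : v - z1 = y1 := by rw [← hyz.1]; abel
      have e2 : c = y2 := by rw [← hyz.2, hz'.2, add_zero]
      rw [e1, e2]; exact hy
    · rintro ⟨z, hz, hzc⟩
      refine ⟨(v - z, c), hzc, (z, 0), by simpa [Submodule.mem_prod] using hz, by simp⟩
  obtain ⟨δ, hδ⟩ := exists_linearMap (Γ ⊔ (sp x Zs).prod (⊥ : Submodule F C))
    (by
      intro c hc
      obtain ⟨z, hz, hzc⟩ := (hG 0 c).1 hc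
      rw [zero_sub] at hzc
      have h1 : (-z) = 0 := hZM _ ((sp x Zs).neg_mem hz) ((hM _).2 ⟨c, hzc⟩)
      rw [h1] at hzc
      exact hΓ.fn c hzc)
    (by
      intro v
      obtain ⟨z, hz, m, hm, hv⟩ := hdec v
      obtain ⟨c, hc⟩ := (hM m).1 hm
      exact ⟨c, (hG v c).2 ⟨z, hz, by rw [hv]; simpa using hc⟩⟩)
  have hδΓ : ∀ v c, (v, c) ∈ Γ → δ v = c := fun v c hvc =>
    (hδ v c).1 ((hG v c).2 ⟨0, (sp x Zs).zero_mem, by simpa using hvc⟩)
  have hδZ : ∀ z ∈ sp x Zs, δ z = 0 := fun z hz =>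
    (hδ z 0).1 ((hG z 0).2 ⟨z, hz, by rw [sub_self]; exact Γ.zero_mem⟩)
  have hδ0 : ∀ w ∈ sp x J0, δ w = 0 := fun w hw => hδΓ w 0 (hΓ0 w hw)
  set E : Set (Fin n) := {i | ((i : ℕ) + 1 = l0 ∧ x.repr (B.symm (x i)) l0 ≠ 0) ∨
    ((i : ℕ) = b + 1 ∧ x.repr (B (x i)) b ≠ 0)} with hE
  set Z1 : Set (Fin n) := {i | i ∈ Zs ∧ (i : ℕ) < l0} with hZ1
  set ZR : Set (Fin n) := {i | i ∈ Zs ∧ (b : ℕ) < i} with hZR
  have hsplit : Zs ⊆ Z1 ∪ ZR := by
    intro i hi
    by_cases hil : (i : ℕ) < l0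
    · exact Or.inl ⟨hi, hil⟩
    · right
      refine ⟨hi, ?_⟩
      rcases hi with h1 | h1
      · by_contra h2
        exact h1 ((h.hJ i).2 (Or.inr ⟨by omega, by omega⟩))
      · omega
  have hsplitE : Zs \ E ⊆ (Z1 \ E) ∪ (ZR \ E) := by
    rintro i ⟨hi, hi2⟩
    rcases hsplit hi with h1 | h1
    · exact Or.inl ⟨h1, hi2⟩
    · exact Or.inr ⟨h1, hi2⟩
  have hR : ∀ z ∈ sp x (ZR \ E), B z ∈ sp x {k : Fin n | (b : ℕ) < k} := by
    intro z hz
    refine sp_map x (B : V →ₗ[F] V) ?_ hz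
    rintro i ⟨⟨_, hi⟩, hiE⟩ k hk
    have hk' : (k : ℕ) ≤ b := not_lt.1 hk
    by_cases h1 : (i : ℕ) = b + 1
    · by_cases h2 : k = b
      · subst h2
        by_contra h3
        exact hiE (Or.inr ⟨h1, h3⟩)
      · have : (k : ℕ) ≠ b := fun h => h2 (Fin.ext h)
        exact h.hB k i (by omega)
    · exact h.hB k i (by omega)
  have hR' : {k : Fin n | (b : ℕ) < k} ⊆ ZR ∪ J0 := by
    intro k hk
    have hk' : (b : ℕ) < k := hk
    by_cases h1 : k ∈ J1
    · rcases (h.hJ k).1 h1 with h2 | h2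
      · exact Or.inr h2
      · omega
    · exact Or.inl ⟨Or.inl h1, hk'⟩
  have hL : ∀ z ∈ sp x (Z1 \ E), B.symm z ∈ sp x {k : Fin n | (k : ℕ) < l0} := by
    intro z hz
    refine sp_map x (B.symm : V →ₗ[F] V) ?_ hz
    rintro i ⟨⟨_, hi⟩, hiE⟩ k hk
    have hk' : (l0 : ℕ) ≤ k := not_lt.1 hk
    by_cases h1 : (i : ℕ) + 1 = l0
    · by_cases h2 : k = l0
      · subst h2
        by_contra h3
        exact hiE (Or.inl ⟨h1, h3⟩)
      · have : (k : ℕ) ≠ l0 := fun h => h2 (Fin.ext h)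
        exact h.hBi k i (by omega)
    · exact h.hBi k i (by omega)
  have hL' : {k : Fin n | (k : ℕ) < l0} ⊆ Z1 ∪ J0 := by
    intro k hk
    have hk' : (k : ℕ) < l0 := hk
    by_cases h1 : k ∈ J1
    · rcases (h.hJ k).1 h1 with h2 | h2
      · exact Or.inr h2
      · exact Or.inl ⟨Or.inr ⟨h2.1, hk'⟩, hk'⟩
    · exact Or.inl ⟨Or.inl h1, hk'⟩
  have hZ1s : sp x Z1 ≤ sp x Zs := sp_mono x (fun i hi => hi.1)
  have hZRs : sp x ZR ≤ sp x Zs := sp_mono x (fun i hi => hi.1)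
  -- the subspace P
  set P : Submodule F V := sp x {i : Fin n | (i : ℕ) < l0} ⊔ M with hPdef
  have hxl0 : x l0 ∈ P := by
    obtain ⟨p, hp, q, hq, hpq⟩ := sp_union x (S := {l0}) (T := DS J0 a l0)
      (by
        rintro i (hi | hi)
        · exact Or.inr (Or.inl hi)
        · by_cases h1 : (i : ℕ) < l0
          · exact Or.inr (Or.inr ⟨hi.1, h1⟩)
          · left
            have : (i : ℕ) = l0 := by omega
            exact Fin.ext this) hm1
    have hp' : p = x.repr p l0 • x l0 := by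
      apply x.repr.injective
      ext i
      by_cases hil : i = l0
      · subst hil; simp
      · rw [hp i (by simpa using hil)]
        simp [Ne.symm hil]
    have hqP : q ∈ P := by
      refine sp_le x ?_ hq
      rintro i (hi | hi)
      · exact Submodule.mem_sup_right (hM0 ((basis_mem_sp x).2 hi))
      · exact Submodule.mem_sup_left ((basis_mem_sp x).2 hi.2)
    have hpP : p ∈ P := by
      have : p = m1 - q := by rw [hpq]; abel
      rw [this]; exact P.sub_mem (Submodule.mem_sup_right hm1M) hqP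
    have hr : x.repr p l0 ≠ 0 := by
      have h2 := hm1'
      rw [hpq, map_add, Finsupp.add_apply, hq l0 (by
        rintro (h3 | h3)
        · exact h.hd l0 hal0 hl0b h3
        · exact lt_irrefl _ h3.2), add_zero] at h2
      exact h2
    rw [hp'] at hpP
    have := P.smul_mem (x.repr p l0)⁻¹ hpP
    rwa [smul_smul, inv_mul_cancel₀ hr, one_smul] at this
  have hPi : ∀ v ∈ P, B.symm v ∈ P := by
    intro v hv
    obtain ⟨p, hp, m, hm, rfl⟩ := Submodule.mem_sup.1 hv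
    rw [map_add]
    refine P.add_mem ?_ (Submodule.mem_sup_right (hMBi m hm))
    refine sp_map x (B.symm : V →ₗ[F] V) (U := P) ?_ hp
    intro i hi
    have hi' : (i : ℕ) < l0 := hi
    have h1 : B.symm (x i) ∈ sp x {k : Fin n | (k : ℕ) ≤ l0} := by
      intro k hk
      have hk' : ¬ (k : ℕ) ≤ l0 := hk
      exact h.hBi k i (by omega)
    refine sp_le x ?_ h1
    intro k hk
    have hk' : (k : ℕ) ≤ l0 := hk
    by_cases h2 : k = l0
    · rw [h2]; exact hxl0
    · have : (k : ℕ) ≠ l0 := fun h => h2 (Fin.ext h)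
      exact Submodule.mem_sup_left ((basis_mem_sp x).2 (show (k : ℕ) < l0 by omega))
  have hPB : ∀ v ∈ P, B v ∈ P := fun v hv => mem_of_symm B hPi hv
  refine ⟨δ, sp x (Zs \ E) ⊔ M, ?_, ?_, ?_, ?_, hδΓ, ?_⟩
  · -- A-equivariance of δ
    intro v
    obtain ⟨z, hz, hzc⟩ := (hG v (δ v)).1 ((hδ v (δ v)).2 rfl)
    refine (hδ (A v) (A' (δ v))).1 ((hG _ _).2 ⟨A z, ?_, ?_⟩)
    · exact sp_diag (A : V →ₗ[F] V) x lam h.hx hz
    · have := hΓ.ia _ hzc
      simpa using this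
  · -- H is A-invariant
    intro v hv
    obtain ⟨z, hz, m, hm, rfl⟩ := Submodule.mem_sup.1 hv
    rw [map_add]
    exact Submodule.add_mem _ (Submodule.mem_sup_left (sp_diag (A : V →ₗ[F] V) x lam h.hx hz))
      (Submodule.mem_sup_right (hMA m hm))
  · -- eigenvectors are in H
    intro μ c hc hBc v hv
    have hμ : μ ≠ 0 := by
      rintro rfl
      rw [zero_smul] at hBc
      exact hc (by simpa using hBc)
    obtain ⟨Pμ, hPμ⟩ := hP μ
    obtain ⟨Qμ, hQμ⟩ := hPs μ⁻¹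
    obtain ⟨v', hv'⟩ := hΓ.on c
    set v0 : V := Polynomial.aeval (B : V →ₗ[F] V) Pμ v' with hv0
    have hv0Γ : (v0, c) ∈ Γ := by
      have := aeval_prod (B : V →ₗ[F] V) (B' : C →ₗ[F] C) (Γ := Γ) (fun y hy => hΓ.ib y hy) Pμ hv'
      rwa [aeval_eigen (B' : C →ₗ[F] C) hBc, hPμ.1, one_smul] at this
    have hv0B : B v0 = μ • v0 := hPμ.2 v'
    have hv0n : v0 ∉ sp x J0 := fun h0 => hc (hker v0 c hv0Γ h0)
    have hv0M : v0 ∈ M := (hM _).2 ⟨c, hv0Γ⟩
    have hsv : B.symm v = μ⁻¹ • v := by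
      have h1 : B.symm (B v) = μ • B.symm v := by rw [hv, map_smul]
      rw [LinearEquiv.symm_apply_apply] at h1
      have h2 := congrArg (fun t => μ⁻¹ • t) h1
      simp only [smul_smul, inv_mul_cancel₀ hμ, one_smul] at h2
      exact h2.symm
    have hsv0 : B.symm v0 = μ⁻¹ • v0 := by
      have h1 : B.symm (B v0) = μ • B.symm v0 := by rw [hv0B, map_smul]
      rw [LinearEquiv.symm_apply_apply] at h1
      have h2 := congrArg (fun t => μ⁻¹ • t) h1
      simp only [smul_smul, inv_mul_cancel₀ hμ, one_smul] at h2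
      exact h2.symm
    obtain ⟨z, hz, m, hm, hzm⟩ := hdec v
    obtain ⟨z1, hz1, zR, hzR, hzz⟩ := sp_union x hsplit hz
    -- right part
    set Q : Submodule F V := sp x {i : Fin n | (i : ℕ) < a ∨ i ∈ J1} with hQ
    have haJ : a ∈ J1 := (h.hJ a).2 (Or.inr ⟨le_refl _, h.hab⟩)
    have hQi : ∀ q ∈ Q, B.symm q ∈ Q := by
      intro q hq
      refine sp_map x (B.symm : V →ₗ[F] V) ?_ hq
      rintro i (hi | hi)
      · intro k hk
        by_cases hka : (k : ℕ) ≤ a
        · exfalso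
          apply hk
          by_cases h1 : k = a
          · right; rw [h1]; exact haJ
          · left
            have : (k : ℕ) ≠ a := fun h => h1 (Fin.ext h)
            show (k : ℕ) < a
            omega
        · exact h.hBi k i (by omega)
      · exact sp_mono x (fun j hj => Or.inr hj) (h.i1 ((basis_mem_sp x).2 hi))
    have hQB : ∀ q ∈ Q, B q ∈ Q := fun q hq => mem_of_symm B hQi hq
    have hz1Q : z1 ∈ Q := by
      refine sp_mono x ?_ hz1
      rintro i ⟨hi1, hi2⟩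
      rcases hi1 with hi1 | hi1
      · by_cases h1 : (i : ℕ) < a
        · exact Or.inl h1
        · exact absurd ((h.hJ i).2 (Or.inr ⟨by omega, by omega⟩)) hi1
      · exact Or.inr ((h.hJ i).2 (Or.inr ⟨hi1.1, by omega⟩))
    have hmQ : m ∈ Q := sp_mono x (fun j hj => Or.inr hj) (hM1 hm)
    have hzRv : zR = v - z1 - m := by rw [hzm, hzz]; abel
    set w : V := B zR - μ • zR with hw
    have hwQ : w ∈ Q := by
      have : w = -(B z1 - μ • z1) - (B m - μ • m) := by
        rw [hw, hzRv, map_sub, map_sub, smul_sub, smul_sub, hv]; abel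
      rw [this]
      exact Q.sub_mem (Q.neg_mem (Q.sub_mem (hQB _ hz1Q) (Q.smul_mem _ hz1Q)))
        (Q.sub_mem (hQB _ hmQ) (Q.smul_mem _ hmQ))
    have hwb : w ∈ sp x {k : Fin n | (b : ℕ) ≤ k} := by
      refine Submodule.sub_mem _ ?_ (Submodule.smul_mem _ _ ?_)
      · refine sp_map x (B : V →ₗ[F] V) ?_ hzR
        rintro i ⟨_, hi⟩ k hk
        have hk' : ¬ (b : ℕ) ≤ k := hk
        exact h.hB k i (by omega)
      · refine sp_mono x ?_ hzR
        rintro i ⟨_, hi⟩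
        show (b : ℕ) ≤ i
        omega
    have hw' : w - x.repr w b • x b ∈ sp x J0 := by
      intro i hi
      rw [map_sub, map_smul, Finsupp.sub_apply, Finsupp.smul_apply, Basis.repr_self, smul_eq_mul]
      by_cases hib : i = b
      · subst hib; simp
      · rw [Finsupp.single_eq_of_ne hib, mul_zero, sub_zero]
        by_cases h1 : (b : ℕ) ≤ i
        · have h2 : ¬ ((i : ℕ) < a ∨ i ∈ J1) := by
            rintro (h3 | h3)
            · have := h.hab; omega
            · rcases (h.hJ i).1 h3 with h4 | h4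
              · exact hi h4
              · exact hib (Fin.ext (by omega))
          exact hwQ i h2
        · exact hwb i h1
    have hκ : x.repr w b = 0 := by
      by_contra hκ
      refine hv0n (lemY (B : V →ₗ[F] V) hPμ (M' := sp x J0) h.hI0 (m := x b) (v := v0) (z := zR)
        (w' := w - x.repr w b • x b) (κ := x.repr w b) ?_ ?_ hw' hκ hv0B)
      · intro U hU0 hU1 hU2
        exact h.gen_down hU2 hU0 hU1 (hM1 hv0M)
      · simp only [LinearEquiv.coe_coe]
        rw [← hw]; abel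
    have hw0 : w ∈ sp x J0 := by
      rw [hκ, zero_smul, sub_zero] at hw'
      exact hw'
    have hzR' : zR ∈ sp x (ZR \ E) := by
      intro i hi
      by_cases h1 : i ∈ ZR
      · have h2 : i ∈ E := by
          by_contra h2; exact hi ⟨h1, h2⟩
        have h1b : (b : ℕ) < i := h1.2
        rcases h2 with h2 | h2
        · exfalso; omega
        · have h3 := repr_map_single x (B : V →ₗ[F] V) hzR (k := b) i (by
            rintro j ⟨_, hj⟩ hji
            have : (j : ℕ) ≠ i := fun h => hji (Fin.ext h)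
            exact h.hB b j (by omega))
          have h4 : x.repr (B zR) b = 0 := by
            have h5 := hκ
            rw [hw, map_sub, map_smul, Finsupp.sub_apply, Finsupp.smul_apply, smul_eq_mul,
              hzR b (by rintro ⟨_, h6⟩; exact lt_irrefl _ h6), mul_zero, sub_zero] at h5
            exact h5
          simp only [LinearEquiv.coe_coe] at h3
          rw [h4] at h3
          rcases mul_eq_zero.1 h3.symm with h6 | h6
          · exact h6
          · exact absurd h6 h2.2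
      · exact hzR i h1
    -- left part
    set u : V := B.symm z1 - μ⁻¹ • z1 with hu
    have huR : B.symm zR - μ⁻¹ • zR ∈ M := by
      have h1 : B.symm zR - μ⁻¹ • zR = -(μ⁻¹ • B.symm w) := by
        rw [hw, map_sub, map_smul, LinearEquiv.symm_apply_apply, smul_sub, smul_smul,
          inv_mul_cancel₀ hμ, one_smul]
        abel
      rw [h1]
      exact M.neg_mem (M.smul_mem _ (hM0 (h.i0 hw0)))
    have huM : u ∈ M := by
      have h1 : u = -(B.symm zR - μ⁻¹ • zR) - (B.symm m - μ⁻¹ • m) := by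
        have h2 : z1 = v - zR - m := by rw [hzm, hzz]; abel
        rw [hu, h2, map_sub, map_sub, smul_sub, smul_sub, hsv]; abel
      rw [h1]
      exact M.sub_mem (M.neg_mem huR) (M.sub_mem (hMBi _ hm) (M.smul_mem _ hm))
    have hul : u ∈ sp x {k : Fin n | (k : ℕ) ≤ l0} := by
      refine Submodule.sub_mem _ ?_ (Submodule.smul_mem _ _ ?_)
      · refine sp_map x (B.symm : V →ₗ[F] V) ?_ hz1
        rintro i ⟨_, hi⟩ k hk
        have hk' : ¬ (k : ℕ) ≤ l0 := hk
        exact h.hBi k i (by omega)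
      · refine sp_mono x ?_ hz1
        rintro i ⟨_, hi⟩
        show (i : ℕ) ≤ l0
        omega
    set κ' : F := x.repr u l0 / x.repr m1 l0 with hκ'
    have hu' : u - κ' • m1 ∈ sp x J0 := by
      refine hMD _ (M.sub_mem huM (M.smul_mem _ hm1M)) ?_
      intro i hi
      rw [map_sub, map_smul, Finsupp.sub_apply, Finsupp.smul_apply, smul_eq_mul]
      by_cases hil : i = l0
      · subst hil; rw [hκ']; field_simp; ring
      · have h1 : i ∉ DS J0 a (l0 + 1) := by
          rintro (h' | ⟨h', h''⟩)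
          · exact hi (Or.inl h')
          · apply hi
            right
            refine ⟨h', ?_⟩
            have : (i : ℕ) ≠ l0 := fun h => hil (Fin.ext h)
            omega
        rw [hm1 i h1, mul_zero, sub_zero]
        by_cases h2 : (i : ℕ) ≤ l0
        · have h3 : i ∉ J1 := by
            intro h3
            rcases (h.hJ i).1 h3 with h4 | h4
            · exact hi (Or.inl h4)
            · exact h1 (Or.inr ⟨h4.1, by omega⟩)
          exact hM1 huM i h3
        · exact hul i h2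
    have hκ0 : κ' = 0 := by
      by_contra hκ1
      refine hv0n (lemY (B.symm : V →ₗ[F] V) hQμ (M' := sp x J0) (fun w hw => h.i0 hw) (m := m1)
        (v := v0) (z := z1) (w' := u - κ' • m1) (κ := κ') ?_ ?_ hu' hκ1 hsv0)
      · intro U hU0 hU1 hU2
        exact hgenM U hU0 hU1 hU2 hv0M
      · simp only [LinearEquiv.coe_coe]
        rw [← hu]; abel
    have hz1' : z1 ∈ sp x (Z1 \ E) := by
      intro i hi
      by_cases h1 : i ∈ Z1
      · have h2 : i ∈ E := by
          by_contra h2; exact hi ⟨h1, h2⟩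
        have h1b : (i : ℕ) < l0 := h1.2
        rcases h2 with h2 | h2
        · have h3 := repr_map_single x (B.symm : V →ₗ[F] V) hz1 (k := l0) i (by
            rintro j ⟨_, hj⟩ hji
            have : (j : ℕ) ≠ i := fun h => hji (Fin.ext h)
            exact h.hBi l0 j (by omega))
          have h4 : x.repr (B.symm z1) l0 = 0 := by
            have h5 : x.repr u l0 = 0 := by
              rcases div_eq_zero_iff.1 hκ0 with h6 | h6
              · exact h6
              · exact absurd h6 hm1'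
            rw [hu, map_sub, map_smul, Finsupp.sub_apply, Finsupp.smul_apply, smul_eq_mul,
              hz1 l0 (by rintro ⟨_, h6⟩; exact lt_irrefl _ h6), mul_zero, sub_zero] at h5
            exact h5
          simp only [LinearEquiv.coe_coe] at h3
          rw [h4] at h3
          rcases mul_eq_zero.1 h3.symm with h6 | h6
          · exact h6
          · exact absurd h6 h2.2
        · exfalso; omega
      · exact hz1 i h1
    rw [hzm, hzz]
    refine Submodule.add_mem _ (Submodule.mem_sup_left (Submodule.add_mem _ ?_ ?_))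
      (Submodule.mem_sup_right hm)
    · exact sp_mono x (S := Z1 \ E) (T := Zs \ E) (fun i hi => ⟨hi.1.1, hi.2⟩) hz1'
    · exact sp_mono x (S := ZR \ E) (T := Zs \ E) (fun i hi => ⟨hi.1.1, hi.2⟩) hzR'
  · -- δ (B v) = B' (δ v)
    intro v hv hBv
    obtain ⟨z, hz, m, hm, rfl⟩ := Submodule.mem_sup.1 hv
    obtain ⟨z1, hz1, zR, hzR, rfl⟩ := sp_union x hsplitE hz
    have h1 : B z1 ∈ P := by
      refine hPB _ (Submodule.mem_sup_left ?_)
      exact sp_mono x (fun i hi => hi.1.2) hz1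
    obtain ⟨p, hp, my, hmy, hpy⟩ := Submodule.mem_sup.1 h1
    obtain ⟨y1, hy1, j, hj, rfl⟩ := sp_union x hL' hp
    obtain ⟨r1, hr1, r0, hr0, hr⟩ := sp_union x hR' (hR zR hzR)
    obtain ⟨z', hz', m', hm', hzm'⟩ := Submodule.mem_sup.1 hBv
    have h2 : y1 + r1 = z' := by
      have h3 : y1 + r1 - z' ∈ M := by
        have h4 : y1 + r1 - z' = m' - (j + my + r0 + B m) := by
          have h5 : z' + m' = (y1 + j + my) + (r1 + r0) + B m := by
            rw [hzm', map_add, map_add, ← hpy, hr]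
          have h6 : z' = (y1 + j + my) + (r1 + r0) + B m - m' := by rw [← h5]; abel
          rw [h6]; abel
        rw [h4]
        exact M.sub_mem hm' (M.add_mem (M.add_mem (M.add_mem (hM0 hj) hmy) (hM0 hr0)) (hMB m hm))
      have h4 := hZM (y1 + r1 - z') ((sp x Zs).sub_mem
        ((sp x Zs).add_mem (hZ1s hy1) (hZRs hr1)) (sp_mono x (fun i hi => hi.1) hz')) h3
      exact sub_eq_zero.1 h4
    have hy1' : y1 ∈ sp x (Z1 \ E) := by
      intro i hi
      by_cases h3 : i ∈ Z1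
      · have h4 : i ∈ E := by
          by_contra h2; exact hi ⟨h3, h2⟩
        have h5 : x.repr r1 i = 0 := hr1 i (by
          rintro ⟨_, h6⟩
          have := h3.2
          omega)
        have h6 : x.repr z' i = 0 := hz' i (fun h7 => h7.2 h4)
        rw [← h2, map_add, Finsupp.add_apply, h5, add_zero] at h6
        exact h6
      · exact hy1 i h3
    have h3 : B.symm (j + my) ∈ sp x {k : Fin n | (k : ℕ) < l0} := by
      have h4 : B.symm (j + my) = z1 - B.symm y1 := by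
        have h5 : B z1 = y1 + (j + my) := by rw [← hpy]; abel
        have h6 : z1 = B.symm y1 + B.symm (j + my) := by
          rw [← map_add, ← h5, LinearEquiv.symm_apply_apply]
        rw [eq_sub_iff_add_eq, add_comm]; exact h6.symm
      rw [h4]
      exact Submodule.sub_mem _ (sp_mono x (fun i hi => hi.1.2) hz1) (hL y1 hy1')
    have hjm : j + my ∈ M := M.add_mem (hM0 hj) hmy
    have h4 : B.symm (j + my) ∈ sp x J0 := by
      refine hMD _ (hMBi _ hjm) ?_
      refine sp_mono x ?_ (sp_inter x h3 (hM1 (hMBi _ hjm)))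
      rintro i ⟨hi1, hi2⟩
      have hi1' : (i : ℕ) < l0 := hi1
      rcases (h.hJ i).1 hi2 with h5 | h5
      · exact Or.inl h5
      · exact Or.inr ⟨h5.1, hi1'⟩
    have h5 : j + my ∈ sp x J0 := by
      have := h.hI0 _ h4
      rwa [LinearEquiv.apply_symm_apply] at this
    obtain ⟨cm, hcm⟩ := (hM m).1 hm
    have e1 : δ (B z1) = 0 := by
      have h6 : B z1 = y1 + (j + my) := by rw [← hpy]; abel
      rw [h6, map_add, hδZ _ (hZ1s hy1), hδ0 _ h5, add_zero]
    have e2 : δ (B zR) = 0 := by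
      rw [hr, map_add, hδZ _ (hZRs hr1), hδ0 _ hr0, add_zero]
    have e3 : δ z1 = 0 := hδZ z1 (hZ1s (sp_mono x (fun i hi => hi.1) hz1))
    have e4 : δ zR = 0 := hδZ zR (hZRs (sp_mono x (fun i hi => hi.1) hzR))
    have e5 : δ (z1 + zR + m) = cm := by
      rw [map_add, map_add, e3, e4, hδΓ _ _ hcm]; simp
    have e6 : δ (B (z1 + zR + m)) = B' cm := by
      rw [map_add, map_add, map_add, map_add, e1, e2, hδΓ _ _ (hΓ.ib _ hcm)]; simp
    rw [e5, e6]
  · -- B' is cyclic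
    refine ⟨δ m1, ?_⟩
    intro U hU1 hU
    obtain ⟨cm, hcm⟩ := (hM m1).1 hm1M
    rw [hδΓ _ _ hcm] at hU1
    have h1 : M ≤ (Γ ⊓ U.comap (LinearMap.snd F V C)).map (LinearMap.fst F V C) := by
      refine hgenM _ ?_ ?_ ?_
      · intro w hw
        exact ⟨(w, 0), ⟨hΓ0 w hw, by simp⟩, rfl⟩
      · exact ⟨(m1, cm), ⟨hcm, hU1⟩, rfl⟩
      · rintro _ ⟨⟨u, c⟩, ⟨hu1, hu2⟩, rfl⟩
        exact ⟨(B.symm u, B'.symm c), ⟨hΓ.isymm hu1, hU _ hu2⟩, rfl⟩
    rw [eq_top_iff]
    intro c _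
    obtain ⟨v, hv⟩ := hΓ.on c
    obtain ⟨⟨u, c'⟩, ⟨hu1, hu2⟩, hu3⟩ := h1 ((hM v).2 ⟨c, hv⟩)
    have hu4 : u = v := hu3
    subst hu4
    rw [hΓ.uniq hv hu1]
    exact hu2

end Pool.Agent.Helper82.CF
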