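import Pool.Agent.Helper82.CF.Assemble
import Pool.Agent.Helper31.IPS.Lists

/-!
The composition factors of an inverting pair are inverting pairs; completely reducible pairs.
-/

namespace Pool.Agent.Helper82.CF

open Module
open Pool.Agent.Results.MP_d2f54f_al.Irreducible (IsInvertingPair IsIrreducible)

universe u v w

variable {F : Type u} [Field F] {V : Type v} [AddCommGroup V] [Module F V]
  {C : Type w} [AddCommGroup C] [Module F C] {n : ℕ}

theorem diag_of_matrix {T : V →ₗ[F] V} {e : Basis (Fin n) F V}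
    (h : ∀ i j : Fin n, i ≠ j → LinearMap.toMatrix e e T i j = 0) (j : Fin n) :
    T (e j) = e.repr (T (e j)) j • e j := by
  apply e.repr.injective
  ext i
  by_cases hij : i = j
  · subst hij; simp
  · have := h i j hij
    rw [LinearMap.toMatrix_apply] at this
    rw [this]; simp [Ne.symm hij]

theorem toEX {K Ks : V ≃ₗ[F] V} (h : IsInvertingPair n K Ks) :
    ∃ (e x : Basis (Fin n) F V) (θ lam : Fin n → F), EX K.symm Ks e x θ lam := by
  obtain ⟨⟨e, h1, h2, h3⟩, ⟨x, h4, h5, h6⟩⟩ := h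
  refine ⟨e, x, fun i => e.repr (Ks (e i)) i, fun i => (x.repr (K (x i)) i)⁻¹, ?_, ?_, ?_, ?_, ?_, ?_⟩
  · intro i
    exact diag_of_matrix (T := (Ks : V →ₗ[F] V)) h3 i
  · intro i j hij
    have := h2 i j hij
    rwa [LinearMap.toMatrix_apply] at this
  · intro i j hij
    have := h1 i j hij
    rwa [LinearMap.toMatrix_apply] at this
  · exact diag_symm (T := K) (θ := fun i => x.repr (K (x i)) i)
      (fun i => diag_of_matrix (T := (K : V →ₗ[F] V)) h6 i)
  · intro i j hij
    have := h4 i j hij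
    rwa [LinearMap.toMatrix_apply] at this
  · intro i j hij
    have := h5 i j hij
    rwa [LinearMap.toMatrix_apply] at this

theorem matrix_of_diag {T : V →ₗ[F] V} {e : Basis (Fin n) F V} {θ : Fin n → F}
    (h : ∀ i, T (e i) = θ i • e i) (i j : Fin n) (hij : i ≠ j) :
    LinearMap.toMatrix e e T i j = 0 := by
  rw [LinearMap.toMatrix_apply, h, map_smul]
  simp [Ne.symm hij]

theorem ofC1 {K Ks : C ≃ₗ[F] C} (h1 : C1 K.symm Ks) (h2 : C1 Ks.symm K.symm) :
    IsInvertingPair (finrank F C) K Ks := by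
  obtain ⟨m, t, θ, a1, a2, a3⟩ := h1
  obtain ⟨m', y, μ, b1, b2, b3⟩ := h2
  have hm : finrank F C = m := by
    have := Module.finrank_eq_card_basis t
    simpa using this
  have hm' : finrank F C = m' := by
    have := Module.finrank_eq_card_basis y
    simpa using this
  subst hm
  subst hm'
  refine ⟨⟨t, ?_, ?_, ?_⟩, ⟨y, ?_, ?_, ?_⟩⟩
  · intro i j hij
    rw [LinearMap.toMatrix_apply]
    exact a3 i j hij
  · intro i j hij
    rw [LinearMap.toMatrix_apply]
    exact a2 i j hij
  · exact matrix_of_diag (T := (Ks : C →ₗ[F] C)) a1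
  · intro i j hij
    rw [LinearMap.toMatrix_apply]
    exact b3 i j hij
  · intro i j hij
    rw [LinearMap.toMatrix_apply]
    exact b2 i j hij
  · have := diag_symm (T := K.symm) b1
    exact matrix_of_diag (T := (K : C →ₗ[F] C)) this

/-- Every irreducible subquotient of an inverting pair is an inverting pair. -/
theorem comp_factor {K Ks : V ≃ₗ[F] V} {K' Ks' : C ≃ₗ[F] C} (h : IsInvertingPair n K Ks)
    (hirr : IsIrreducible K' Ks') {W : Submodule F V} (p : W →ₗ[F] C)
    (hp : Function.Surjective p)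
    (hK : ∀ w : W, ∃ hw : K w ∈ W, p ⟨K w, hw⟩ = K' (p w))
    (hKs : ∀ w : W, ∃ hw : Ks w ∈ W, p ⟨Ks w, hw⟩ = Ks' (p w)) :
    IsInvertingPair (finrank F C) K' Ks' := by
  obtain ⟨e, x, θ, lam, hEX⟩ := toEX h
  have : FiniteDimensional F V := e.finiteDimensional_of_finite
  have : FiniteDimensional F C := Module.Finite.of_surjective p hp
  have hirr' : Irr K' Ks' := by
    refine ⟨?_, hirr.2⟩
    have := hirr.1
    exact exists_ne 0
  let Γ : Submodule F (V × C) := LinearMap.range (W.subtype.prod p)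
  have hΓ : ∀ v c, (v, c) ∈ Γ ↔ ∃ hv : v ∈ W, p ⟨v, hv⟩ = c := by
    intro v c
    constructor
    · rintro ⟨w, hw⟩
      have h1 : (w : V) = v := congrArg Prod.fst hw
      have h2 : p w = c := congrArg Prod.snd hw
      subst h1
      exact ⟨w.2, h2⟩
    · rintro ⟨hv, rfl⟩
      exact ⟨⟨v, hv⟩, rfl⟩
  have hocc0 : Occ K Ks K' Ks' Γ := by
    refine ⟨?_, ?_, ?_, ?_⟩
    · rintro ⟨v, c⟩ hy
      obtain ⟨hv, rfl⟩ := (hΓ v c).1 hy
      obtain ⟨hw, hw'⟩ := hK ⟨v, hv⟩
      exact (hΓ _ _).2 ⟨hw, hw'⟩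
    · rintro ⟨v, c⟩ hy
      obtain ⟨hv, rfl⟩ := (hΓ v c).1 hy
      obtain ⟨hw, hw'⟩ := hKs ⟨v, hv⟩
      exact (hΓ _ _).2 ⟨hw, hw'⟩
    · intro c hc
      obtain ⟨hv, rfl⟩ := (hΓ 0 c).1 hc
      have : (⟨0, hv⟩ : W) = 0 := rfl
      rw [this, map_zero]
    · intro c
      obtain ⟨w, rfl⟩ := hp c
      exact ⟨w, (hΓ _ _).2 ⟨w.2, rfl⟩⟩
  have hocc : Occ K.symm Ks K'.symm Ks' Γ := hocc0.mirror
  have hirr1 : Irr K'.symm Ks' := hirr'.mirror
  have c1 : C1 K'.symm Ks' := cond1 hEX hirr1 ⟨Γ, hocc⟩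
  have c2 : C1 Ks'.symm K'.symm := cond1 hEX.tau hirr1.tau ⟨Γ, hocc.tau⟩
  exact ofC1 c1 c2

/-- Block diagonal matrices. -/
theorem block {r : ℕ} {W : Fin r → Submodule F V} (hW : DirectSum.IsInternal W) {d : Fin r → ℕ}
    (e : ∀ i, Basis (Fin (d i)) F (W i)) (T : V →ₗ[F] V) (Ti : ∀ i, W i →ₗ[F] W i)
    (hT : ∀ i (w : W i), ((Ti i w : W i) : V) = T w) (R : ℕ → ℕ → Prop)
    (hR : ∀ s a b, R (s + a) (s + b) → R a b)
    (h : ∀ i (a b : Fin (d i)), R a b → LinearMap.toMatrix (e i) (e i) (Ti i) a b = 0)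
    (a b : Fin (∑ i, d i)) (hab : R a b) :
    LinearMap.toMatrix ((hW.collectedBasis e).reindex finSigmaFinEquiv)
      ((hW.collectedBasis e).reindex finSigmaFinEquiv) T a b = 0 := by
  obtain ⟨⟨i, j⟩, rfl⟩ := finSigmaFinEquiv.surjective a
  obtain ⟨⟨i', j'⟩, rfl⟩ := finSigmaFinEquiv.surjective b
  rw [LinearMap.toMatrix_apply, Basis.reindex_apply, Basis.repr_reindex_apply,
    Equiv.symm_apply_apply, Equiv.symm_apply_apply, DirectSum.IsInternal.collectedBasis_coe]
  change (hW.collectedBasis e).repr (T (e i' j' : V)) ⟨i, j⟩ = 0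
  rw [← hT]
  by_cases hi : i' = i
  · subst hi
    rw [DirectSum.IsInternal.collectedBasis_repr_of_mem hW e (Submodule.coe_mem _)]
    have h1 := h i' j j' (by
      rw [finSigmaFinEquiv_apply, finSigmaFinEquiv_apply] at hab
      exact hR _ _ _ hab)
    rw [LinearMap.toMatrix_apply] at h1
    exact h1
  · exact DirectSum.IsInternal.collectedBasis_repr_of_mem_ne hW e hi (Submodule.coe_mem _)

/-- A direct sum of inverting pairs is an inverting pair. -/
theorem direct_sum {r : ℕ} {W : Fin r → Submodule F V} (hW : DirectSum.IsInternal W)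
    {d : Fin r → ℕ} {K Ks : V ≃ₗ[F] V} {k ks : ∀ i, W i ≃ₗ[F] W i}
    (hk : ∀ i (w : W i), ((k i w : W i) : V) = K w)
    (hks : ∀ i (w : W i), ((ks i w : W i) : V) = Ks w)
    (h : ∀ i, IsInvertingPair (d i) (k i) (ks i)) : IsInvertingPair (∑ i, d i) K Ks := by
  have hk' : ∀ i (w : W i), (((k i).symm w : W i) : V) = K.symm w := by
    intro i w
    rw [LinearEquiv.eq_symm_apply, ← hk, LinearEquiv.apply_symm_apply]
  have hks' : ∀ i (w : W i), (((ks i).symm w : W i) : V) = Ks.symm w := by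
    intro i w
    rw [LinearEquiv.eq_symm_apply, ← hks, LinearEquiv.apply_symm_apply]
  choose e h1 h2 h3 using fun i => (h i).1
  choose x h4 h5 h6 using fun i => (h i).2
  refine ⟨⟨(hW.collectedBasis e).reindex finSigmaFinEquiv, ?_, ?_, ?_⟩,
    ⟨(hW.collectedBasis x).reindex finSigmaFinEquiv, ?_, ?_, ?_⟩⟩
  · exact block hW e (K : V →ₗ[F] V) (fun i => (k i : W i →ₗ[F] W i)) hk
      (fun a b => a + 1 < b) (fun s a b hab => by omega) h1
  · exact block hW e (K.symm : V →ₗ[F] V) (fun i => ((k i).symm : W i →ₗ[F] W i)) hk'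
      (fun a b => b + 1 < a) (fun s a b hab => by omega) h2
  · intro a b hab
    exact block hW e (Ks : V →ₗ[F] V) (fun i => (ks i : W i →ₗ[F] W i)) hks
      (fun a b => a ≠ b) (fun s a b hab => by omega)
      (fun i a b hab => h3 i a b (fun h => hab (congrArg _ h))) a b
      (fun h => hab (Fin.ext h))
  · exact block hW x (Ks : V →ₗ[F] V) (fun i => (ks i : W i →ₗ[F] W i)) hks
      (fun a b => a + 1 < b) (fun s a b hab => by omega) h4
  · exact block hW x (Ks.symm : V →ₗ[F] V) (fun i => ((ks i).symm : W i →ₗ[F] W i)) hks'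
      (fun a b => b + 1 < a) (fun s a b hab => by omega) h5
  · intro a b hab
    exact block hW x (K : V →ₗ[F] V) (fun i => (k i : W i →ₗ[F] W i)) hk
      (fun a b => a ≠ b) (fun s a b hab => by omega)
      (fun i a b hab => h6 i a b (fun h => hab (congrArg _ h))) a b
      (fun h => hab (Fin.ext h))

/-- Completely reducible pairs. -/
theorem completely_reducible {r : ℕ} {W : Fin r → Submodule F V} (hW : DirectSum.IsInternal W)
    {K Ks : V ≃ₗ[F] V} {k ks : ∀ i, W i ≃ₗ[F] W i}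
    (hk : ∀ i (w : W i), ((k i w : W i) : V) = K w)
    (hks : ∀ i (w : W i), ((ks i w : W i) : V) = Ks w)
    (hirr : ∀ i, IsIrreducible (k i) (ks i)) [FiniteDimensional F V] :
    IsInvertingPair (finrank F V) K Ks ↔
      ∀ i, IsInvertingPair (finrank F (W i)) (k i) (ks i) := by
  constructor
  · intro h i
    refine comp_factor h (hirr i) (W := W i) LinearMap.id (fun c => ⟨c, rfl⟩) ?_ ?_
    · intro w
      exact ⟨by rw [← hk]; exact Submodule.coe_mem _, Subtype.ext (hk i w).symm⟩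
    · intro w
      exact ⟨by rw [← hks]; exact Submodule.coe_mem _, Subtype.ext (hks i w).symm⟩
  · intro h
    have h1 := direct_sum hW hk hks h
    have h2 : finrank F V = ∑ i, finrank F (W i) := by
      have b := (hW.collectedBasis (fun i => Module.finBasis F (W i))).reindex finSigmaFinEquiv
      have := Module.finrank_eq_card_basis b
      simpa using this
    rw [h2]; exact h1

end Pool.Agent.Helper82.CF
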