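import Pool.Agent.Helper82.CF.CoreX2

/-!
Lemma X.
-/

namespace Pool.Agent.Helper82.CF

open Module

universe u v w

variable {F : Type u} [Field F] {V : Type v} [AddCommGroup V] [Module F V]
  {C : Type w} [AddCommGroup C] [Module F C] {n : ℕ}

/-- The image of an invariant relation is `0` or everything. -/
theorem Irr.snd {A B : V ≃ₗ[F] V} {A' B' : C ≃ₗ[F] C} (hirr : Irr A' B')
    {Γ : Submodule F (V × C)} (ia : ∀ x ∈ Γ, (A x.1, A' x.2) ∈ Γ)
    (ib : ∀ x ∈ Γ, (B x.1, B' x.2) ∈ Γ) :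
    (∀ x ∈ Γ, x.2 = 0) ∨ (∀ c : C, ∃ v : V, (v, c) ∈ Γ) := by
  rcases hirr.2 (Γ.map (LinearMap.snd F V C))
    (by rintro _ ⟨y, hy, rfl⟩; exact ⟨_, ia y hy, rfl⟩)
    (by rintro _ ⟨y, hy, rfl⟩; exact ⟨_, ib y hy, rfl⟩) with h | h
  · left
    intro y hy
    have : y.2 ∈ Γ.map (LinearMap.snd F V C) := ⟨y, hy, rfl⟩
    rw [h] at this
    simpa using this
  · right
    intro c
    have : c ∈ Γ.map (LinearMap.snd F V C) := by rw [h]; trivial
    obtain ⟨⟨v, c'⟩, hy, hyc⟩ := this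
    have hc : c' = c := hyc
    subst hc
    exact ⟨v, hy⟩

/-- Kernel alternative: for an invariant relation onto an irreducible module, the values over an
invariant subspace are `0` only or everything. -/
theorem Irr.over {A B : V ≃ₗ[F] V} {A' B' : C ≃ₗ[F] C} (hirr : Irr A' B')
    {Γ : Submodule F (V × C)} (ia : ∀ x ∈ Γ, (A x.1, A' x.2) ∈ Γ)
    (ib : ∀ x ∈ Γ, (B x.1, B' x.2) ∈ Γ) {W : Submodule F V} (wa : ∀ w ∈ W, A w ∈ W)
    (wb : ∀ w ∈ W, B w ∈ W) :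
    (∀ x ∈ Γ, x.1 ∈ W → x.2 = 0) ∨ (∀ c : C, ∃ v ∈ W, (v, c) ∈ Γ) := by
  rcases hirr.snd (A := A) (B := B) (Γ := Γ ⊓ W.comap (LinearMap.fst F V C))
    (fun y hy => ⟨ia y hy.1, wa _ hy.2⟩) (fun y hy => ⟨ib y hy.1, wb _ hy.2⟩) with h | h
  · left
    intro y hy hyW
    exact h y ⟨hy, hyW⟩
  · right
    intro c
    obtain ⟨v, hv⟩ := h c
    exact ⟨v, hv.2, hv.1⟩

/-- Adding a subspace where the values vanish. -/
theorem Occ.add {A B : V ≃ₗ[F] V} {A' B' : C ≃ₗ[F] C} {Γ : Submodule F (V × C)}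
    (ia : ∀ x ∈ Γ, (A x.1, A' x.2) ∈ Γ) (ib : ∀ x ∈ Γ, (B x.1, B' x.2) ∈ Γ)
    (on : ∀ c : C, ∃ v : V, (v, c) ∈ Γ) {W : Submodule F V} (wa : ∀ w ∈ W, A w ∈ W)
    (wb : ∀ w ∈ W, B w ∈ W) (hW : ∀ x ∈ Γ, x.1 ∈ W → x.2 = 0) :
    Occ A B A' B' (Γ ⊔ W.prod ⊥) := by
  have hm : ∀ v c, (v, c) ∈ Γ ⊔ W.prod (⊥ : Submodule F C) ↔ ∃ w ∈ W, (v - w, c) ∈ Γ := by
    intro v c
    rw [Submodule.mem_sup]
    constructor
    · rintro ⟨⟨y1, y2⟩, hy, ⟨z1, z2⟩, hz, hyz⟩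
      have hz' : z1 ∈ W ∧ z2 = 0 := by simpa [Submodule.mem_prod] using hz
      simp only [Prod.mk_add_mk, Prod.mk.injEq] at hyz
      refine ⟨z1, hz'.1, ?_⟩
      have e1 : v - z1 = y1 := by rw [← hyz.1]; abel
      have e2 : c = y2 := by rw [← hyz.2, hz'.2, add_zero]
      rw [e1, e2]; exact hy
    · rintro ⟨z, hz, hzc⟩
      exact ⟨(v - z, c), hzc, (z, 0), by simpa [Submodule.mem_prod] using hz, by simp⟩
  refine ⟨?_, ?_, ?_, ?_⟩
  · rintro ⟨v, c⟩ hy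
    obtain ⟨w, hw, hwc⟩ := (hm v c).1 hy
    refine (hm _ _).2 ⟨A w, wa w hw, ?_⟩
    have := ia _ hwc
    simpa using this
  · rintro ⟨v, c⟩ hy
    obtain ⟨w, hw, hwc⟩ := (hm v c).1 hy
    refine (hm _ _).2 ⟨B w, wb w hw, ?_⟩
    have := ib _ hwc
    simpa using this
  · intro c hc
    obtain ⟨w, hw, hwc⟩ := (hm _ _).1 hc
    rw [zero_sub] at hwc
    exact hW _ hwc (W.neg_mem hw)
  · intro c
    obtain ⟨v, hv⟩ := on c
    exact ⟨v, (hm _ _).2 ⟨0, W.zero_mem, by simpa using hv⟩⟩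

theorem lemX [FiniteDimensional F V] [FiniteDimensional F C]
    {A B : V ≃ₗ[F] V} {A' B' : C ≃ₗ[F] C} {x : Basis (Fin n) F V} {lam : Fin n → F}
    (hx : ∀ i, A (x i) = lam i • x i)
    (hB : ∀ i j : Fin n, (i : ℕ) + 1 < j → x.repr (B (x j)) i = 0)
    (hBi : ∀ i j : Fin n, (j : ℕ) + 1 < i → x.repr (B.symm (x j)) i = 0)
    {Γ : Submodule F (V × C)} (hΓ : Occ A B A' B' Γ) (hirr : Irr A' B')
    (hP : ∀ μ, ∃ P, IsProj (B : V →ₗ[F] V) μ P)
    (hPs : ∀ μ, ∃ P, IsProj (B.symm : V →ₗ[F] V) μ P) :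
    ∃ (δ : V →ₗ[F] C) (H : Submodule F V),
      (∀ v, δ (A v) = A' (δ v)) ∧ (∀ v ∈ H, A v ∈ H) ∧
      (∀ (μ : F) (c : C), c ≠ 0 → B' c = μ • c → ∀ v, B v = μ • v → v ∈ H) ∧
      (∀ v ∈ H, B v ∈ H → δ (B v) = B' (δ v)) ∧
      (∃ v c, (v, c) ∈ Γ ∧ c ≠ 0 ∧ δ v = c) ∧
      (∃ c0 : C, ∀ U : Submodule F C, c0 ∈ U → (∀ u ∈ U, B'.symm u ∈ U) → U = ⊤) := by
  classical
  -- J1
  let T : Finset (Finset (Fin n)) := Finset.univ.filter fun J =>
    (∀ v ∈ sp x (J : Set (Fin n)), B v ∈ sp x (J : Set (Fin n))) ∧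
    ∃ y ∈ Γ, y.1 ∈ sp x (J : Set (Fin n)) ∧ y.2 ≠ 0
  have hT : T.Nonempty := by
    refine ⟨Finset.univ, ?_⟩
    simp only [T, Finset.mem_filter, Finset.mem_univ, true_and]
    refine ⟨fun v _ i hi => absurd (by simp) hi, ?_⟩
    obtain ⟨c, hc⟩ := hirr.1
    obtain ⟨v, hv⟩ := hΓ.on c
    exact ⟨(v, c), hv, fun i hi => absurd (by simp) hi, hc⟩
  obtain ⟨J1, hJ1T, hJ1min⟩ := Finset.exists_min_image T Finset.card hT
  have hJ1 : (∀ v ∈ sp x (J1 : Set (Fin n)), B v ∈ sp x (J1 : Set (Fin n))) ∧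
    ∃ y ∈ Γ, y.1 ∈ sp x (J1 : Set (Fin n)) ∧ y.2 ≠ 0 := by
    simpa [T] using hJ1T
  -- J0
  let T0 : Finset (Finset (Fin n)) := Finset.univ.filter fun J =>
    (∀ v ∈ sp x (J : Set (Fin n)), B v ∈ sp x (J : Set (Fin n))) ∧ J ⊂ J1
  have hJ1ne : J1.Nonempty := by
    rw [Finset.nonempty_iff_ne_empty]
    rintro rfl
    obtain ⟨⟨v, c⟩, hy, hy1, hy2⟩ := hJ1.2
    have hv : v = 0 := sp_empty x (by simpa using hy1)
    subst hv
    exact hy2 (hΓ.fn c hy)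
  have hT0 : T0.Nonempty := by
    refine ⟨∅, ?_⟩
    simp only [T0, Finset.mem_filter, Finset.mem_univ, true_and]
    refine ⟨?_, Finset.empty_ssubset.2 hJ1ne⟩
    intro v hv
    have : v = 0 := sp_empty x (by simpa using hv)
    subst this
    rw [map_zero]; exact Submodule.zero_mem _
  obtain ⟨J0, hJ0T, hJ0max⟩ := Finset.exists_max_image T0 Finset.card hT0
  have hJ0 : (∀ v ∈ sp x (J0 : Set (Fin n)), B v ∈ sp x (J0 : Set (Fin n))) ∧ J0 ⊂ J1 := by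
    simpa [T0] using hJ0T
  have hnone : ∀ S : Finset (Fin n),
      (∀ v ∈ sp x (S : Set (Fin n)), B v ∈ sp x (S : Set (Fin n))) → J0 ⊆ S → S ⊆ J1 →
      S = J0 ∨ S = J1 := by
    intro S hS h1 h2
    by_contra hcon
    push Not at hcon
    have h3 : S ∈ T0 := by
      simp only [T0, Finset.mem_filter, Finset.mem_univ, true_and]
      exact ⟨hS, h2.ssubset_of_ne hcon.2⟩
    have h4 := hJ0max S h3
    have h5 := Finset.card_lt_card (h1.ssubset_of_ne (Ne.symm hcon.1))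
    omega
  -- the difference
  let D := J1 \ J0
  have hD : D.Nonempty := by
    obtain ⟨i, hi, hi'⟩ := Finset.exists_of_ssubset hJ0.2
    exact ⟨i, Finset.mem_sdiff.2 ⟨hi, hi'⟩⟩
  have haD := D.min'_mem hD
  have hbD := D.max'_mem hD
  set a := D.min' hD with ha
  set b := D.max' hD with hb
  have haD' := Finset.mem_sdiff.1 haD
  have hbD' := Finset.mem_sdiff.1 hbD
  have hDa : ∀ i ∈ D, (a : ℕ) ≤ i := fun i hi => D.min'_le i hi
  have hDb : ∀ i ∈ D, (i : ℕ) ≤ b := fun i hi => D.le_max' i hi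
  have hi1 : ∀ i ∈ J1, B.symm (x i) ∈ sp x (J1 : Set (Fin n)) := fun i hi =>
    symm_mem B hJ1.1 ((basis_mem_sp x).2 hi)
  have hi0 : ∀ i ∈ J0, B.symm (x i) ∈ sp x (J0 : Set (Fin n)) := fun i hi =>
    symm_mem B hJ0.1 ((basis_mem_sp x).2 hi)
  have hup : ∀ l : ℕ, (a : ℕ) ≤ l → l < b → ∃ (h1 : l < n) (h2 : l + 1 < n),
      (⟨l, h1⟩ : Fin n) ∈ D ∧ (⟨l + 1, h2⟩ : Fin n) ∈ D ∧
      x.repr (B.symm (x ⟨l, h1⟩)) ⟨l + 1, h2⟩ ≠ 0 := by
    intro l hal hlb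
    have hbn := b.2
    refine ⟨by omega, by omega, ?_⟩
    by_contra hcon
    let S : Finset (Fin n) := J0 ∪ D.filter (fun i => (i : ℕ) ≤ l)
    have hS : ∀ v ∈ sp x (S : Set (Fin n)), B.symm v ∈ sp x (S : Set (Fin n)) := by
      intro v hv
      refine sp_map x (B.symm : V →ₗ[F] V) ?_ hv
      intro i hi
      have hi' : i ∈ J0 ∨ (i ∈ D ∧ (i : ℕ) ≤ l) := by simpa [S] using hi
      rcases hi' with hi' | ⟨hi', hil⟩
      · exact sp_mono x (fun j hj => by simp [S]; left; exact hj) (hi0 i hi')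
      · intro k hk
        have hk' : k ∉ J0 ∧ (k ∈ D → ¬ (k : ℕ) ≤ l) := by
          have : k ∉ S := hk
          simpa [S] using this
        by_cases hkD : k ∈ D
        · have hkl := hk'.2 hkD
          by_cases h1 : (k : ℕ) = l + 1 ∧ (i : ℕ) = l
          · by_contra h2
            apply hcon
            have e1 : (⟨l, by omega⟩ : Fin n) = i := Fin.ext h1.2.symm
            have e2 : (⟨l + 1, by omega⟩ : Fin n) = k := Fin.ext h1.1.symm
            rw [e1, e2]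
            exact ⟨hi', hkD, h2⟩
          · exact hBi k i (by omega)
        · have hk1 : k ∉ J1 := fun h => hkD (Finset.mem_sdiff.2 ⟨h, hk'.1⟩)
          exact hi1 i (Finset.mem_sdiff.1 hi').1 k hk1
    have hS' : ∀ v ∈ sp x (S : Set (Fin n)), B v ∈ sp x (S : Set (Fin n)) := fun v hv =>
      mem_of_symm B hS hv
    rcases hnone S hS' Finset.subset_union_left (Finset.union_subset hJ0.2.1
      ((Finset.filter_subset _ _).trans Finset.sdiff_subset)) with h1 | h1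
    · have : a ∈ S := Finset.mem_union_right _ (Finset.mem_filter.2 ⟨haD, hal⟩)
      rw [h1] at this
      exact haD'.2 this
    · have : b ∈ S := by rw [h1]; exact hbD'.1
      rcases Finset.mem_union.1 this with h2 | h2
      · exact hbD'.2 h2
      · have := (Finset.mem_filter.1 h2).2
        omega
  have hdown : ∀ (l k : Fin n), (k : ℕ) = l + 1 → (a : ℕ) ≤ l → (k : ℕ) ≤ b →
      x.repr (B (x k)) l ≠ 0 := by
    intro l k hkl hal hkb hcon
    let S : Finset (Fin n) := J0 ∪ D.filter (fun i => (l : ℕ) < i)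
    have hS : ∀ v ∈ sp x (S : Set (Fin n)), B v ∈ sp x (S : Set (Fin n)) := by
      intro v hv
      refine sp_map x (B : V →ₗ[F] V) ?_ hv
      intro i hi
      have hi' : i ∈ J0 ∨ (i ∈ D ∧ (l : ℕ) < i) := by simpa [S] using hi
      rcases hi' with hi' | ⟨hi', hil⟩
      · exact sp_mono x (fun j hj => by simp [S]; left; exact hj)
          (hJ0.1 _ ((basis_mem_sp x).2 hi'))
      · intro j hj
        have hj' : j ∉ J0 ∧ (j ∈ D → ¬ (l : ℕ) < j) := by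
          have : j ∉ S := hj
          simpa [S] using this
        by_cases hjD : j ∈ D
        · have hjl := hj'.2 hjD
          by_cases h1 : (j : ℕ) = l ∧ (i : ℕ) = k
          · have e1 : j = l := Fin.ext h1.1
            have e2 : i = k := Fin.ext h1.2
            rw [e1, e2]; exact hcon
          · exact hB j i (by omega)
        · have hj1 : j ∉ J1 := fun h => hjD (Finset.mem_sdiff.2 ⟨h, hj'.1⟩)
          exact hJ1.1 _ ((basis_mem_sp x).2 (Finset.mem_sdiff.1 hi').1) j hj1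
    rcases hnone S hS Finset.subset_union_left (Finset.union_subset hJ0.2.1
      ((Finset.filter_subset _ _).trans Finset.sdiff_subset)) with h1 | h1
    · have : b ∈ S := Finset.mem_union_right _ (Finset.mem_filter.2 ⟨hbD, by omega⟩)
      rw [h1] at this
      exact hbD'.2 this
    · have : a ∈ S := by rw [h1]; exact haD'.1
      rcases Finset.mem_union.1 this with h2 | h2
      · exact haD'.2 h2
      · have := (Finset.mem_filter.1 h2).2
        omega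
  have hint : ∀ i : Fin n, (a : ℕ) ≤ i → (i : ℕ) ≤ b → i ∈ D := by
    intro i h1 h2
    by_cases h3 : (i : ℕ) < b
    · obtain ⟨h4, _, h5, _⟩ := hup i h1 h3
      exact h5
    · have : i = b := Fin.ext (by omega)
      rw [this]; exact hbD
  have hXS : XS A B x lam (J0 : Set (Fin n)) (J1 : Set (Fin n)) a b := by
    refine ⟨hx, hB, hBi, hDa b hbD, ?_, ?_, hJ0.1, hJ1.1, ?_, hdown⟩
    · intro i
      constructor
      · intro hi
        by_cases h0 : i ∈ J0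
        · exact Or.inl h0
        · have hiD : i ∈ D := Finset.mem_sdiff.2 ⟨hi, h0⟩
          exact Or.inr ⟨hDa i hiD, hDb i hiD⟩
      · rintro (hi | hi)
        · exact hJ0.2.1 hi
        · exact (Finset.mem_sdiff.1 (hint i hi.1 hi.2)).1
    · intro i h1 h2
      exact (Finset.mem_sdiff.1 (hint i h1 h2)).2
    · intro l k hkl hal hkb
      obtain ⟨h1, h2, _, _, h5⟩ := hup l hal (by omega)
      have : k = ⟨(l : ℕ) + 1, h2⟩ := Fin.ext hkl
      rw [this]; exact h5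
  -- the relation
  have hA0 : ∀ w ∈ sp x (J0 : Set (Fin n)), A w ∈ sp x (J0 : Set (Fin n)) := fun w hw =>
    sp_diag (A : V →ₗ[F] V) x lam hx hw
  have hA1 : ∀ w ∈ sp x (J1 : Set (Fin n)), A w ∈ sp x (J1 : Set (Fin n)) := fun w hw =>
    sp_diag (A : V →ₗ[F] V) x lam hx hw
  set G : Submodule F (V × C) :=
    Γ ⊓ (sp x (J1 : Set (Fin n))).comap (LinearMap.fst F V C) with hG
  have hGa : ∀ y ∈ G, (A y.1, A' y.2) ∈ G := fun y hy => ⟨hΓ.ia y hy.1, hA1 _ hy.2⟩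
  have hGb : ∀ y ∈ G, (B y.1, B' y.2) ∈ G := fun y hy => ⟨hΓ.ib y hy.1, hJ1.1 _ hy.2⟩
  have hGon : ∀ c : C, ∃ v : V, (v, c) ∈ G := by
    rcases hirr.snd (A := A) (B := B) hGa hGb with h | h
    · exfalso
      obtain ⟨y, hy, hy1, hy2⟩ := hJ1.2
      exact hy2 (h y ⟨hy, hy1⟩)
    · exact h
  have hG0 : ∀ y ∈ G, y.1 ∈ sp x (J0 : Set (Fin n)) → y.2 = 0 := by
    intro y hy hy0
    by_contra hcon
    have h1 : J0 ∈ T := by
      simp only [T, Finset.mem_filter, Finset.mem_univ, true_and]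
      exact ⟨hJ0.1, y, hy.1, hy0, hcon⟩
    have h2 := hJ1min J0 h1
    have h3 := Finset.card_lt_card hJ0.2
    omega
  have hocc := Occ.add (A := A) (B := B) hGa hGb hGon (W := sp x (J0 : Set (Fin n))) hA0 hJ0.1 hG0
  have h1 : ∀ y ∈ G ⊔ (sp x (J0 : Set (Fin n))).prod (⊥ : Submodule F C),
      y.1 ∈ sp x (J1 : Set (Fin n)) := by
    intro y hy
    obtain ⟨p, hp, q, hq, rfl⟩ := Submodule.mem_sup.1 hy
    exact (sp x (J1 : Set (Fin n))).add_mem hp.2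
      (sp_mono x (fun i hi => hJ0.2.1 hi) hq.1)
  have h0 : ∀ w ∈ sp x (J0 : Set (Fin n)),
      (w, (0 : C)) ∈ G ⊔ (sp x (J0 : Set (Fin n))).prod (⊥ : Submodule F C) := fun w hw =>
    Submodule.mem_sup_right ⟨hw, Submodule.zero_mem _⟩
  obtain ⟨δ, H, k1, k2, k3, k4, k5, k6⟩ := core hXS hocc hirr.1 h1 h0 hP hPs
  refine ⟨δ, H, k1, k2, k3, k4, ?_, k6⟩
  obtain ⟨y, hy, hy1, hy2⟩ := hJ1.2
  exact ⟨y.1, y.2, hy, hy2, k5 _ _ (Submodule.mem_sup_left ⟨hy, hy1⟩)⟩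

end Pool.Agent.Helper82.CF
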