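import Pool.Agent.Helper82.CF.LemX

/-!
Condition (1) for an irreducible constituent of a cyclic piece: part (i).
-/

namespace Pool.Agent.Helper82.CF

open Module

universe u v w

variable {F : Type u} [Field F] {V : Type v} [AddCommGroup V] [Module F V]
  {C : Type w} [AddCommGroup C] [Module F C] {n : ℕ}

/-- Condition (1) for a pair of maps. -/
def C1 (A' B' : C ≃ₗ[F] C) : Prop :=
  ∃ (m : ℕ) (t : Basis (Fin m) F C) (θ : Fin m → F),
    (∀ i, B' (t i) = θ i • t i) ∧
    (∀ i j : Fin m, (j : ℕ) + 1 < i → t.repr (A' (t j)) i = 0) ∧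
    (∀ i j : Fin m, (i : ℕ) + 1 < j → t.repr (A'.symm (t j)) i = 0)

/-- Both structures of an inverting pair, in the form used here. -/
structure EX (A B : V ≃ₗ[F] V) (e x : Basis (Fin n) F V) (θ lam : Fin n → F) : Prop where
  he : ∀ i, B (e i) = θ i • e i
  hA : ∀ i j : Fin n, (j : ℕ) + 1 < i → e.repr (A (e j)) i = 0
  hAi : ∀ i j : Fin n, (i : ℕ) + 1 < j → e.repr (A.symm (e j)) i = 0
  hx : ∀ i, A (x i) = lam i • x i
  hB : ∀ i j : Fin n, (i : ℕ) + 1 < j → x.repr (B (x j)) i = 0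
  hBi : ∀ i j : Fin n, (j : ℕ) + 1 < i → x.repr (B.symm (x j)) i = 0

theorem diag_symm {T : V ≃ₗ[F] V} {e : Basis (Fin n) F V} {θ : Fin n → F}
    (he : ∀ i, T (e i) = θ i • e i) : ∀ i, T.symm (e i) = (θ i)⁻¹ • e i := by
  intro i
  have h0 : θ i ≠ 0 := by
    intro h
    have h1 := he i
    rw [h, zero_smul] at h1
    have : e i = 0 := by simpa using h1
    exact e.ne_zero i this
  have h1 : T.symm (T (e i)) = θ i • T.symm (e i) := by rw [he, map_smul]
  rw [LinearEquiv.symm_apply_apply] at h1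
  have h2 := congrArg (fun t => (θ i)⁻¹ • t) h1
  simp only [smul_smul, inv_mul_cancel₀ h0, one_smul] at h2
  exact h2.symm

theorem repr_aeval (T : V →ₗ[F] V) {e : Basis (Fin n) F V} {θ : Fin n → F}
    (he : ∀ i, T (e i) = θ i • e i) (P : Polynomial F) (v : V) (i : Fin n) :
    e.repr (Polynomial.aeval T P v) i = P.eval (θ i) * e.repr v i := by
  have key : (Finsupp.lapply i ∘ₗ e.repr.toLinearMap ∘ₗ Polynomial.aeval T P) =
      (P.eval (θ i) • (Finsupp.lapply i ∘ₗ e.repr.toLinearMap) : V →ₗ[F] F) := by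
    refine e.ext fun j => ?_
    simp only [LinearMap.comp_apply, LinearEquiv.coe_coe, LinearMap.smul_apply, aeval_eigen T (he j)]
    by_cases hij : j = i
    · subst hij; simp
    · simp [hij]
  simpa using LinearMap.congr_fun key v

/-- A vector all of whose spectral components lie in `U` lies in `U`. -/
theorem mem_of_proj (T : V →ₗ[F] V) (x : Basis (Fin n) F V) (lam : Fin n → F)
    (hx : ∀ i, T (x i) = lam i • x i) {U : Submodule F V} {v : V}
    (h : ∀ μ P, IsProj T μ P → Polynomial.aeval T P v ∈ U) : v ∈ U := by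
  classical
  have hex : ∀ μ, ∃ P : Polynomial F, IsProj T μ P ∧ P.eval μ = 1 ∧
      ∀ i, lam i ≠ μ → P.eval (lam i) = 0 := by
    intro μ
    obtain ⟨P, hP1, hP⟩ := exists_poly lam μ
    refine ⟨P, ⟨hP1, ?_⟩, hP1, hP⟩
    intro w
    have : T ∘ₗ Polynomial.aeval T P = μ • Polynomial.aeval T P := by
      refine x.ext fun i => ?_
      simp only [LinearMap.comp_apply, LinearMap.smul_apply, aeval_eigen T (hx i), map_smul, hx]
      by_cases hi : lam i = μ
      · rw [hi]; rw [smul_comm]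
      · rw [hP i hi]; simp
    simpa using LinearMap.congr_fun this w
  choose P hP hP1 hP0 using hex
  have hv : v = ∑ μ ∈ Finset.univ.image lam, Polynomial.aeval T (P μ) v := by
    apply x.repr.injective
    ext i
    rw [map_sum, Finsupp.finsetSum_apply]
    rw [Finset.sum_eq_single (lam i)]
    · rw [repr_aeval T hx, hP1, one_mul]
    · intro μ _ hμ
      rw [repr_aeval T hx, hP0 μ i (Ne.symm hμ), zero_mul]
    · intro hi
      exact absurd (Finset.mem_image_of_mem lam (Finset.mem_univ i)) hi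
  rw [hv]
  exact U.sum_mem fun μ _ => h μ (P μ) (hP μ)

theorem aeval_comm (T : V →ₗ[F] V) (P : Polynomial F) (u : V) :
    Polynomial.aeval T P (T u) = T (Polynomial.aeval T P u) := by
  have := congrArg (Polynomial.aeval T) (mul_comm P Polynomial.X)
  rw [map_mul, map_mul, Polynomial.aeval_X] at this
  exact LinearMap.congr_fun this u

/-- In a cyclic subspace the eigenvectors of one eigenvalue are proportional. -/
theorem cyc_eig {T : V →ₗ[F] V} {μ : F} {P : Polynomial F} (hP : IsProj T μ P) {e0 : V}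
    {H0 : Submodule F V} (hcyc : ∀ U : Submodule F V, e0 ∈ U → (∀ u ∈ U, T u ∈ U) → H0 ≤ U)
    {v : V} (hv : v ∈ H0) (hvT : T v = μ • v) : ∃ κ : F, v = κ • Polynomial.aeval T P e0 := by
  let z := Polynomial.aeval T P e0
  have h1 : H0 ≤ (Submodule.span F {z}).comap (Polynomial.aeval T P : V →ₗ[F] V) := by
    refine hcyc _ ?_ ?_
    · exact Submodule.mem_span_singleton_self z
    · intro u hu
      change Polynomial.aeval T P (T u) ∈ Submodule.span F {z}
      rw [aeval_comm, hP.2]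
      exact Submodule.smul_mem _ _ hu
  have h2 := h1 hv
  change Polynomial.aeval T P v ∈ Submodule.span F {z} at h2
  rw [hP.fix hvT, Submodule.mem_span_singleton] at h2
  obtain ⟨κ, hκ⟩ := h2
  exact ⟨κ, hκ.symm⟩

/-- Pull out one basis vector. -/
theorem extract (e : Basis (Fin n) F V) {U : Submodule F V} {S : Set (Fin n)} {k : Fin n} {v : V}
    (hv : v ∈ U) (hS : ∀ i ∈ S, e i ∈ U) (hvS : v ∈ sp e ({k} ∪ S)) (hk : k ∉ S)
    (hvk : e.repr v k ≠ 0) : e k ∈ U := by
  obtain ⟨p, hp, q, hq, hpq⟩ := sp_union e (Set.Subset.refl _) hvS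
  have hqU : q ∈ U := sp_le e hS hq
  have hp' : p = e.repr p k • e k := by
    apply e.repr.injective
    ext i
    by_cases hil : i = k
    · subst hil; simp
    · rw [hp i (by simpa using hil)]
      simp [Ne.symm hil]
  have hp2 : p ∈ U := by
    have : p = v - q := by rw [hpq]; abel
    rw [this]; exact U.sub_mem hv hqU
  have hc : e.repr p k ≠ 0 := by
    rw [hpq, map_add, Finsupp.add_apply, hq k hk, add_zero] at hvk
    exact hvk
  rw [hp'] at hp2
  have := U.smul_mem (e.repr p k)⁻¹ hp2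
  rwa [smul_smul, inv_mul_cancel₀ hc, one_smul] at this

/-- Cyclic generation of an interval. -/
theorem gen_up (e : Basis (Fin n) F V) (T : V →ₗ[F] V) {s t : Fin n}
    (hT : ∀ i j : Fin n, (j : ℕ) + 1 < i → e.repr (T (e j)) i = 0)
    (hH0 : ∀ v ∈ sp e {i | (s : ℕ) ≤ i ∧ (i : ℕ) ≤ t}, T v ∈ sp e {i | (s : ℕ) ≤ i ∧ (i : ℕ) ≤ t})
    (ha : ∀ l k : Fin n, (k : ℕ) = l + 1 → (s : ℕ) ≤ l → (k : ℕ) ≤ t → e.repr (T (e l)) k ≠ 0)
    (U : Submodule F V) (hs : e s ∈ U) (hU : ∀ u ∈ U, T u ∈ U) :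
    sp e {i | (s : ℕ) ≤ i ∧ (i : ℕ) ≤ t} ≤ U := by
  have key : ∀ k : ℕ, ∀ l : Fin n, (l : ℕ) = s + k → (l : ℕ) ≤ t → e l ∈ U := by
    intro k
    induction k using Nat.strong_induction_on with
    | _ k ih =>
      intro l hl hlt
      rcases Nat.eq_zero_or_pos k with hk | hk
      · have : l = s := Fin.ext (by omega)
        rw [this]; exact hs
      · have hln := l.2
        set l' : Fin n := ⟨s + (k - 1), by omega⟩ with hl'
        have hl'v : (l' : ℕ) = s + (k - 1) := rfl
        have h1 : e l' ∈ U := ih (k - 1) (by omega) l' hl'v (by omega)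
        refine extract e (S := {i | (s : ℕ) ≤ i ∧ (i : ℕ) < l}) (k := l) (hU _ h1) ?_ ?_ ?_ ?_
        · rintro i ⟨hi1, hi2⟩
          exact ih (i - s) (by omega) i (by omega) (by omega)
        · intro i hi
          by_cases h2 : (i : ℕ) ≤ l
          · have h3 := hH0 (e l') ((basis_mem_sp e).2 ⟨by omega, by omega⟩)
            refine h3 i ?_
            rintro ⟨h4, _⟩
            apply hi
            by_cases h5 : i = l
            · left; exact h5
            · right
              have : (i : ℕ) ≠ l := fun h => h5 (Fin.ext h)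
              exact ⟨h4, by omega⟩
          · exact hT i l' (by omega)
        · rintro ⟨_, h2⟩; exact lt_irrefl _ h2
        · exact ha l' l (by omega) (by omega) hlt
  refine sp_le e ?_
  rintro i ⟨hi1, hi2⟩
  exact key (i - s) i (by omega) hi2

theorem sp_lead (e : Basis (Fin n) F V) {s r t : Fin n} {v : V}
    (h1 : v ∈ sp e {i | (s : ℕ) ≤ i ∧ (i : ℕ) ≤ t}) (h0 : v ∉ sp e {i | (r : ℕ) < i ∧ (i : ℕ) ≤ t}) :
    ∃ l : Fin n, (s : ℕ) ≤ l ∧ (l : ℕ) ≤ r ∧ v ∈ sp e {i | (l : ℕ) ≤ i} ∧ e.repr v l ≠ 0 := by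
  classical
  let S : Finset (Fin n) := Finset.univ.filter (fun i => (i : ℕ) ≤ r ∧ e.repr v i ≠ 0)
  have hS : S.Nonempty := by
    by_contra hcon
    apply h0
    intro i hi
    by_contra h2
    have h3 : (s : ℕ) ≤ i ∧ (i : ℕ) ≤ t := by
      by_contra h3; exact h2 (h1 i h3)
    have h4 : (i : ℕ) ≤ r := by
      by_contra h4
      exact hi ⟨by omega, h3.2⟩
    exact hcon ⟨i, Finset.mem_filter.2 ⟨Finset.mem_univ _, h4, h2⟩⟩
  have hm := S.min'_mem hS
  set l := S.min' hS with hl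
  have hm' : (l : ℕ) ≤ r ∧ e.repr v l ≠ 0 := by simpa [S] using hm
  have h3 : (s : ℕ) ≤ l ∧ (l : ℕ) ≤ t := by
    by_contra h3; exact hm'.2 (h1 l h3)
  refine ⟨l, h3.1, hm'.1, ?_, hm'.2⟩
  intro i hi
  have hi' : ¬ (l : ℕ) ≤ i := hi
  by_contra h4
  have h5 : i ∈ S := by
    simp only [S, Finset.mem_filter, Finset.mem_univ, true_and]
    exact ⟨by omega, h4⟩
  have h6 : l ≤ i := S.min'_le i h5
  exact hi' h6

theorem partIa [FiniteDimensional F V] [FiniteDimensional F C]
    {A B : V ≃ₗ[F] V} {A' B' : C ≃ₗ[F] C} {e x : Basis (Fin n) F V} {θ lam : Fin n → F}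
    (h : EX A B e x θ lam) {s r t : Fin n}
    (hai : ∀ l k : Fin n, (k : ℕ) = l + 1 → (s : ℕ) ≤ l → (k : ℕ) ≤ r →
      e.repr (A.symm (e k)) l ≠ 0)
    {Γ : Submodule F (V × C)} (hΓ : Occ A B A' B' Γ)
    (hΓ1 : ∀ y ∈ Γ, y.1 ∈ sp e {i | (s : ℕ) ≤ i ∧ (i : ℕ) ≤ t})
    (hΓ0 : ∀ v, (v, (0 : C)) ∈ Γ ↔ v ∈ sp e {i | (r : ℕ) < i ∧ (i : ℕ) ≤ t})
    (hirr : Irr A' B') :
    ∃ (m : ℕ) (idx : Fin m → Fin n) (tb : Basis (Fin m) F C), 0 < m ∧
      (∀ k, (idx k : ℕ) = s + k) ∧ (∀ k, (idx k : ℕ) ≤ r) ∧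
      (∀ k, B' (tb k) = θ (idx k) • tb k) ∧
      (∀ i j : Fin m, (i : ℕ) + 1 < j → tb.repr (A'.symm (tb j)) i = 0) := by
  classical
  let Has : Fin n → Prop := fun l =>
    ∃ (u : V) (c : C), (u, c) ∈ Γ ∧ u ∈ sp e {i | (l : ℕ) ≤ i} ∧ e.repr u l ≠ 0
  let L : Finset (Fin n) := Finset.univ.filter (fun l => (s : ℕ) ≤ l ∧ (l : ℕ) ≤ r ∧ Has l)
  have hL : L.Nonempty := by
    obtain ⟨c, hc⟩ := hirr.1
    obtain ⟨v, hv⟩ := hΓ.on c
    obtain ⟨l, h1, h2, h3, h4⟩ := sp_lead e (r := r) (hΓ1 _ hv) (fun h0 =>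
      hc (hΓ.uniq hv ((hΓ0 v).2 h0)))
    refine ⟨l, ?_⟩
    simp only [L, Finset.mem_filter, Finset.mem_univ, true_and]
    exact ⟨h1, h2, v, c, hv, h3, h4⟩
  have hm := L.max'_mem hL
  set r1 := L.max' hL with hr1
  have hr1' : (s : ℕ) ≤ r1 ∧ (r1 : ℕ) ≤ r ∧ Has r1 := by simpa [L] using hm
  have hmax : ∀ l : Fin n, (s : ℕ) ≤ l → (l : ℕ) ≤ r → Has l → (l : ℕ) ≤ r1 := by
    intro l h1 h2 h3
    have : l ∈ L := by
      simp only [L, Finset.mem_filter, Finset.mem_univ, true_and]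
      exact ⟨h1, h2, h3⟩
    exact L.le_max' l this
  have hlow : ∀ k : ℕ, ∀ l : Fin n, (l : ℕ) + k = r1 → (s : ℕ) ≤ l → Has l := by
    intro k
    induction k with
    | zero =>
      intro l hl _
      have : l = r1 := Fin.ext (by simpa using hl)
      rw [this]; exact hr1'.2.2
    | succ k ih =>
      intro l hl hsl
      have hrn := r1.2
      set l' : Fin n := ⟨l + 1, by omega⟩ with hl'
      have hl'v : (l' : ℕ) = l + 1 := rfl
      obtain ⟨u, c, huc, hu1, hu2⟩ := ih l' (by omega) (by omega)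
      refine ⟨A.symm u, A'.symm c, hΓ.iasymm huc, ?_, ?_⟩
      · refine sp_map e (A.symm : V →ₗ[F] V) ?_ hu1
        intro i hi j hj
        have hi' : (l' : ℕ) ≤ i := hi
        have hj' : ¬ (l : ℕ) ≤ j := hj
        exact h.hAi j i (by omega)
      · have h1 := repr_map_single e (A.symm : V →ₗ[F] V) hu1 (k := l) l' (by
          intro i hi hil
          have hi' : (l' : ℕ) ≤ i := hi
          have : (i : ℕ) ≠ l' := fun h => hil (Fin.ext h)
          exact h.hAi l i (by omega))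
        simp only [LinearEquiv.coe_coe] at h1
        rw [h1]
        exact mul_ne_zero hu2 (hai l l' hl'v hsl (by have := hr1'.2.1; omega))
  -- the vectors
  have hsr1 : (s : ℕ) ≤ r1 := hr1'.1
  have hrn := r1.2
  set m : ℕ := (r1 : ℕ) - s + 1 with hmdef
  let idx : Fin m → Fin n := fun k => ⟨s + k, by have := k.2; omega⟩
  have hidx : ∀ k, (idx k : ℕ) = s + k := fun k => rfl
  have hidxr1 : ∀ k, (idx k : ℕ) ≤ r1 := fun k => by
    have h1 := k.2
    have h2 := hidx k
    omega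
  have hidxr : ∀ k, (idx k : ℕ) ≤ r := fun k => le_trans (hidxr1 k) hr1'.2.1
  have hex : ∀ k : Fin m, ∃ (u : V) (c : C), (u, c) ∈ Γ ∧ u ∈ sp e {i | (idx k : ℕ) ≤ i} ∧
      e.repr u (idx k) ≠ 0 ∧ B' c = θ (idx k) • c := by
    intro k
    obtain ⟨u, c, huc, hu1, hu2⟩ := hlow (r1 - idx k) (idx k) (by have := hidxr1 k; omega)
      (by rw [hidx]; omega)
    obtain ⟨P, hP⟩ := exists_proj (B : V →ₗ[F] V) e θ h.he (θ (idx k))
    have hu : (Polynomial.aeval (B : V →ₗ[F] V) P u, Polynomial.aeval (B' : C →ₗ[F] C) P c) ∈ Γ :=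
      aeval_prod (B : V →ₗ[F] V) (B' : C →ₗ[F] C) (fun y hy => hΓ.ib y hy) P huc
    refine ⟨_, _, hu, ?_, ?_, ?_⟩
    · intro i hi
      rw [repr_aeval (B : V →ₗ[F] V) h.he, hu1 i hi, mul_zero]
    · rw [repr_aeval (B : V →ₗ[F] V) h.he, hP.1, one_mul]
      exact hu2
    · have h1 := hΓ.ib _ hu
      have h2 := Γ.smul_mem (θ (idx k)) hu
      have h3 := hP.2 u
      simp only [LinearEquiv.coe_coe] at h3
      simp only at h1
      rw [h3] at h1
      exact hΓ.uniq h1 h2
  choose u c huc hu1 hu2 hcB using hex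
  have hspan : ∀ d : ℕ, ∀ k : ℕ, k + d = m → ∀ v c', (v, c') ∈ Γ →
      v ∈ sp e {i | (s : ℕ) + k ≤ i} → c' ∈ Submodule.span F (c '' {j | k ≤ (j : ℕ)}) := by
    intro d
    induction d with
    | zero =>
      intro k hk v c' hvc hv
      have : c' = 0 := by
        refine hΓ.uniq hvc ((hΓ0 v).2 ?_)
        by_contra h0
        obtain ⟨l, h1, h2, h3, h4⟩ := sp_lead e (r := r) (hΓ1 _ hvc) h0
        have h5 := hmax l h1 h2 ⟨v, c', hvc, h3, h4⟩
        apply h4
        apply hv
        intro h6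
        have h6' : (s : ℕ) + k ≤ l := h6
        omega
      rw [this]; exact Submodule.zero_mem _
    | succ d ih =>
      intro k hk v c' hvc hv
      have hkm : k < m := by omega
      set k' : Fin m := ⟨k, hkm⟩ with hk'
      set κ : F := e.repr v (idx k') / e.repr (u k') (idx k') with hκ
      have h1 : (v - κ • u k', c' - κ • c k') ∈ Γ := by
        have := Γ.sub_mem hvc (Γ.smul_mem κ (huc k'))
        simpa using this
      have h2 : v - κ • u k' ∈ sp e {i | (s : ℕ) + (k + 1) ≤ i} := by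
        intro i hi
        have hi' : ¬ (s : ℕ) + (k + 1) ≤ i := hi
        rw [map_sub, map_smul, Finsupp.sub_apply, Finsupp.smul_apply, smul_eq_mul]
        by_cases h3 : i = idx k'
        · rw [h3, hκ, div_mul_cancel₀ _ (hu2 k'), sub_self]
        · have h4 : (i : ℕ) ≠ s + k := fun h => h3 (Fin.ext h)
          rw [hv i (by
            intro h5
            have h5' : (s : ℕ) + k ≤ i := h5
            omega), hu1 k' i (by
            intro h5
            have h5' : (s : ℕ) + k ≤ i := h5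
            omega), mul_zero, sub_zero]
      have h3 := ih (k + 1) (by omega) _ _ h1 h2
      have h4 : c' = (c' - κ • c k') + κ • c k' := by abel
      rw [h4]
      refine Submodule.add_mem _ (Submodule.span_mono ?_ h3) (Submodule.smul_mem _ _
        (Submodule.subset_span ⟨k', by simp [hk'], rfl⟩))
      rintro _ ⟨j, hj, rfl⟩
      have hj' : k + 1 ≤ (j : ℕ) := hj
      exact ⟨j, show k ≤ (j : ℕ) by omega, rfl⟩
  have hli : LinearIndependent F c := by
    rw [Fintype.linearIndependent_iff]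
    intro g hg
    have h1 : (∑ k, g k • u k, (0 : C)) ∈ Γ := by
      have h2 : ∑ k, g k • (u k, c k) ∈ Γ := Γ.sum_mem fun k _ => Γ.smul_mem _ (huc k)
      have h3 : ∑ k, g k • (u k, c k) = (∑ k, g k • u k, ∑ k, g k • c k) := by
        ext <;> simp [Prod.fst_sum, Prod.snd_sum]
      rw [h3, hg] at h2
      exact h2
    rw [hΓ0] at h1
    have key : ∀ k : ℕ, ∀ (hk : k < m), g ⟨k, hk⟩ = 0 := by
      intro k
      induction k using Nat.strong_induction_on with
      | _ k ih =>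
        intro hk
        set k' : Fin m := ⟨k, hk⟩ with hk'
        have h2 := h1 (idx k') (by
          rintro ⟨h3, _⟩
          have := hidxr k'
          omega)
        rw [map_sum, Finsupp.finsetSum_apply, Finset.sum_eq_single k'] at h2
        · rw [map_smul, Finsupp.smul_apply, smul_eq_mul] at h2
          rcases mul_eq_zero.1 h2 with h3 | h3
          · exact h3
          · exact absurd h3 (hu2 k')
        · intro j _ hj
          rw [map_smul, Finsupp.smul_apply, smul_eq_mul]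
          by_cases h3 : (j : ℕ) < k
          · rw [show g j = 0 from ih j h3 j.2, zero_mul]
          · have h4 : (j : ℕ) ≠ k := fun h => hj (Fin.ext h)
            rw [hu1 j (idx k') (by
              intro h5
              have h5' : (s : ℕ) + j ≤ s + k := h5
              omega), mul_zero]
        · intro h3; exact absurd (Finset.mem_univ _) h3
    intro k
    exact key k k.2
  have hsp : ⊤ ≤ Submodule.span F (Set.range c) := by
    intro c' _
    obtain ⟨v, hv⟩ := hΓ.on c'
    have h1 := hspan m 0 (by omega) v c' hv (sp_mono e (fun i hi => show (s : ℕ) + 0 ≤ i from hi.1) (hΓ1 _ hv))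
    exact Submodule.span_mono (Set.image_subset_range _ _) h1
  have hsub : ∀ k : ℕ, Submodule.span F (c '' {j | k ≤ (j : ℕ)}) ≤
      sp (Basis.mk hli hsp) {j | k ≤ (j : ℕ)} := by
    intro k
    rw [Submodule.span_le]
    rintro _ ⟨j, hj, rfl⟩
    have := (basis_mem_sp (Basis.mk hli hsp) (S := {j | k ≤ (j : ℕ)})).2 hj
    rwa [Basis.mk_apply] at this
  refine ⟨m, idx, Basis.mk hli hsp, by omega, hidx, hidxr, ?_, ?_⟩
  · intro k
    rw [Basis.mk_apply]; exact hcB k
  · intro i j hij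
    rw [Basis.mk_apply]
    have h1 := hΓ.iasymm (huc j)
    have h2 := hspan (m - (j - 1)) (j - 1) (by have := j.2; omega) _ _ h1 (by
      refine sp_map e (A.symm : V →ₗ[F] V) ?_ (hu1 j)
      intro a ha b hb
      have ha' : (s : ℕ) + j ≤ a := ha
      have hb' : ¬ (s : ℕ) + ((j : ℕ) - 1) ≤ b := hb
      exact h.hAi b a (by omega))
    refine hsub _ h2 i ?_
    intro h3
    have h3' : (j : ℕ) - 1 ≤ i := h3
    omega

end Pool.Agent.Helper82.CF
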