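import Pool.Agent.Helper82.CF.PartIb

/-!
Condition (1) for an irreducible constituent of a cyclic piece: part (ii), the general case.
-/

namespace Pool.Agent.Helper82.CF

open Module

universe u v w

variable {F : Type u} [Field F] {V : Type v} [AddCommGroup V] [Module F V]
  {C : Type w} [AddCommGroup C] [Module F C] {n : ℕ}

/-- The map induced on a subquotient. -/
theorem exists_quot [FiniteDimensional F V] (A : V ≃ₗ[F] V) {R M1 : Submodule F V}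
    (_hRM : R ≤ M1) (hR : ∀ v ∈ R, A v ∈ R) (hM : ∀ v ∈ M1, A v ∈ M1) :
    ∃ A1 : (M1 ⧸ R.comap M1.subtype) ≃ₗ[F] (M1 ⧸ R.comap M1.subtype),
      ∀ (v : M1) (h : A v ∈ M1), A1 (Submodule.Quotient.mk v) =
        Submodule.Quotient.mk (⟨A v, h⟩ : M1) := by
  have h1 : M1.map (A : V →ₗ[F] V) = M1 := by
    apply Submodule.eq_of_le_of_finrank_eq
    · rintro _ ⟨v, hv, rfl⟩; exact hM v hv
    · exact LinearEquiv.finrank_map_eq A M1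
  let A0 : M1 ≃ₗ[F] M1 := A.ofSubmodules M1 M1 h1
  have hA0 : ∀ v : M1, ((A0 v : M1) : V) = A v := fun v => rfl
  have h2 : (R.comap M1.subtype).map (A0 : M1 →ₗ[F] M1) = R.comap M1.subtype := by
    apply Submodule.eq_of_le_of_finrank_eq
    · rintro _ ⟨v, hv, rfl⟩
      exact hR _ hv
    · exact LinearEquiv.finrank_map_eq A0 _
  refine ⟨Submodule.Quotient.equiv _ _ A0 h2, ?_⟩
  intro v h
  rw [Submodule.Quotient.equiv_apply]
  rfl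

theorem t1i [FiniteDimensional F V] [FiniteDimensional F C]
    {A B : V ≃ₗ[F] V} {A' B' : C ≃ₗ[F] C} {e x : Basis (Fin n) F V} {θ lam : Fin n → F}
    (h : EX A B e x θ lam) {s r t : Fin n} (hsr : (s : ℕ) ≤ r) (hrt : (r : ℕ) ≤ t)
    (hH0 : ∀ v ∈ sp e {i | (s : ℕ) ≤ i ∧ (i : ℕ) ≤ t}, A v ∈ sp e {i | (s : ℕ) ≤ i ∧ (i : ℕ) ≤ t})
    (hR : ∀ v ∈ sp e {i | (r : ℕ) < i ∧ (i : ℕ) ≤ t}, A v ∈ sp e {i | (r : ℕ) < i ∧ (i : ℕ) ≤ t})
    (ha : ∀ l k : Fin n, (k : ℕ) = l + 1 → (s : ℕ) ≤ l → (k : ℕ) ≤ t → e.repr (A (e l)) k ≠ 0)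
    (hai : ∀ l k : Fin n, (k : ℕ) = l + 1 → (s : ℕ) ≤ l → (k : ℕ) ≤ r →
      e.repr (A.symm (e k)) l ≠ 0)
    (hirr : Irr A' B')
    (hocc : ∃ Γ : Submodule F (V × C), Occ A B A' B' Γ ∧
      (∀ y ∈ Γ, y.1 ∈ sp e {i | (s : ℕ) ≤ i ∧ (i : ℕ) ≤ t}) ∧
      (∀ v ∈ sp e {i | (r : ℕ) < i ∧ (i : ℕ) ≤ t}, (v, (0 : C)) ∈ Γ)) :
    C1 A' B' := by
  classical
  set S0 : Set (Fin n) := {i | (s : ℕ) ≤ i ∧ (i : ℕ) ≤ t} with hS0
  set R : Submodule F V := sp e {i | (r : ℕ) < i ∧ (i : ℕ) ≤ t} with hRdef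
  have hRB : ∀ v ∈ R, B v ∈ R := fun v hv => sp_diag (B : V →ₗ[F] V) e θ h.he hv
  have hRS : R ≤ sp e S0 := sp_mono e (S := {i | (r : ℕ) < i ∧ (i : ℕ) ≤ t}) (T := S0)
    (fun i hi => ⟨by have := hi.1; omega, hi.2⟩)
  -- minimal occurrence
  have hex : ∃ N : ℕ, ∃ Γ : Submodule F (V × C), Occ A B A' B' Γ ∧
      (∀ y ∈ Γ, y.1 ∈ sp e S0) ∧ (∀ v ∈ R, (v, (0 : C)) ∈ Γ) ∧ finrank F Γ = N := by
    obtain ⟨Γ, h1, h2, h3⟩ := hocc
    exact ⟨_, Γ, h1, h2, h3, rfl⟩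
  obtain ⟨Γ, hΓ, hΓ1, hΓR, hN⟩ := Nat.find_spec hex
  have hmin : ∀ Γ' : Submodule F (V × C), Occ A B A' B' Γ' → (∀ y ∈ Γ', y.1 ∈ sp e S0) →
      (∀ v ∈ R, (v, (0 : C)) ∈ Γ') → finrank F Γ ≤ finrank F Γ' := by
    intro Γ' h1 h2 h3
    rw [hN]
    exact Nat.find_min' hex ⟨Γ', h1, h2, h3, rfl⟩
  by_cases hM0 : ∀ v, (v, (0 : C)) ∈ Γ → v ∈ R
  · exact (partI h hrt hH0 hR ha hai hΓ hΓ1 (fun v => ⟨hM0 v, hΓR v⟩) hirr).1
  exfalso
  push Not at hM0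
  obtain ⟨v0, hv0, hv0R⟩ := hM0
  -- the submodule M0
  let M0 : Submodule F V := Γ.comap (LinearMap.inl F V C)
  have hM0m : ∀ v, v ∈ M0 ↔ (v, (0 : C)) ∈ Γ := fun v => Iff.rfl
  have hM0A : ∀ v ∈ M0, A v ∈ M0 := by
    intro v hv
    have := hΓ.ia _ ((hM0m v).1 hv)
    rw [hM0m]; simpa using this
  have hM0B : ∀ v ∈ M0, B v ∈ M0 := by
    intro v hv
    have := hΓ.ib _ ((hM0m v).1 hv)
    rw [hM0m]; simpa using this
  have hex1 : ∃ N : ℕ, ∃ W : Submodule F V, R ≤ W ∧ W ≤ M0 ∧ ¬ W ≤ R ∧ (∀ v ∈ W, A v ∈ W) ∧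
      (∀ v ∈ W, B v ∈ W) ∧ finrank F W = N :=
    ⟨_, M0, hΓR, le_refl _, fun h => hv0R (h hv0), hM0A, hM0B, rfl⟩
  obtain ⟨M1, hRM1, hM1M0, hM1R, hM1A, hM1B, hN1⟩ := Nat.find_spec hex1
  have hmin1 : ∀ W : Submodule F V, R ≤ W → W ≤ M0 → ¬ W ≤ R → (∀ v ∈ W, A v ∈ W) →
      (∀ v ∈ W, B v ∈ W) → finrank F M1 ≤ finrank F W := by
    intro W h1 h2 h3 h4 h5
    rw [hN1]
    exact Nat.find_min' hex1 ⟨W, h1, h2, h3, h4, h5, rfl⟩
  obtain ⟨A1, hA1⟩ := exists_quot A hRM1 hR hM1A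
  obtain ⟨B1, hB1⟩ := exists_quot B hRM1 hRB hM1B
  have hirr1 : Irr A1 B1 := by
    constructor
    · obtain ⟨v, hv, hvR⟩ := Set.not_subset.1 (show ¬ (M1 : Set V) ⊆ R from hM1R)
      refine ⟨Submodule.Quotient.mk ⟨v, hv⟩, ?_⟩
      intro h0
      rw [Submodule.Quotient.mk_eq_zero] at h0
      exact hvR h0
    · intro U hUA hUB
      let U' : Submodule F V := (U.comap (Submodule.mkQ _)).map M1.subtype
      have hU' : ∀ v : M1, (v : V) ∈ U' ↔ Submodule.Quotient.mk v ∈ U := by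
        intro v
        constructor
        · rintro ⟨w, hw, hwv⟩
          have : w = v := Subtype.ext hwv
          rw [← this]; exact hw
        · intro hv
          exact ⟨v, hv, rfl⟩
      have hU'M : U' ≤ M1 := by
        rintro _ ⟨w, _, rfl⟩; exact w.2
      have hRU : R ≤ U' := by
        intro v hv
        refine (hU' ⟨v, hRM1 hv⟩).2 ?_
        rw [(Submodule.Quotient.mk_eq_zero _).2 (show (⟨v, hRM1 hv⟩ : M1) ∈ R.comap M1.subtype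
          from hv)]
        exact U.zero_mem
      by_cases hUR : U' ≤ R
      · left
        rw [eq_bot_iff]
        intro c hc
        obtain ⟨v, rfl⟩ := Submodule.Quotient.mk_surjective _ c
        have h1 : (v : V) ∈ R := hUR ((hU' v).2 hc)
        rw [Submodule.mem_bot, Submodule.Quotient.mk_eq_zero]
        exact h1
      · right
        have h1 := hmin1 U' hRU (hU'M.trans hM1M0) hUR
          (by
            rintro _ ⟨w, hw, rfl⟩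
            have h2 := hUA _ hw
            exact (hU' ⟨A w, hM1A _ w.2⟩).2 (by
              have h3 := hA1 w (hM1A _ w.2)
              rw [← h3]; exact h2))
          (by
            rintro _ ⟨w, hw, rfl⟩
            have h2 := hUB _ hw
            exact (hU' ⟨B w, hM1B _ w.2⟩).2 (by
              have h3 := hB1 w (hM1B _ w.2)
              rw [← h3]; exact h2))
        have h2 : U' = M1 := Submodule.eq_of_le_of_finrank_le hU'M h1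
        rw [eq_top_iff]
        intro c _
        obtain ⟨v, rfl⟩ := Submodule.Quotient.mk_surjective _ c
        refine (hU' v).1 ?_
        rw [h2]; exact v.2
  let Γ1 : Submodule F (V × (M1 ⧸ R.comap M1.subtype)) :=
    LinearMap.range (M1.subtype.prod (Submodule.mkQ (R.comap M1.subtype)))
  have hΓ1m : ∀ v c, (v, c) ∈ Γ1 ↔ ∃ hv : v ∈ M1, Submodule.Quotient.mk ⟨v, hv⟩ = c := by
    intro v c
    constructor
    · rintro ⟨w, hw⟩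
      have h1 : (w : V) = v := congrArg Prod.fst hw
      have h2 : Submodule.Quotient.mk w = c := congrArg Prod.snd hw
      subst h1
      exact ⟨w.2, h2⟩
    · rintro ⟨hv, rfl⟩
      exact ⟨⟨v, hv⟩, rfl⟩
  have hocc1 : Occ A B A1 B1 Γ1 := by
    refine ⟨?_, ?_, ?_, ?_⟩
    · rintro ⟨v, c⟩ hy
      obtain ⟨hv, rfl⟩ := (hΓ1m v c).1 hy
      refine (hΓ1m _ _).2 ⟨hM1A _ hv, ?_⟩
      exact (hA1 ⟨v, hv⟩ (hM1A _ hv)).symm
    · rintro ⟨v, c⟩ hy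
      obtain ⟨hv, rfl⟩ := (hΓ1m v c).1 hy
      refine (hΓ1m _ _).2 ⟨hM1B _ hv, ?_⟩
      exact (hB1 ⟨v, hv⟩ (hM1B _ hv)).symm
    · intro c hc
      obtain ⟨hv, rfl⟩ := (hΓ1m 0 c).1 hc
      rw [Submodule.Quotient.mk_eq_zero]
      exact R.zero_mem
    · intro c
      obtain ⟨v, rfl⟩ := Submodule.Quotient.mk_surjective _ c
      exact ⟨v, (hΓ1m _ _).2 ⟨v.2, rfl⟩⟩
  have hM1S : M1 ≤ sp e S0 := fun v hv => hΓ1 _ (hM1M0 hv)
  have hΓ1S : ∀ y ∈ Γ1, y.1 ∈ sp e S0 := by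
    rintro ⟨v, c⟩ hy
    obtain ⟨hv, _⟩ := (hΓ1m v c).1 hy
    exact hM1S hv
  have hΓ10 : ∀ v, (v, (0 : M1 ⧸ R.comap M1.subtype)) ∈ Γ1 ↔ v ∈ R := by
    intro v
    rw [hΓ1m]
    constructor
    · rintro ⟨hv, h0⟩
      rw [Submodule.Quotient.mk_eq_zero] at h0
      exact h0
    · intro hv
      refine ⟨hRM1 hv, ?_⟩
      rw [Submodule.Quotient.mk_eq_zero]
      exact hv
  obtain ⟨_, ψ, hψA, hψB, hψR, v1, c1, hvc1, hc1, hψ1⟩ :=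
    partI h hrt hH0 hR ha hai hocc1 hΓ1S hΓ10 hirr1
  -- ψ maps M1 onto
  have hψM : ∀ c, ∃ m ∈ M1, ψ m = c := by
    rcases hirr1.2 (M1.map ψ) (by
      rintro _ ⟨m, hm, rfl⟩
      exact ⟨A m, hM1A m hm, hψA m⟩) (by
      rintro _ ⟨m, hm, rfl⟩
      exact ⟨B m, hM1B m hm, hψB m (hM1S hm)⟩) with h1 | h1
    · exfalso
      obtain ⟨hv1, _⟩ := (hΓ1m v1 c1).1 hvc1
      have h2 : ψ v1 ∈ M1.map ψ := ⟨v1, hv1, rfl⟩
      rw [h1, Submodule.mem_bot, hψ1] at h2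
      exact hc1 h2
    · intro c
      have h2 : c ∈ M1.map ψ := by rw [h1]; trivial
      exact h2
  let Γ2 : Submodule F (V × C) := Γ ⊓ (LinearMap.ker ψ).comap (LinearMap.fst F V C)
  have hΓ2m : ∀ v c, (v, c) ∈ Γ2 ↔ (v, c) ∈ Γ ∧ ψ v = 0 := fun v c => Iff.rfl
  have hΓ2a : ∀ y ∈ Γ2, (A y.1, A' y.2) ∈ Γ2 := by
    rintro ⟨v, c⟩ hy
    obtain ⟨h1, h2⟩ := (hΓ2m v c).1 hy
    refine (hΓ2m _ _).2 ⟨hΓ.ia _ h1, ?_⟩
    change ψ (A v) = 0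
    rw [hψA, h2, map_zero]
  have hΓ2b : ∀ y ∈ Γ2, (B y.1, B' y.2) ∈ Γ2 := by
    rintro ⟨v, c⟩ hy
    obtain ⟨h1, h2⟩ := (hΓ2m v c).1 hy
    refine (hΓ2m _ _).2 ⟨hΓ.ib _ h1, ?_⟩
    change ψ (B v) = 0
    rw [hψB v (hΓ1 _ h1), h2, map_zero]
  rcases hirr.snd (A := A) (B := B) hΓ2a hΓ2b with h1 | h1
  · obtain ⟨c, hc⟩ := hirr.1
    obtain ⟨v, hv⟩ := hΓ.on c
    obtain ⟨m, hm, hψm⟩ := hψM (ψ v)
    have h2 : (v - m, c) ∈ Γ2 := by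
      refine (hΓ2m _ _).2 ⟨?_, ?_⟩
      · have := Γ.sub_mem hv (hM1M0 hm)
        simpa using this
      · rw [map_sub, hψm, sub_self]
    exact hc (h1 _ h2)
  · have hocc2 : Occ A B A' B' Γ2 := ⟨hΓ2a, hΓ2b, fun c hc => hΓ.fn c hc.1, h1⟩
    have h2 := hmin Γ2 hocc2 (fun y hy => hΓ1 y hy.1) (fun v hv => ⟨hΓR v hv, hψR v hv⟩)
    have h3 : Γ2 = Γ := Submodule.eq_of_le_of_finrank_le inf_le_left h2
    obtain ⟨c, hc⟩ := hirr1.1
    obtain ⟨m, hm, hψm⟩ := hψM c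
    have h4 : (m, (0 : C)) ∈ Γ2 := by rw [h3]; exact hM1M0 hm
    have h5 := ((hΓ2m _ _).1 h4).2
    rw [hψm] at h5
    exact hc h5

end Pool.Agent.Helper82.CF
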