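import Pool.Agent.Helper82.CF.PartI

/-!
Condition (1) for an irreducible constituent of a cyclic piece: part (i), the map `ψ`.
-/

namespace Pool.Agent.Helper82.CF

open Module

universe u v w

variable {F : Type u} [Field F] {V : Type v} [AddCommGroup V] [Module F V]
  {C : Type w} [AddCommGroup C] [Module F C] {n : ℕ}

/-- spectral projections descend along an occurrence -/
theorem proj_desc {T : V →ₗ[F] V} {T' : C →ₗ[F] C} {Γ : Submodule F (V × C)}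
    (hT : ∀ y ∈ Γ, (T y.1, T' y.2) ∈ Γ) (fn : ∀ c : C, ((0 : V), c) ∈ Γ → c = 0)
    (on : ∀ c : C, ∃ v : V, (v, c) ∈ Γ) {μ : F} {P : Polynomial F} (hP : IsProj T μ P) :
    IsProj T' μ P := by
  refine ⟨hP.1, ?_⟩
  intro c
  obtain ⟨v, hv⟩ := on c
  have h1 := aeval_prod T T' hT P hv
  have h2 := hT _ h1
  have h3 := Γ.smul_mem μ h1
  simp only at h2
  rw [hP.2 v] at h2
  have h4 := Γ.sub_mem h2 h3
  rw [Prod.smul_mk, Prod.mk_sub_mk, sub_self] at h4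
  exact sub_eq_zero.1 (fn _ h4)

theorem partI [FiniteDimensional F V] [FiniteDimensional F C]
    {A B : V ≃ₗ[F] V} {A' B' : C ≃ₗ[F] C} {e x : Basis (Fin n) F V} {θ lam : Fin n → F}
    (h : EX A B e x θ lam) {s r t : Fin n} (hrt : (r : ℕ) ≤ t)
    (hH0 : ∀ v ∈ sp e {i | (s : ℕ) ≤ i ∧ (i : ℕ) ≤ t}, A v ∈ sp e {i | (s : ℕ) ≤ i ∧ (i : ℕ) ≤ t})
    (hR : ∀ v ∈ sp e {i | (r : ℕ) < i ∧ (i : ℕ) ≤ t}, A v ∈ sp e {i | (r : ℕ) < i ∧ (i : ℕ) ≤ t})
    (ha : ∀ l k : Fin n, (k : ℕ) = l + 1 → (s : ℕ) ≤ l → (k : ℕ) ≤ t → e.repr (A (e l)) k ≠ 0)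
    (hai : ∀ l k : Fin n, (k : ℕ) = l + 1 → (s : ℕ) ≤ l → (k : ℕ) ≤ r →
      e.repr (A.symm (e k)) l ≠ 0)
    {Γ : Submodule F (V × C)} (hΓ : Occ A B A' B' Γ)
    (hΓ1 : ∀ y ∈ Γ, y.1 ∈ sp e {i | (s : ℕ) ≤ i ∧ (i : ℕ) ≤ t})
    (hΓ0 : ∀ v, (v, (0 : C)) ∈ Γ ↔ v ∈ sp e {i | (r : ℕ) < i ∧ (i : ℕ) ≤ t})
    (hirr : Irr A' B') :
    C1 A' B' ∧ ∃ ψ : V →ₗ[F] C, (∀ v, ψ (A v) = A' (ψ v)) ∧
      (∀ v ∈ sp e {i | (s : ℕ) ≤ i ∧ (i : ℕ) ≤ t}, ψ (B v) = B' (ψ v)) ∧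
      (∀ v ∈ sp e {i | (r : ℕ) < i ∧ (i : ℕ) ≤ t}, ψ v = 0) ∧
      (∃ v c, (v, c) ∈ Γ ∧ c ≠ 0 ∧ ψ v = c) := by
  classical
  obtain ⟨m, idx, tb, hm, hidx, hidxr, hB', hlow⟩ := partIa h hai hΓ hΓ1 hΓ0 hirr
  have hesy := diag_symm h.he
  have hxsy := diag_symm h.hx
  obtain ⟨δ, H, k1, k2, k3, k4, ⟨v1, c1, hvc1, hc1, hδ1⟩, ⟨c0, hc0⟩⟩ := lemX h.hx h.hB h.hBi hΓ hirr
    (exists_proj (B : V →ₗ[F] V) e θ h.he)
    (exists_proj (B.symm : V →ₗ[F] V) e (fun i => (θ i)⁻¹) hesy)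
  set k0 : Fin m := ⟨0, hm⟩ with hk0
  have hs0 : idx k0 = s := Fin.ext (by rw [hidx]; simp [hk0])
  have hcyc := gen_up e (A : V →ₗ[F] V) h.hA hH0 ha
  have hes : e s ∈ H := by
    refine k3 (θ (idx k0)) (tb k0) (tb.ne_zero k0) (hB' k0) (e s) ?_
    rw [hs0]; exact h.he s
  have hH0H := hcyc H hes k2
  have hBH : ∀ v ∈ sp e {i | (s : ℕ) ≤ i ∧ (i : ℕ) ≤ t}, δ (B v) = B' (δ v) := by
    intro v hv
    exact k4 v (hH0H hv) (hH0H (sp_diag (B : V →ₗ[F] V) e θ h.he hv))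
  -- δ kills R
  have hδR : ∀ v ∈ sp e {i | (r : ℕ) < i ∧ (i : ℕ) ≤ t}, δ v = 0 := by
    intro v hv
    have : v ∈ LinearMap.ker δ := by
      refine mem_of_proj (A : V →ₗ[F] V) x lam h.hx (v := v) ?_
      intro μ P hP
      rw [LinearMap.mem_ker]
      by_contra hcon
      set r' := Polynomial.aeval (A : V →ₗ[F] V) P v with hr'
      have hr'R : r' ∈ sp e {i | (r : ℕ) < i ∧ (i : ℕ) ≤ t} :=
        aeval_mem (A : V →ₗ[F] V) hR P hv
      have hr'A : A r' = μ • r' := hP.2 v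
      obtain ⟨u, hu⟩ := hΓ.on (δ r')
      have h1 := aeval_prod (A : V →ₗ[F] V) (A' : C →ₗ[F] C) (fun y hy => hΓ.ia y hy) P hu
      have h2 : (A' : C →ₗ[F] C) (δ r') = μ • δ r' := by
        simp only [LinearEquiv.coe_coe]
        rw [← k1, hr'A, map_smul]
      rw [aeval_eigen (A' : C →ₗ[F] C) h2, hP.1, one_smul] at h1
      set u' := Polynomial.aeval (A : V →ₗ[F] V) P u with hu'
      have hu'A : (A : V →ₗ[F] V) u' = μ • u' := hP.2 u
      obtain ⟨κ, hκ⟩ := cyc_eig (v := u') hP (e0 := e s) (fun U hU1 hU2 => hcyc U hU1 hU2)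
        (hΓ1 _ h1) hu'A
      have hr'H : r' ∈ sp e {i | (s : ℕ) ≤ i ∧ (i : ℕ) ≤ t} := by
        by_cases hsr : (s : ℕ) ≤ r
        · exact sp_mono e (S := {i | (r : ℕ) < i ∧ (i : ℕ) ≤ t})
            (T := {i | (s : ℕ) ≤ i ∧ (i : ℕ) ≤ t})
            (fun i hi => ⟨by have := hi.1; omega, hi.2⟩) hr'R
        · exfalso
          have h5 := hidxr k0
          rw [hs0] at h5
          exact hsr h5
      obtain ⟨κ', hκ'⟩ := cyc_eig hP (e0 := e s) (fun U hU1 hU2 => hcyc U hU1 hU2) hr'H hr'A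
      have hκ0 : κ' ≠ 0 := by
        rintro rfl
        rw [zero_smul] at hκ'
        rw [hκ', map_zero] at hcon
        exact hcon rfl
      have h6 : u' = (κ * κ'⁻¹) • r' := by
        rw [hκ, hκ', smul_smul, mul_assoc, inv_mul_cancel₀ hκ0, mul_one]
      have h7 : (u', (0 : C)) ∈ Γ := by
        rw [hΓ0, h6]; exact Submodule.smul_mem _ _ hr'R
      exact hcon (hΓ.uniq h1 h7)
    exact this
  refine ⟨?_, δ, k1, hBH, hδR, v1, c1, hvc1, hc1, hδ1⟩
  -- the images of the e's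
  have hg : ∀ k : Fin m, ∃ g : F, δ (e (idx k)) = g • tb k := by
    intro k
    obtain ⟨P, hP⟩ := exists_proj (B.symm : V →ₗ[F] V) e (fun i => (θ i)⁻¹) hesy (θ (idx k))⁻¹
    have hP' : IsProj (B'.symm : C →ₗ[F] C) (θ (idx k))⁻¹ P :=
      proj_desc (T := (B.symm : V →ₗ[F] V)) (T' := (B'.symm : C →ₗ[F] C))
        (fun y hy => hΓ.isymm hy) hΓ.fn hΓ.on hP
    have hcyc' : ∀ U : Submodule F C, c0 ∈ U → (∀ u ∈ U, (B'.symm : C →ₗ[F] C) u ∈ U) →
        (⊤ : Submodule F C) ≤ U := fun U h1 h2 => (hc0 U h1 h2).ge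
    have h1 : (B'.symm : C →ₗ[F] C) (tb k) = (θ (idx k))⁻¹ • tb k := diag_symm hB' k
    have h2 : (B'.symm : C →ₗ[F] C) (δ (e (idx k))) = (θ (idx k))⁻¹ • δ (e (idx k)) := by
      have hin : B.symm (e (idx k)) ∈ sp e {i | (s : ℕ) ≤ i ∧ (i : ℕ) ≤ t} := by
        refine sp_diag (B.symm : V →ₗ[F] V) e (fun i => (θ i)⁻¹) hesy ((basis_mem_sp e).2 ?_)
        exact ⟨by rw [hidx]; omega, le_trans (hidxr k) hrt⟩
      have h3 := hBH _ hin
      rw [LinearEquiv.apply_symm_apply, hesy, map_smul] at h3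
      simp only [LinearEquiv.coe_coe]
      rw [LinearEquiv.symm_apply_eq]
      exact h3
    obtain ⟨κ, hκ⟩ := cyc_eig hP' hcyc' (v := tb k) (by trivial) h1
    obtain ⟨κ', hκ'⟩ := cyc_eig hP' hcyc' (v := δ (e (idx k))) (by trivial) h2
    have hκ0 : κ ≠ 0 := by
      rintro rfl
      rw [zero_smul] at hκ
      exact tb.ne_zero k hκ
    refine ⟨κ' * κ⁻¹, ?_⟩
    rw [hκ']
    conv_rhs => rw [hκ]
    rw [smul_smul, mul_assoc, inv_mul_cancel₀ hκ0, mul_one]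
  choose g hg using hg
  have hAe : ∀ k : Fin m, A (e (idx k)) ∈
      sp e {i | ((s : ℕ) ≤ i ∧ (i : ℕ) ≤ s + k + 1)} := by
    intro k i hi
    by_cases h1 : (s : ℕ) ≤ i
    · have h2 : ¬ (i : ℕ) ≤ s + k + 1 := fun h2 => hi ⟨h1, h2⟩
      have h3 := hidx k
      exact h.hA i (idx k) (by omega)
    · have h2 := hH0 (e (idx k)) ((basis_mem_sp e).2 ⟨by rw [hidx]; omega,
        le_trans (hidxr k) hrt⟩)
      exact h2 i (fun h3 => h1 h3.1)
  have hA' : ∀ k : Fin m, g k ≠ 0 → A' (tb k) = (g k)⁻¹ • δ (A (e (idx k))) := by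
    intro k hk
    rw [k1, hg, map_smul, smul_smul, inv_mul_cancel₀ hk, one_smul]
  have hg0 : ∀ k : ℕ, ∀ hk : k < m, g ⟨k, hk⟩ ≠ 0 := by
    intro k
    induction k using Nat.strong_induction_on with
    | _ k ih =>
      intro hk hcon
      rcases Nat.eq_zero_or_pos k with hk1 | hk1
      · subst hk1
        have h1 : δ (e s) = 0 := by
          have h2 := hg k0
          rw [hs0] at h2
          rw [h2, show g k0 = 0 from hcon, zero_smul]
        have h2 := hcyc (LinearMap.ker δ) h1 (by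
          intro u hu
          rw [LinearMap.mem_ker] at hu ⊢
          simp only [LinearEquiv.coe_coe]
          rw [k1, hu, map_zero])
        have h3 : δ v1 = 0 := h2 (hΓ1 _ hvc1)
        rw [hδ1] at h3
        exact hc1 h3
      · set k' : Fin m := ⟨k, hk⟩ with hk'
        rcases hirr.2 (sp tb {j | (j : ℕ) < k}) (by
          intro u hu
          refine sp_map tb (A' : C →ₗ[F] C) ?_ hu
          intro j hj
          have hj' : (j : ℕ) < k := hj
          simp only [LinearEquiv.coe_coe]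
          rw [hA' j (ih j hj' j.2)]
          refine Submodule.smul_mem _ _ ?_
          refine sp_map e δ ?_ (hAe j)
          rintro i ⟨hi1, hi2⟩
          have him : (i : ℕ) - s < m := by omega
          set i' : Fin m := ⟨(i : ℕ) - s, him⟩ with hi'
          have hi'v : (i' : ℕ) = i - s := rfl
          have hii : idx i' = i := Fin.ext (by rw [hidx]; omega)
          have h5 := hg i'
          rw [hii] at h5
          rw [h5]
          by_cases h6 : (i' : ℕ) < k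
          · exact Submodule.smul_mem _ _ ((basis_mem_sp tb).2 h6)
          · have h7 : i' = k' := Fin.ext (by simp only [hk']; omega)
            rw [h7, show g k' = 0 from hcon, zero_smul]; exact Submodule.zero_mem _)
          (fun u hu => sp_diag (B' : C →ₗ[F] C) tb _ hB' hu) with h1 | h1
        · have h2 : tb k0 ∈ sp tb {j : Fin m | (j : ℕ) < k} := (basis_mem_sp tb).2 hk1
          rw [h1, Submodule.mem_bot] at h2
          exact tb.ne_zero k0 h2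
        · have h2 : tb k' ∈ sp tb {j : Fin m | (j : ℕ) < k} := by rw [h1]; trivial
          have h3 : (k' : ℕ) < k := (basis_mem_sp tb).1 h2
          exact lt_irrefl _ h3
  refine ⟨m, tb, fun k => θ (idx k), hB', ?_, hlow⟩
  intro i j hij
  rw [hA' j (hg0 j j.2)]
  have h1 : (g j)⁻¹ • δ (A (e (idx j))) ∈ sp tb {l | (l : ℕ) ≤ j + 1} := by
    refine Submodule.smul_mem _ _ ?_
    refine sp_map e δ ?_ (hAe j)
    rintro l ⟨hl1, hl2⟩
    have hin := i.2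
    have hlm : (l : ℕ) - s < m := by omega
    set l' : Fin m := ⟨(l : ℕ) - s, hlm⟩ with hl'
    have hl'v : (l' : ℕ) = l - s := rfl
    have hll : idx l' = l := Fin.ext (by rw [hidx]; omega)
    have h5 := hg l'
    rw [hll] at h5
    rw [h5]
    refine Submodule.smul_mem _ _ ((basis_mem_sp tb).2 ?_)
    show (l' : ℕ) ≤ j + 1
    omega
  refine h1 i ?_
  intro h2
  have h2' : (i : ℕ) ≤ j + 1 := h2
  omega

end Pool.Agent.Helper82.CF
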