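import Mathlib

/-!
Vectors supported on a set of basis indices, spectral polynomials, invariance lemmas.
-/

namespace Pool.Agent.Helper82.CF

open Module

universe u v w

variable {F : Type u} [Field F] {V : Type v} [AddCommGroup V] [Module F V] {n : ℕ}

/-- The vectors whose coordinates vanish outside `S`. -/
def sp (e : Basis (Fin n) F V) (S : Set (Fin n)) : Submodule F V where
  carrier := {v | ∀ i, i ∉ S → e.repr v i = 0}
  add_mem' := by intro a b ha hb i hi; simp [ha i hi, hb i hi]
  zero_mem' := by intro i _; simp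
  smul_mem' := by intro c a ha i hi; simp [ha i hi]

variable (e : Basis (Fin n) F V)

theorem mem_sp {S : Set (Fin n)} {v : V} : v ∈ sp e S ↔ ∀ i, i ∉ S → e.repr v i = 0 := Iff.rfl

theorem basis_mem_sp {S : Set (Fin n)} {i : Fin n} : e i ∈ sp e S ↔ i ∈ S := by
  constructor
  · intro h
    by_contra hi
    have := h i hi
    simp at this
  · intro hi j hj
    have : i ≠ j := by rintro rfl; exact hj hi
    simp [this]

theorem sp_mono {S T : Set (Fin n)} (h : S ⊆ T) : sp e S ≤ sp e T := by
  intro v hv i hi
  exact hv i (fun h' => hi (h h'))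

theorem sp_empty {v : V} (hv : v ∈ sp e ∅) : v = 0 := by
  apply e.repr.injective
  ext i
  simpa using hv i (by simp)

theorem sp_inter {S T : Set (Fin n)} {v : V} (h1 : v ∈ sp e S) (h2 : v ∈ sp e T) :
    v ∈ sp e (S ∩ T) := by
  intro i hi
  by_cases hS : i ∈ S
  · exact h2 i (fun hT => hi ⟨hS, hT⟩)
  · exact h1 i hS

/-- To check that a linear map sends `sp e S` into `U`, look at the basis vectors. -/
theorem sp_map {W : Type w} [AddCommGroup W] [Module F W] {S : Set (Fin n)} (T : V →ₗ[F] W)
    {U : Submodule F W} (h : ∀ i ∈ S, T (e i) ∈ U) {v : V} (hv : v ∈ sp e S) : T v ∈ U := by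
  rw [← e.sum_repr v, map_sum]
  refine Submodule.sum_mem _ fun i _ => ?_
  rw [map_smul]
  by_cases hi : i ∈ S
  · exact U.smul_mem _ (h i hi)
  · rw [hv i hi, zero_smul]; exact U.zero_mem

theorem sp_le {S : Set (Fin n)} {U : Submodule F V} (h : ∀ i ∈ S, e i ∈ U) : sp e S ≤ U :=
  fun _ hv => sp_map e (LinearMap.id : V →ₗ[F] V) (U := U) h hv

open Classical in
/-- Truncation to the coordinates in `S`. -/
noncomputable def tr (S : Set (Fin n)) : V →ₗ[F] V :=
  e.constr F fun i => if i ∈ S then e i else 0

open Classical in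
theorem repr_tr (S : Set (Fin n)) (v : V) (i : Fin n) :
    e.repr (tr e S v) i = if i ∈ S then e.repr v i else 0 := by
  have key : (Finsupp.lapply i ∘ₗ e.repr.toLinearMap ∘ₗ tr e S) =
      (if i ∈ S then (Finsupp.lapply i ∘ₗ e.repr.toLinearMap) else 0 : V →ₗ[F] F) := by
    refine e.ext fun j => ?_
    simp only [LinearMap.comp_apply, tr, Basis.constr_basis, LinearEquiv.coe_coe]
    by_cases hj : j ∈ S <;> by_cases hi : i ∈ S <;> by_cases hij : j = i
    all_goals first | (subst hij; simp_all) | simp_all
  have := LinearMap.congr_fun key v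
  by_cases hi : i ∈ S <;> simpa [hi] using this

theorem tr_mem (S : Set (Fin n)) (v : V) : tr e S v ∈ sp e S := by
  intro i hi
  rw [repr_tr]; simp [hi]

theorem sub_tr_mem (S : Set (Fin n)) (v : V) : v - tr e S v ∈ sp e Sᶜ := by
  intro i hi
  have hi' : i ∈ S := by simpa using hi
  rw [map_sub, Finsupp.sub_apply, repr_tr]; simp [hi']

/-- splitting the support -/
theorem sp_union {S T U : Set (Fin n)} (h : U ⊆ S ∪ T) {v : V} (hv : v ∈ sp e U) :
    ∃ a ∈ sp e S, ∃ b ∈ sp e T, v = a + b := by
  refine ⟨tr e S v, tr_mem e S v, v - tr e S v, ?_, by abel⟩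
  intro i hi
  rw [map_sub, Finsupp.sub_apply, repr_tr]
  by_cases hS : i ∈ S
  · simp [hS]
  · have : i ∉ U := fun h' => by
      rcases h h' with h | h
      · exact hS h
      · exact hi h
    simp [hS, hv i this]

/-- coordinates of an image -/
theorem repr_map (T : V →ₗ[F] V) (v : V) (k : Fin n) :
    e.repr (T v) k = ∑ i, e.repr v i * e.repr (T (e i)) k := by
  conv_lhs => rw [← e.sum_repr v]
  rw [map_sum, map_sum, Finsupp.finsetSum_apply]
  refine Finset.sum_congr rfl fun i _ => ?_
  rw [map_smul, map_smul, Finsupp.smul_apply, smul_eq_mul]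

theorem repr_map_zero (T : V →ₗ[F] V) {S : Set (Fin n)} {v : V} (hv : v ∈ sp e S) {k : Fin n}
    (h : ∀ i ∈ S, e.repr (T (e i)) k = 0) : e.repr (T v) k = 0 := by
  rw [repr_map]
  refine Finset.sum_eq_zero fun i _ => ?_
  by_cases hi : i ∈ S
  · rw [h i hi, mul_zero]
  · rw [hv i hi, zero_mul]

theorem repr_map_single (T : V →ₗ[F] V) {S : Set (Fin n)} {v : V} (hv : v ∈ sp e S)
    {k : Fin n} (l : Fin n) (h : ∀ i ∈ S, i ≠ l → e.repr (T (e i)) k = 0) :
    e.repr (T v) k = e.repr v l * e.repr (T (e l)) k := by
  rw [repr_map]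
  refine Finset.sum_eq_single l (fun i _ hil => ?_) (by simp)
  by_cases hi : i ∈ S
  · rw [h i hi hil, mul_zero]
  · rw [hv i hi, zero_mul]

/-- a subspace invariant under an invertible map is invariant under the inverse -/
theorem symm_mem [FiniteDimensional F V] (T : V ≃ₗ[F] V) {U : Submodule F V}
    (h : ∀ u ∈ U, T u ∈ U) {u : V} (hu : u ∈ U) : T.symm u ∈ U := by
  have h1 : U.map (T : V →ₗ[F] V) ≤ U := by
    rintro _ ⟨v, hv, rfl⟩; exact h v hv
  have h2 : U.map (T : V →ₗ[F] V) = U := by
    apply Submodule.eq_of_le_of_finrank_eq h1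
    exact LinearEquiv.finrank_map_eq T U
  rw [← h2] at hu
  obtain ⟨v, hv, rfl⟩ := hu
  simpa using hv

theorem mem_of_symm [FiniteDimensional F V] (T : V ≃ₗ[F] V) {U : Submodule F V}
    (h : ∀ u ∈ U, T.symm u ∈ U) {u : V} (hu : u ∈ U) : T u ∈ U := by
  have := symm_mem T.symm h hu
  simpa using this

/-- invariance under polynomials -/
theorem aeval_mem (T : V →ₗ[F] V) {U : Submodule F V} (h : ∀ u ∈ U, T u ∈ U)
    (P : Polynomial F) {u : V} (hu : u ∈ U) : Polynomial.aeval T P u ∈ U := by
  induction P using Polynomial.induction_on' with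
  | add p q hp hq => rw [map_add, LinearMap.add_apply]; exact U.add_mem hp hq
  | monomial k a =>
    rw [Polynomial.aeval_monomial]
    have : ∀ k, (T ^ k) u ∈ U := by
      intro k
      induction k with
      | zero => simpa using hu
      | succ k ih => rw [pow_succ']; exact h _ ih
    have h2 := U.smul_mem a (this k)
    simpa [Algebra.algebraMap_eq_smul_one] using h2

theorem aeval_eigen (T : V →ₗ[F] V) {μ : F} {v : V} (h : T v = μ • v) (P : Polynomial F) :
    Polynomial.aeval T P v = P.eval μ • v := by
  induction P using Polynomial.induction_on' with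
  | add p q hp hq => rw [map_add, LinearMap.add_apply, hp, hq, Polynomial.eval_add, add_smul]
  | monomial k a =>
    rw [Polynomial.aeval_monomial]
    have : ∀ k, (T ^ k) v = μ ^ k • v := by
      intro k
      induction k with
      | zero => simp
      | succ k ih => rw [pow_succ', Module.End.mul_apply, ih, map_smul, h, smul_smul, pow_succ]
    simp [Algebra.algebraMap_eq_smul_one, this k, smul_smul]

/-- a polynomial which is 1 at `μ` and 0 at the other values of `θ` -/
theorem exists_poly (θ : Fin n → F) (μ : F) :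
    ∃ P : Polynomial F, P.eval μ = 1 ∧ ∀ i, θ i ≠ μ → P.eval (θ i) = 0 := by
  classical
  refine ⟨Lagrange.interpolate (insert μ (Finset.univ.image θ)) id
    (fun x => if x = μ then 1 else 0), ?_, ?_⟩
  · have := Lagrange.eval_interpolate_at_node (s := insert μ (Finset.univ.image θ)) (v := id)
      (fun x => if x = μ then (1 : F) else 0) (Function.injective_id.injOn) (i := μ) (by simp)
    simpa using this
  · intro i h
    have := Lagrange.eval_interpolate_at_node (s := insert μ (Finset.univ.image θ)) (v := id)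
      (fun x => if x = μ then (1 : F) else 0) (Function.injective_id.injOn) (i := θ i) (by simp)
    simpa [h] using this

/-- `P (T)` is the projection to the eigenspace of `μ` -/
def IsProj (T : V →ₗ[F] V) (μ : F) (P : Polynomial F) : Prop :=
  P.eval μ = 1 ∧ ∀ v, T (Polynomial.aeval T P v) = μ • Polynomial.aeval T P v

theorem IsProj.fix {T : V →ₗ[F] V} {μ : F} {P : Polynomial F} (h : IsProj T μ P) {v : V}
    (hv : T v = μ • v) : Polynomial.aeval T P v = v := by
  rw [aeval_eigen T hv, h.1, one_smul]

/-- spectral projections for a diagonalizable map -/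
theorem exists_proj (T : V →ₗ[F] V) (e : Basis (Fin n) F V) (θ : Fin n → F)
    (he : ∀ i, T (e i) = θ i • e i) (μ : F) : ∃ P, IsProj T μ P := by
  obtain ⟨P, hP1, hP⟩ := exists_poly θ μ
  have key : ∀ i, Polynomial.aeval T P (e i) = P.eval (θ i) • e i := fun i =>
    aeval_eigen T (he i) P
  refine ⟨P, hP1, ?_⟩
  intro v
  have : T ∘ₗ Polynomial.aeval T P = μ • Polynomial.aeval T P := by
    refine e.ext fun i => ?_
    simp only [LinearMap.comp_apply, LinearMap.smul_apply, key, map_smul, he]
    by_cases hi : θ i = μ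
    · rw [hi]; rw [smul_comm]
    · rw [hP i hi]; simp
  simpa using LinearMap.congr_fun this v

/-- the eigenvector lemma: some spectral projection does not kill a given non-zero vector, in the
form needed for partial maps `Γ` -/
theorem aeval_prod {C : Type w} [AddCommGroup C] [Module F C] (T : V →ₗ[F] V) (T' : C →ₗ[F] C)
    {Γ : Submodule F (V × C)} (h : ∀ x ∈ Γ, (T x.1, T' x.2) ∈ Γ) (P : Polynomial F)
    {v : V} {c : C} (hx : (v, c) ∈ Γ) : (Polynomial.aeval T P v, Polynomial.aeval T' P c) ∈ Γ := by
  induction P using Polynomial.induction_on' with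
  | add p q hp hq =>
    have := Γ.add_mem hp hq
    simpa using this
  | monomial k a =>
    have : ∀ k, ((T ^ k) v, (T' ^ k) c) ∈ Γ := by
      intro k
      induction k with
      | zero => simpa using hx
      | succ k ih =>
        rw [pow_succ', pow_succ']
        exact h _ ih
    have h2 := Γ.smul_mem a (this k)
    simpa [Polynomial.aeval_monomial, Algebra.algebraMap_eq_smul_one] using h2

/-- Lemma Y. -/
theorem lemY (T : V →ₗ[F] V) {μ : F} {P : Polynomial F} (hP : IsProj T μ P)
    {M' : Submodule F V} (hM' : ∀ u ∈ M', T u ∈ M') {m v z w' : V} {κ : F}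
    (gen : ∀ U : Submodule F V, M' ≤ U → m ∈ U → (∀ u ∈ U, T u ∈ U) → v ∈ U)
    (hz : T z - μ • z = κ • m + w') (hw' : w' ∈ M') (hκ : κ ≠ 0) (hv : T v = μ • v) : v ∈ M' := by
  have hc : ∀ u, Polynomial.aeval T P (T u) = T (Polynomial.aeval T P u) := by
    intro u
    have := congrArg (Polynomial.aeval T) (mul_comm P Polynomial.X)
    rw [map_mul, map_mul, Polynomial.aeval_X] at this
    exact LinearMap.congr_fun this u
  let U : Submodule F V := M'.comap (Polynomial.aeval T P : V →ₗ[F] V)
  have hU : v ∈ U := by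
    refine gen U (fun u hu => aeval_mem T hM' P hu) ?_ ?_
    · have h0 : Polynomial.aeval T P (T z - μ • z) = 0 := by
        rw [map_sub, hc, map_smul, hP.2, sub_self]
      rw [hz, map_add, map_smul] at h0
      have h1 : κ • Polynomial.aeval T P m = - Polynomial.aeval T P w' := by
        rw [← sub_eq_zero, sub_neg_eq_add]; exact h0
      have h2 : Polynomial.aeval T P m = κ⁻¹ • (- Polynomial.aeval T P w') := by
        rw [← h1, smul_smul, inv_mul_cancel₀ hκ, one_smul]
      change Polynomial.aeval T P m ∈ M'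
      rw [h2]
      exact M'.smul_mem _ (M'.neg_mem (aeval_mem T hM' P hw'))
    · intro u hu
      change Polynomial.aeval T P (T u) ∈ M'
      rw [hc]; exact hM' _ hu
  change Polynomial.aeval T P v ∈ M' at hU
  rwa [hP.fix hv] at hU

end Pool.Agent.Helper82.CF
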