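import Pool.Agent.Helper82.CF.PartII

/-!
Symmetries: mirror, tau, duality.
-/

namespace Pool.Agent.Helper82.CF

open Module

universe u v w

variable {F : Type u} [Field F] {V : Type v} [AddCommGroup V] [Module F V]
  {C : Type w} [AddCommGroup C] [Module F C] {n : ℕ}

/-- the basis in reversed order -/
noncomputable def rv (e : Basis (Fin n) F V) : Basis (Fin n) F V := e.reindex Fin.revPerm

theorem rv_apply (e : Basis (Fin n) F V) (i : Fin n) : rv e i = e i.rev := by
  simp [rv, Basis.reindex_apply]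

theorem rv_repr (e : Basis (Fin n) F V) (v : V) (i : Fin n) :
    (rv e).repr v i = e.repr v i.rev := by
  simp [rv]

theorem sp_rv (e : Basis (Fin n) F V) (S : Set (Fin n)) {v : V} :
    v ∈ sp (rv e) S ↔ v ∈ sp e {i | i.rev ∈ S} := by
  constructor
  · intro h i hi
    have h1 := h i.rev hi
    rwa [rv_repr, Fin.rev_rev] at h1
  · intro h i hi
    rw [rv_repr]
    refine h i.rev ?_
    intro h1
    have h1' : (i.rev).rev ∈ S := h1
    rw [Fin.rev_rev] at h1'
    exact hi h1'

theorem Occ.mirror [FiniteDimensional F V] [FiniteDimensional F C] {A B : V ≃ₗ[F] V}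
    {A' B' : C ≃ₗ[F] C} {Γ : Submodule F (V × C)} (h : Occ A B A' B' Γ) :
    Occ A.symm B A'.symm B' Γ :=
  ⟨fun _ hy => h.iasymm hy, h.ib, h.fn, h.on⟩

theorem Occ.tau [FiniteDimensional F V] [FiniteDimensional F C] {A B : V ≃ₗ[F] V}
    {A' B' : C ≃ₗ[F] C} {Γ : Submodule F (V × C)} (h : Occ A B A' B' Γ) :
    Occ B.symm A B'.symm A' Γ :=
  ⟨fun _ hy => h.isymm hy, h.ia, h.fn, h.on⟩

theorem Irr.mirror [FiniteDimensional F C] {A' B' : C ≃ₗ[F] C} (h : Irr A' B') :
    Irr A'.symm B' := by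
  refine ⟨h.1, fun U h1 h2 => h.2 U (fun u hu => ?_) h2⟩
  exact mem_of_symm A' h1 hu

theorem Irr.tau [FiniteDimensional F C] {A' B' : C ≃ₗ[F] C} (h : Irr A' B') :
    Irr B'.symm A' := by
  refine ⟨h.1, fun U h1 h2 => h.2 U h2 (fun u hu => ?_)⟩
  exact mem_of_symm B' h1 hu

theorem EX.mirror {A B : V ≃ₗ[F] V} {e x : Basis (Fin n) F V} {θ lam : Fin n → F}
    (h : EX A B e x θ lam) :
    EX A.symm B (rv e) x (fun i => θ i.rev) (fun i => (lam i)⁻¹) := by
  refine ⟨?_, ?_, ?_, diag_symm h.hx, h.hB, h.hBi⟩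
  · intro i; rw [rv_apply, h.he]
  · intro i j hij
    rw [rv_apply, rv_repr]
    apply h.hAi
    simp only [Fin.val_rev]; omega
  · intro i j hij
    rw [rv_apply, rv_repr]
    apply h.hA
    simp only [Fin.val_rev]; omega

theorem EX.tau {A B : V ≃ₗ[F] V} {e x : Basis (Fin n) F V} {θ lam : Fin n → F}
    (h : EX A B e x θ lam) :
    EX B.symm A x (rv e) lam (fun i => (θ i.rev)⁻¹) := by
  refine ⟨h.hx, h.hBi, ?_, ?_, ?_, ?_⟩
  · intro i j hij; exact h.hB i j hij
  · intro i; rw [rv_apply, diag_symm h.he]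
  · intro i j hij
    rw [rv_apply, rv_repr]
    apply h.hA
    simp only [Fin.val_rev]; omega
  · intro i j hij
    rw [rv_apply, rv_repr]
    apply h.hAi
    simp only [Fin.val_rev]; omega

theorem C1.mirror {A' B' : C ≃ₗ[F] C} (h : C1 A'.symm B') : C1 A' B' := by
  obtain ⟨m, t, θ, h1, h2, h3⟩ := h
  refine ⟨m, rv t, fun i => θ i.rev, ?_, ?_, ?_⟩
  · intro i; rw [rv_apply, h1]
  · intro i j hij
    rw [rv_apply, rv_repr]
    apply h3
    simp only [Fin.val_rev]; omega
  · intro i j hij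
    rw [rv_apply, rv_repr]
    apply h2
    simp only [Fin.val_rev]; omega

/-! ### Duality -/

/-- the dual basis in reversed order -/
noncomputable def dv (e : Basis (Fin n) F V) : Basis (Fin n) F (Dual F V) := rv e.dualBasis

theorem dv_apply (e : Basis (Fin n) F V) (i : Fin n) (v : V) : dv e i v = e.repr v i.rev := by
  rw [dv, rv_apply, Basis.dualBasis_apply]

theorem dv_repr (e : Basis (Fin n) F V) (φ : Dual F V) (i : Fin n) :
    (dv e).repr φ i = φ (e i.rev) := by
  rw [dv, rv_repr, Basis.dualBasis_repr]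

theorem EX.dual {A B : V ≃ₗ[F] V} {e x : Basis (Fin n) F V} {θ lam : Fin n → F}
    (h : EX A B e x θ lam) :
    EX A.dualMap B.dualMap (dv e) (dv x) (fun i => θ i.rev) (fun i => lam i.rev) := by
  refine ⟨?_, ?_, ?_, ?_, ?_, ?_⟩
  · intro i
    refine e.ext fun j => ?_
    rw [LinearEquiv.dualMap_apply, LinearMap.smul_apply, h.he, map_smul, dv_apply]
    by_cases hij : j = i.rev
    · rw [hij]
    · simp [hij]
  · intro i j hij
    rw [dv_repr, LinearEquiv.dualMap_apply, dv_apply]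
    apply h.hA
    simp only [Fin.val_rev]; omega
  · intro i j hij
    rw [dv_repr, LinearEquiv.dualMap_symm, LinearEquiv.dualMap_apply, dv_apply]
    apply h.hAi
    simp only [Fin.val_rev]; omega
  · intro i
    refine x.ext fun j => ?_
    rw [LinearEquiv.dualMap_apply, LinearMap.smul_apply, h.hx, map_smul, dv_apply]
    by_cases hij : j = i.rev
    · rw [hij]
    · simp [hij]
  · intro i j hij
    rw [dv_repr, LinearEquiv.dualMap_apply, dv_apply]
    apply h.hB
    simp only [Fin.val_rev]; omega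
  · intro i j hij
    rw [dv_repr, LinearEquiv.dualMap_symm, LinearEquiv.dualMap_apply, dv_apply]
    apply h.hBi
    simp only [Fin.val_rev]; omega

theorem C1.dual [FiniteDimensional F C] {A' B' : C ≃ₗ[F] C} (h : C1 A'.dualMap B'.dualMap) :
    C1 A' B' := by
  obtain ⟨m, T, θ, h1, h2, h3⟩ := h
  let b0 : Basis (Fin m) F C := T.dualBasis.map (Module.evalEquiv F C).symm
  have hb0 : ∀ i (φ : Dual F C), φ (b0 i) = T.repr φ i := by
    intro i φ
    simp only [b0, Basis.map_apply]
    rw [Module.apply_evalEquiv_symm_apply, Basis.dualBasis_apply]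
  have hrep : ∀ (c : C) (i : Fin m), b0.repr c i = T i c := by
    intro c i
    have key : (Finsupp.lapply i ∘ₗ b0.repr.toLinearMap : C →ₗ[F] F) = T i := by
      refine b0.ext fun j => ?_
      simp only [LinearMap.comp_apply, LinearEquiv.coe_coe, Basis.repr_self, Finsupp.lapply_apply]
      rw [hb0, Basis.repr_self]
      by_cases hij : i = j
      · subst hij; simp
      · rw [Finsupp.single_eq_of_ne hij, Finsupp.single_eq_of_ne (Ne.symm hij)]
    exact LinearMap.congr_fun key c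
  refine ⟨m, rv b0, fun i => θ i.rev, ?_, ?_, ?_⟩
  · intro i
    rw [rv_apply]
    apply b0.repr.injective
    ext j
    rw [hrep, map_smul, Finsupp.smul_apply, hrep, smul_eq_mul]
    have h4 : (T j) (B' (b0 i.rev)) = (B'.dualMap (T j)) (b0 i.rev) := rfl
    rw [h4, h1, LinearMap.smul_apply, hb0, smul_eq_mul, Basis.repr_self]
    by_cases hij : j = i.rev
    · rw [hij]
    · rw [Finsupp.single_eq_of_ne (Ne.symm hij), mul_zero, mul_zero]
  · intro i j hij
    rw [rv_apply, rv_repr, hrep]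
    have h4 : (T i.rev) (A' (b0 j.rev)) = (A'.dualMap (T i.rev)) (b0 j.rev) := rfl
    rw [h4, hb0]
    apply h2
    simp only [Fin.val_rev]; omega
  · intro i j hij
    rw [rv_apply, rv_repr, hrep]
    have h4 : (T i.rev) (A'.symm (b0 j.rev)) = (A'.dualMap.symm (T i.rev)) (b0 j.rev) := rfl
    rw [h4, hb0]
    apply h3
    simp only [Fin.val_rev]; omega

theorem Irr.dual [FiniteDimensional F C] {A' B' : C ≃ₗ[F] C} (h : Irr A' B') :
    Irr A'.dualMap B'.dualMap := by
  constructor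
  · obtain ⟨c, hc⟩ := h.1
    by_contra hcon
    push Not at hcon
    exact hc ((Module.forall_dual_apply_eq_zero_iff F c).1 (fun φ => by rw [hcon φ]; rfl))
  · intro U h1 h2
    have h3 : ∀ c ∈ U.dualCoannihilator, A' c ∈ U.dualCoannihilator := by
      intro c hc
      rw [Submodule.mem_dualCoannihilator] at hc ⊢
      intro φ hφ
      exact hc _ (h1 φ hφ)
    have h4 : ∀ c ∈ U.dualCoannihilator, B' c ∈ U.dualCoannihilator := by
      intro c hc
      rw [Submodule.mem_dualCoannihilator] at hc ⊢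
      intro φ hφ
      exact hc _ (h2 φ hφ)
    have h5 : U = U.dualCoannihilator.dualAnnihilator :=
      (Subspace.dualCoannihilator_dualAnnihilator_eq (W := U)).symm
    rcases h.2 _ h3 h4 with h6 | h6
    · right
      rw [h5, h6, Submodule.dualAnnihilator_bot]
    · left
      rw [h5, h6, Submodule.dualAnnihilator_top]

/-- a partial map extends -/
theorem extend_rel (G : Submodule F (V × C)) (hf : ∀ c : C, ((0 : V), c) ∈ G → c = 0) :
    ∃ δ : V →ₗ[F] C, ∀ v c, (v, c) ∈ G → δ v = c := by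
  obtain ⟨W, hW⟩ := Submodule.exists_isCompl (G.map (LinearMap.fst F V C))
  have hm : ∀ v c, (v, c) ∈ G ⊔ W.prod (⊥ : Submodule F C) ↔ ∃ w ∈ W, (v - w, c) ∈ G := by
    intro v c
    rw [Submodule.mem_sup]
    constructor
    · rintro ⟨⟨y1, y2⟩, hy, ⟨z1, z2⟩, hz, hyz⟩
      have hz' : z1 ∈ W ∧ z2 = 0 := by simpa [Submodule.mem_prod] using hz
      simp only [Prod.mk_add_mk, Prod.mk.injEq] at hyz
      refine ⟨z1, hz'.1, ?_⟩
      have e1 : v - z1 = y1 := by rw [← hyz.1]; abel
      have e2 : c = y2 := by rw [← hyz.2, hz'.2, add_zero]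
      rw [e1, e2]; exact hy
    · rintro ⟨z, hz, hzc⟩
      exact ⟨(v - z, c), hzc, (z, 0), by simpa [Submodule.mem_prod] using hz, by simp⟩
  obtain ⟨δ, hδ⟩ := exists_linearMap (G ⊔ W.prod (⊥ : Submodule F C)) (by
    intro c hc
    obtain ⟨w, hw, hwc⟩ := (hm _ _).1 hc
    rw [zero_sub] at hwc
    have h1 : -w ∈ G.map (LinearMap.fst F V C) ⊓ W := ⟨⟨_, hwc, rfl⟩, W.neg_mem hw⟩
    rw [hW.inf_eq_bot, Submodule.mem_bot] at h1
    rw [h1] at hwc
    exact hf c hwc) (by
    intro v
    have h1 : v ∈ G.map (LinearMap.fst F V C) ⊔ W := by rw [hW.sup_eq_top]; trivial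
    obtain ⟨y, ⟨⟨y1, c⟩, hy, hy1⟩, w, hw, hyw⟩ := Submodule.mem_sup.1 h1
    have hy1' : y1 = y := hy1
    subst hy1'
    refine ⟨c, (hm _ _).2 ⟨w, hw, ?_⟩⟩
    have : v - w = y1 := by rw [← hyw]; abel
    rw [this]; exact hy)
  refine ⟨δ, fun v c hvc => (hδ v c).1 ((hm _ _).2 ⟨0, W.zero_mem, by simpa using hvc⟩)⟩

end Pool.Agent.Helper82.CF
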